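import Pool.Agent.N85.WM.Modp
import Pool.Agent.Y63.NV.Gb

/-!
# From congruences to equalities
-/

set_option autoImplicit false

open scoped Classical BigOperators

noncomputable section

namespace Pool.Agent.N85.WM

open Pool.Agent.Y63.NV
open Pool.Agent.Y63.NV.B48B (CF rs card_fib orbit_sum nw_conj)
open Pool.Agent.Y63.AWC (IsIrreducibleCharacter pSubgroupSetoid)

section gen

variable {F : Type} [Field F] {G : Type} [Group G] [Finite G]

/-- counting in blocks and counting with one class function, modulo `m` -/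
theorem cnt_mod {X Y : Type} [Finite X] [Finite Y] (a : X → (G → F) → F) (b : Y → (G → F) → F)
    (ha : ∀ x, IsBlock (a x)) (hb : ∀ y, IsBlock (b y)) (m : ℕ)
    (h : ∀ B : (G → F) → F, IsBlock B →
      Nat.card {x // BEq (a x) B} ≡ Nat.card {y // BEq (b y) B} [MOD m])
    {z : G → F} (hz : IsClassFun z) (c : F) :
    Nat.card {x // a x z = c} ≡ Nat.card {y // b y z = c} [MOD m] := by
  have : Fintype X := Fintype.ofFinite X
  have : Fintype Y := Fintype.ofFinite Y
  let rX : X → (CF G F → F) := fun x => rs (a x)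
  let rY : Y → (CF G F → F) := fun y => rs (b y)
  let S : Finset (CF G F → F) := Finset.univ.image rX ∪ Finset.univ.image rY
  have hS : ∀ β ∈ S, ∃ B : (G → F) → F, IsBlock B ∧ rs B = β := by
    intro β hβ
    rcases Finset.mem_union.1 hβ with h | h
    · obtain ⟨x, -, rfl⟩ := Finset.mem_image.1 h
      exact ⟨a x, ha x, rfl⟩
    · obtain ⟨y, -, rfl⟩ := Finset.mem_image.1 h
      exact ⟨b y, hb y, rfl⟩
  have e1 : Nat.card {x // a x z = c} =
      ∑ β ∈ S, if β ⟨z, hz⟩ = c then Nat.card {x // rX x = β} else 0 :=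
    card_fib rX S (fun x => Finset.mem_union_left _
      (Finset.mem_image_of_mem _ (Finset.mem_univ x))) (fun β => β ⟨z, hz⟩ = c)
  have e2 : Nat.card {y // b y z = c} =
      ∑ β ∈ S, if β ⟨z, hz⟩ = c then Nat.card {y // rY y = β} else 0 :=
    card_fib rY S (fun y => Finset.mem_union_right _
      (Finset.mem_image_of_mem _ (Finset.mem_univ y))) (fun β => β ⟨z, hz⟩ = c)
  have e : ∀ {W : Type} (d : W → (G → F) → F) (B : (G → F) → F),
      Nat.card {w // rs (d w) = (rs B : CF G F → F)} = Nat.card {w // BEq (d w) B} := by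
    intro W d B
    refine Nat.card_congr (Equiv.subtypeEquivRight fun w => ?_)
    constructor
    · intro h f hf
      exact congrFun h ⟨f, hf⟩
    · intro h
      funext f
      exact h f.1 f.2
  rw [e1, e2, ← ZMod.natCast_eq_natCast_iff, Nat.cast_sum, Nat.cast_sum]
  refine Finset.sum_congr rfl fun β hβ => ?_
  obtain ⟨B, hB, rfl⟩ := hS β hβ
  by_cases hc : (rs B : CF G F → F) ⟨z, hz⟩ = c
  · rw [if_pos hc, if_pos hc, ZMod.natCast_eq_natCast_iff]
    have h3 := h B hB
    rw [← e a, ← e b] at h3
    exact h3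
  · rw [if_neg hc, if_neg hc]

end gen

section top

variable {p : ℕ} {F : Type} [Field F] {G : Type} [Group G] [Finite G]

theorem lsum_top (z : G → F) (c : F) :
    Lsum (⊤ : Subgroup G) ⊤ z c = (Nat.card G : ℤ) * (Lnum (⊤ : Subgroup G) ⊤ z c : ℤ) := by
  unfold Lsum
  rw [if_pos (sup_idem _), inf_idem, Subgroup.card_top]

/-- the number of classes of weights with a given value of the central character -/
theorem wsum_top (red : integralClosure ℤ ℂ →+* F) {z : G → F} (hz : IsClassFun z) (c : F) :
    Wsum p red (⊤ : Subgroup G) ⊤ z c =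
      (Nat.card G : ℤ) * (Nat.card {y : YS p G // cvS red y z = c} : ℤ) := by
  let P : Type := {Q : Subgroup G // IsPGroup p Q}
  have hP : Finite P := inferInstanceAs (Finite {Q : Subgroup G // IsPGroup p Q})
  have : Fintype P := Fintype.ofFinite P
  let _act : MulAction G P :=
    { smul := fun g Q => ⟨Q.1.map (MulAut.conj g).toMonoidHom, Q.2.map _⟩
      one_smul := fun Q => by
        apply Subtype.ext
        change Q.1.map (MulAut.conj (1 : G)).toMonoidHom = Q.1
        ext x
        simp [Subgroup.mem_map]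
      mul_smul := fun g h Q => by
        apply Subtype.ext
        change Q.1.map (MulAut.conj (g * h)).toMonoidHom =
          (Q.1.map (MulAut.conj h).toMonoidHom).map (MulAut.conj g).toMonoidHom
        rw [Subgroup.map_map]
        congr 1
        ext x
        simp [mul_assoc] }
  have hsm : ∀ (g : G) (Q : P), (g • Q).1 = Q.1.map (MulAut.conj g).toMonoidHom := fun _ _ => rfl
  have h6 := orbit_sum (G := G) (Ω := P) (pSubgroupSetoid p G) (by
    intro Q R
    change (∃ g : G, R.1 = Q.1.map (MulAut.conj g).toMonoidHom) ↔ _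
    constructor
    · rintro ⟨g, hg⟩
      exact ⟨g, Subtype.ext (by rw [hsm, hg])⟩
    · rintro ⟨g, hg⟩
      exact ⟨g, by rw [← hg, hsm]⟩)
    (fun Q => Nw p red (Q.1.subgroupOf (Subgroup.normalizer (Q.1 : Set G))) (fun x => z x) c) (by
      rintro Q R ⟨g, hg⟩
      change Nw p red (Q.1.subgroupOf (Subgroup.normalizer (Q.1 : Set G))) (fun x => z x) c =
        Nw p red (R.1.subgroupOf (Subgroup.normalizer (R.1 : Set G))) (fun x => z x) c
      rw [hg]
      exact nw_conj p red hz c g Q.1)
  have hstab : ∀ Q : P, Nat.card (MulAction.stabilizer G Q) =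
      Nat.card (Subgroup.normalizer (Q.1 : Set G)) := by
    intro Q
    refine Nat.card_congr (Equiv.subtypeEquivRight fun g => ?_)
    rw [MulAction.mem_stabilizer_iff, Subtype.ext_iff, hsm, Subgroup.mem_normalizer_iff]
    constructor
    · intro h3 x
      constructor
      · intro hx
        have : g * x * g⁻¹ ∈ Q.1.map (MulAut.conj g).toMonoidHom := ⟨x, hx, rfl⟩
        rw [h3] at this
        exact this
      · intro hx
        have hx' : g * x * g⁻¹ ∈ Q.1 := hx
        rw [← h3] at hx'
        obtain ⟨y, hy, hyx⟩ := hx'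
        have : g * y * g⁻¹ = g * x * g⁻¹ := hyx
        have : y = x := by simpa using this
        rwa [← this]
    · intro h3
      ext x
      constructor
      · rintro ⟨y, hy, rfl⟩
        exact (h3 y).mp hy
      · intro hx
        refine ⟨g⁻¹ * x * g, (h3 _).mpr ?_, ?_⟩
        · have : g * (g⁻¹ * x * g) * g⁻¹ = x := by group
          rw [this]
          exact hx
        · change g * (g⁻¹ * x * g) * g⁻¹ = x
          group
  have e9 : Wsum p red (⊤ : Subgroup G) ⊤ z c = ((∑ Q : P,
      Nat.card (Subgroup.normalizer (Q.1 : Set G)) *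
        Nw p red (Q.1.subgroupOf (Subgroup.normalizer (Q.1 : Set G))) (fun x => z x) c : ℕ) : ℤ) := by
    unfold Wsum
    have : Fintype (Subgroup G) := Fintype.ofFinite _
    rw [finsum_eq_sum_of_fintype]
    have e10 : ∀ Q : Subgroup G, (if IsPGroup p Q ∧ Q ≤ ⊤ ∧ (⊤ : Subgroup G) ⊔ Q = ⊤ then
        (Nat.card ↥((⊤ : Subgroup G) ⊓ Subgroup.normalizer (Q : Set G)) : ℤ) *
          Nw p red (Q.subgroupOf ((⊤ : Subgroup G) ⊓ Subgroup.normalizer (Q : Set G)))
            (fun x => z x) c else 0) =
        if IsPGroup p Q then (Nat.card ↥(Subgroup.normalizer (Q : Set G)) : ℤ) *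
          Nw p red (Q.subgroupOf (Subgroup.normalizer (Q : Set G))) (fun x => z x) c else 0 := by
      intro Q
      rw [top_inf_eq]
      by_cases h : IsPGroup p Q
      · rw [if_pos h, if_pos ⟨h, le_top, top_sup_eq _⟩]
      · rw [if_neg h, if_neg fun h' => h h'.1]
    rw [Finset.sum_congr rfl fun Q _ => e10 Q, ← Finset.sum_filter]
    push_cast
    exact Finset.sum_subtype (p := fun Q : Subgroup G => IsPGroup p Q)
      (Finset.univ.filter fun Q : Subgroup G => IsPGroup p Q) (by simp)
      (fun Q => (Nat.card ↥(Subgroup.normalizer (Q : Set G)) : ℤ) *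
          Nw p red (Q.subgroupOf (Subgroup.normalizer (Q : Set G))) (fun x => z x) c)
  have e4 : Nat.card {y : YS p G // cvS red y z = c} = ∑ᶠ q : Quotient (pSubgroupSetoid p G),
      Nw p red (q.out.1.subgroupOf (Subgroup.normalizer (q.out.1 : Set G))) (fun x => z x) c := by
    have h := card_sig (fun q : Quotient (pSubgroupSetoid p G) => YW p q.out.1)
      (fun y => cvS red y z = c)
    refine Eq.trans h ?_
    refine finsum_congr fun q => ?_
    unfold Nw
    exact Nat.card_congr
      { toFun := fun χ => ⟨χ.1.1, χ.1.2, χ.2⟩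
        invFun := fun χ => ⟨⟨χ.1, χ.2.1⟩, χ.2.2⟩
        left_inv := fun χ => rfl
        right_inv := fun χ => rfl }
  rw [e9, e4, ← Nat.cast_mul, h6]
  exact congrArg _ (Finset.sum_congr rfl fun Q _ => by rw [hstab Q])

end top

/-! ### the wreath product -/

section wr

variable (p : ℕ) (G : Type) [Group G]

instance fin_wr [NeZero p] [Finite G] : Finite (Wr p G) :=
  Finite.of_equiv _ SemidirectProduct.equivProd.symm

theorem mem_base {x : Wr p G} : x ∈ Base p G ↔ x.right = 1 := by
  unfold Base
  rw [SemidirectProduct.range_inl_eq_ker_rightHom, MonoidHom.mem_ker]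
  rfl

instance base_normal : (Base p G).Normal := by
  unfold Base
  rw [SemidirectProduct.range_inl_eq_ker_rightHom]
  infer_instance

theorem card_quot : Nat.card (Wr p G ⧸ Base p G) = p := by
  unfold Base
  rw [SemidirectProduct.range_inl_eq_ker_rightHom,
    Nat.card_congr (QuotientGroup.quotientKerEquivOfSurjective
      (SemidirectProduct.rightHom : Wr p G →* Multiplicative (ZMod p))
      SemidirectProduct.rightHom_surjective).toEquiv, Nat.card_congr Multiplicative.toAdd,
    Nat.card_zmod]

theorem card_wr : Nat.card (Wr p G) = Nat.card G ^ p * p := by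
  rw [SemidirectProduct.card, Nat.card_congr Multiplicative.toAdd, Nat.card_zmod]
  by_cases hp : p = 0
  · subst hp
    simp
  · have : NeZero p := ⟨hp⟩
    rw [Nat.card_fun, Nat.card_zmod]

theorem wrF_inZ [NeZero p] {F : Type} [Field F] {e : G → F} (he : IsClassFun e) :
    InZ (Base p G) (wrF p e) where
  conj := by
    intro g x
    have hr : (g * x * g⁻¹).right = x.right := by
      simp only [SemidirectProduct.mul_right, SemidirectProduct.inv_right]
      rw [mul_comm g.right, mul_assoc, mul_inv_cancel, mul_one]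
    unfold wrF
    rw [hr]
    by_cases hx : x.right = 1
    · rw [if_pos hx, if_pos hx]
      have hl : ∀ i, (g * x * g⁻¹).left i =
          g.left i * x.left (i - g.right.toAdd) * (g.left i)⁻¹ := by
        intro i
        simp only [SemidirectProduct.mul_left, SemidirectProduct.inv_left,
          SemidirectProduct.mul_right, hx, mul_one, Pi.mul_apply]
        change g.left i * x.left (i - g.right.toAdd) *
          (g.left (i - g.right.toAdd - (-g.right.toAdd)))⁻¹ = _
        congr 3
        ring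
      have hl' : ∀ i, e ((g * x * g⁻¹).left i) = e (x.left (i - g.right.toAdd)) := fun i => by
        rw [hl]
        exact he _ _
      rw [Finset.prod_congr rfl fun i _ => hl' i]
      exact Fintype.prod_equiv (Equiv.subRight g.right.toAdd) _ _ fun i => rfl
    · rw [if_neg hx, if_neg hx]
  supp := by
    intro x hx
    rw [mem_base] at hx
    unfold wrF
    rw [if_neg hx]

end wr

/-! ### the induction -/

/-- `l(B)` for the idempotent of the block `B` -/
theorem idem_num {p : ℕ} [Fact p.Prime] {F : Type} [Field F] [IsAlgClosed F] [CharP F p]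
    (red : integralClosure ℤ ℂ →+* F) {G : Type} [Group G] [Finite G] {B : (G → F) → F}
    (hB : IsBlock B) : ∃ e : G → F, IsIdem e ∧
      numIrrBlock B = Lnum (⊤ : Subgroup G) ⊤ e 1 ∧
      numWts p red B = Nat.card {y : YS p G // cvS red y e = 1} := by
  obtain ⟨e, he, h1, h2⟩ := exists_idem hB
  refine ⟨e, he, ?_, ?_⟩
  · rw [lnum_top he.cl, numIrrBlock_eq]
    refine Nat.card_congr (Equiv.subtypeEquivRight fun φ => ⟨fun h => ?_, fun h => ?_⟩)
    · rw [h e he.cl, h1]
    · exact (h2 _ (blkOf_block φ) h).symm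
  · rw [numWts_eq]
    refine Nat.card_congr (Equiv.subtypeEquivRight fun y => ⟨fun h => ?_, fun h => ?_⟩)
    · rw [h e he.cl, h1]
    · exact (h2 _ (cvS_block red y) h).symm

/-- the arithmetic of the induction step -/
theorem arith {p : ℕ} (hp : p.Prime) {k : ℕ} (hk : 1 ≤ k) {l w L W : ℤ}
    (hL : (p : ℤ) * L = l ^ p + (p - 1) * l) (hW : (p : ℤ) * W = w ^ p + (p - 1) * w)
    (h1 : (p : ℤ) ^ k ∣ l - w) (h2 : (p : ℤ) ^ k ∣ L - W) : (p : ℤ) ^ (k + 1) ∣ l - w := by
  have h3 : (p : ℤ) ^ (k + 1) ∣ l ^ p - w ^ p := by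
    have e : l ^ p - w ^ p = (∑ i ∈ Finset.range p, l ^ i * w ^ (p - 1 - i)) * (l - w) :=
      (Commute.all l w).geom_sum₂_mul p |>.symm
    rw [e, pow_succ']
    refine mul_dvd_mul ?_ h1
    have hpl : (p : ℤ) ∣ l - w := dvd_trans (dvd_pow_self _ (by omega)) h1
    have : ∀ i ∈ Finset.range p, l ^ i * w ^ (p - 1 - i) ≡ w ^ (p - 1) [ZMOD p] := by
      intro i hi
      rw [Finset.mem_range] at hi
      have h4 : l ≡ w [ZMOD p] := (Int.modEq_iff_dvd.mpr hpl).symm
      have h5 : w ^ (p - 1) = w ^ i * w ^ (p - 1 - i) := by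
        rw [← pow_add]
        congr 1
        omega
      rw [h5]
      exact (h4.pow i).mul_right _
    have h6 : ∑ i ∈ Finset.range p, l ^ i * w ^ (p - 1 - i) ≡
        ∑ i ∈ Finset.range p, w ^ (p - 1) [ZMOD p] := by
      rw [← ZMod.intCast_eq_intCast_iff, Int.cast_sum, Int.cast_sum]
      refine Finset.sum_congr rfl fun i hi => ?_
      rw [ZMod.intCast_eq_intCast_iff]
      exact this i hi
    rw [Finset.sum_const, Finset.card_range, nsmul_eq_mul] at h6
    exact (Int.ModEq.dvd_iff h6).mpr (dvd_mul_right _ _)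
  have h4 : (p : ℤ) ^ (k + 1) ∣ (p : ℤ) * (L - W) := by
    rw [pow_succ']
    exact mul_dvd_mul_left _ h2
  have h5 : (p : ℤ) * (L - W) = (l ^ p - w ^ p) + (p - 1) * (l - w) := by
    rw [mul_sub, hL, hW]
    ring
  rw [h5] at h4
  have h6 : (p : ℤ) ^ (k + 1) ∣ ((p : ℤ) - 1) * (l - w) := (dvd_add_right h3).mp h4
  refine IsCoprime.dvd_of_dvd_mul_left ?_ h6
  refine IsCoprime.pow_left ?_
  exact ⟨1, -1, by ring⟩

/-- the induction step -/
theorem step (hLW : S_LW) (hWW : S_WW) {p : ℕ} [Fact p.Prime] {F : Type} [Field F]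
    [IsAlgClosed F] [CharP F p] (red : integralClosure ℤ ℂ →+* F) {k : ℕ} (hk : 1 ≤ k)
    (G : Type) [Group G] [Finite G]
    (h1 : ∀ B : (G → F) → F, IsBlock B → numIrrBlock B ≡ numWts p red B [MOD p ^ k])
    (h2 : ∀ B : (Wr p G → F) → F, IsBlock B → numIrrBlock B ≡ numWts p red B [MOD p ^ k])
    (B : (G → F) → F) (hB : IsBlock B) : numIrrBlock B ≡ numWts p red B [MOD p ^ (k + 1)] := by
  have hp : p.Prime := Fact.out
  obtain ⟨e, he, e1, e2⟩ := idem_num red hB
  have h3 := h1 B hB
  set l : ℕ := numIrrBlock B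
  set w : ℕ := numWts p red B
  have hz := wrF_inZ p G he.cl
  have hzc : IsClassFun (wrF p e) := hz.conj
  have g0 : (Nat.card G : ℤ) ≠ 0 := by exact_mod_cast (Nat.card_pos (α := G)).ne'
  have gp0 : (Nat.card G : ℤ) ^ p ≠ 0 := pow_ne_zero _ g0
  have p0 : (p : ℤ) ≠ 0 := by exact_mod_cast hp.ne_zero
  -- irreducible traces of the wreath product
  have a1 := pell' p F (Wr p G) (Base p G) (wrF p e) 1 (card_quot p G) hz
  obtain ⟨a2, a3⟩ := hLW p F G e he
  rw [a2, a3, lsum_top, card_wr, ← e1, lnum_top hzc] at a1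
  set L : ℕ := Nat.card {φ : {φ : Wr p G → F // IsIrrTrace φ} // blkOf φ (wrF p e) = 1}
  have hL : (p : ℤ) * L = (l : ℤ) ^ p + (p - 1) * l := by
    refine mul_left_cancel₀ (mul_ne_zero p0 gp0) ?_
    push_cast at a1
    linear_combination a1
  -- weights of the wreath product
  have b1 := pewL' p F red (Wr p G) (Base p G) (wrF p e) 1 (card_quot p G) hz
  have b0 : Wsum p red (⊤ : Subgroup G) ⊤ e 1 = (Nat.card G : ℤ) * w := by
    rw [wsum_top red he.cl, e2]
  obtain ⟨b2, b3⟩ := hWW p F red G e w he b0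
  rw [b2, b3, wsum_top red hzc, card_wr] at b1
  set W : ℕ := Nat.card {y : YS p (Wr p G) // cvS red y (wrF p e) = 1}
  have hW : (p : ℤ) * W = (w : ℤ) ^ p + (p - 1) * w := by
    refine mul_left_cancel₀ (mul_ne_zero p0 gp0) ?_
    push_cast at b1
    linear_combination b1
  -- the congruence
  have c1 : L ≡ W [MOD p ^ k] :=
    cnt_mod (fun φ : {φ : Wr p G → F // IsIrrTrace φ} => blkOf φ)
      (fun y : YS p (Wr p G) => cvS red y) blkOf_block (cvS_block red) (p ^ k)
      (fun B' hB' => by
        rw [← numIrrBlock_eq, ← numWts_eq]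
        exact h2 B' hB') hzc 1
  have d1 : ((p : ℤ) ^ k) ∣ (l : ℤ) - w := by
    have := (Nat.modEq_iff_dvd.mp h3.symm)
    push_cast at this
    exact this
  have d2 : ((p : ℤ) ^ k) ∣ (L : ℤ) - W := by
    have := (Nat.modEq_iff_dvd.mp c1.symm)
    push_cast at this
    exact this
  have d3 := arith hp hk hL hW d1 d2
  refine (Nat.modEq_iff_dvd.mpr ?_).symm
  push_cast
  exact d3

/-- **Congruences modulo `p` imply the conjecture.** -/
theorem bawc_of_modp (hLW : S_LW) (hWW : S_WW) {p : ℕ} [Fact p.Prime] {F : Type} [Field F]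
    [IsAlgClosed F] [CharP F p] (red : integralClosure ℤ ℂ →+* F)
    (X : ∀ (H : Type) [Group H], Prop)
    (hX : ∀ (H : Type) [Group H] [Finite H], X H → X (Wr p H))
    (h : ∀ (H : Type) [Group H] [Finite H], X H → ∀ B : (H → F) → F, IsBlock B →
      numIrrBlock B ≡ numWts p red B [MOD p])
    (G : Type) [Group G] [Finite G] (hG : X G) : BAWC p red G := by
  have hp : p.Prime := Fact.out
  have key : ∀ k : ℕ, 1 ≤ k → ∀ (H : Type) [Group H] [Finite H], X H →
      ∀ B : (H → F) → F, IsBlock B → numIrrBlock B ≡ numWts p red B [MOD p ^ k] := by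
    intro k hk
    induction k, hk using Nat.le_induction with
    | base =>
      intro H _ _ hH B hB
      rw [pow_one]
      exact h H hH B hB
    | succ k hk ih =>
      intro H _ _ hH B hB
      exact step hLW hWW red hk H (ih H hH) (ih (Wr p H) (hX H hH)) B hB
  intro B hB
  change numIrrBlock B = numWts p red B
  have h1 := key (max 1 (max (numIrrBlock B) (numWts p red B))) (le_max_left _ _) G hG B hB
  have h2 : ∀ n : ℕ, n ≤ max 1 (max (numIrrBlock B) (numWts p red B)) →
      n < p ^ (max 1 (max (numIrrBlock B) (numWts p red B))) := fun n hn =>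
    lt_of_le_of_lt hn (Nat.lt_pow_self hp.one_lt)
  exact Nat.ModEq.eq_of_lt_of_lt h1
    (h2 _ (le_trans (le_max_left _ _) (le_max_right _ _)))
    (h2 _ (le_trans (le_max_right _ _) (le_max_right _ _)))

end Pool.Agent.N85.WM
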