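import Pool.Agent.N85.WM.Stm

/-!
# Weights of direct powers
-/

set_option autoImplicit false
set_option linter.unusedSectionVars false

open scoped Classical

noncomputable section

namespace Pool.Agent.N85.WM.Wpi

open Pool.Agent.Y63.NV Pool.Agent.N85.WM
open Pool.Agent.Y63.AWC (IsIrreducibleCharacter)
open Pool.Agent.N19.RB (tens piS mem_piS card_piS isPGroup_piS tens_irr tens_inj exists_tens
  isConj_pi omega_tens tens_one fac_prod)
open Pool.Agent.H254R3.IN (IsIrr omega)

/-! ### one group -/

section one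

variable {K : Type} [Group K]

theorem toIrr {χ : K → ℂ} (h : IsIrreducibleCharacter χ) : IsIrr χ := h

theorem ofIrr {χ : K → ℂ} (h : IsIrr χ) : IsIrreducibleCharacter χ := h

/-- the degree of an inflated character -/
theorem deg_le [Finite K] (p : ℕ) (Q : Subgroup K) [Q.Normal] {χ : K → ℂ}
    (h : IsIrreducibleCharacter χ) (hinf : ∀ q ∈ Q, ∀ x, χ (q * x) = χ x) {n : ℕ}
    (hn : χ 1 = n) :
    n.factorization p + (Nat.card Q).factorization p ≤ (Nat.card K).factorization p := by
  obtain ⟨χ', h1, h2⟩ := deflate Q h hinf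
  have : Fintype (K ⧸ Q) := Fintype.ofFinite _
  have hn' : χ' 1 = (n : ℂ) := by
    rw [← hn, h2 1]
    rfl
  have hd : n ∣ Nat.card (K ⧸ Q) := Pool.Agent.Y63.AWC.deg_dvd h1 hn'
  have hcard := Subgroup.card_eq_card_quotient_mul_card_subgroup Q
  have h0 : Nat.card (K ⧸ Q) ≠ 0 := Nat.card_pos.ne'
  have h0' : Nat.card Q ≠ 0 := Nat.card_pos.ne'
  have hn0 : n ≠ 0 := by
    rintro rfl
    exact h0 (Nat.eq_zero_of_zero_dvd hd)
  rw [hcard, Nat.factorization_mul h0 h0', Finsupp.add_apply]
  exact Nat.add_le_add_right ((Nat.factorization_le_iff_dvd hn0 h0).mpr hd p) _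

theorem omega_out {χ : K → ℂ} (C : ConjClasses K) :
    (Nat.card C.carrier : ℂ) * χ C.out / χ 1 = omega χ C.out := by
  unfold omega
  have h1 : Nat.card C.carrier = Nat.card {y : K // IsConj C.out y} := by
    refine Nat.card_congr (Equiv.subtypeEquivRight fun y => ?_)
    rw [ConjClasses.mem_carrier_iff_mk_eq, isConj_comm, ← ConjClasses.mk_eq_mk_iff_isConj]
    have h2 : ConjClasses.mk C.out = C := Quotient.out_eq _
    rw [h2]
  rw [h1]

theorem omega_conj {χ : K → ℂ} (hχ : ∀ g x : K, χ (g * x * g⁻¹) = χ x) {x y : K}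
    (h : IsConj x y) : omega χ x = omega χ y := by
  have h1 : Nat.card {z : K // IsConj x z} = Nat.card {z : K // IsConj y z} :=
    Nat.card_congr (Equiv.subtypeEquivRight fun z =>
      ⟨fun hz => h.symm.trans hz, fun hz => h.trans hz⟩)
  unfold omega
  rw [h1, Pool.Agent.Y624.NV.class_isConj hχ h]

theorem omega_int [Finite K] {χ : K → ℂ} (h : IsIrreducibleCharacter χ) (x : K) :
    IsIntegral ℤ (omega χ x) := by
  have : Fintype K := Fintype.ofFinite K
  have h1 := Pool.Agent.Y930.NV.om_int h (Pool.Agent.Y930.NV.Cf_ind ℤ (ConjClasses.mk x))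
  rw [Pool.Agent.Y930.NV.ind_cast, Pool.Agent.Y930.NV.om_ind χ (Pool.Agent.Y930.NV.irr_Cf h),
    omega_out] at h1
  have h2 : IsConj (ConjClasses.mk x).out x :=
    ConjClasses.mk_eq_mk_iff_isConj.mp (Quotient.out_eq _)
  rwa [omega_conj (Pool.Agent.Y624.NV.irr_class h) h2] at h1

end one

/-! ### families of groups -/

section fam

variable {ι : Type} [Fintype ι] {K : ι → Type} [∀ i, Group (K i)] [∀ i, Fintype (K i)]

theorem tens_single (θ : ∀ i, K i → ℂ) (i : ι) (x : K i) :
    tens θ (Pi.mulSingle i x) = θ i x * ∏ j ∈ Finset.univ.erase i, θ j 1 := by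
  unfold tens
  rw [← Finset.mul_prod_erase Finset.univ _ (Finset.mem_univ i), Pi.mulSingle_eq_same]
  congr 1
  refine Finset.prod_congr rfl fun j hj => ?_
  rw [Pi.mulSingle_eq_of_ne (Finset.ne_of_mem_erase hj)]

theorem infl_iff {θ : ∀ i, K i → ℂ} (h : ∀ i, IsIrreducibleCharacter (θ i))
    (Q : ∀ i, Subgroup (K i)) :
    (∀ q ∈ piS Q, ∀ x, tens θ (q * x) = tens θ x) ↔
      ∀ i, ∀ q ∈ Q i, ∀ x, θ i (q * x) = θ i x := by
  constructor
  · intro H i q hq x
    have h1 := H (Pi.mulSingle i q) (mem_piS.mpr fun j => by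
      by_cases hj : j = i
      · subst hj
        rw [Pi.mulSingle_eq_same]
        exact hq
      · rw [Pi.mulSingle_eq_of_ne hj]
        exact one_mem _) (Pi.mulSingle i x)
    rw [← Pi.mulSingle_mul, tens_single, tens_single] at h1
    refine mul_right_cancel₀ ?_ h1
    exact Finset.prod_ne_zero_iff.mpr fun j _ => (toIrr (h j)).one_ne
  · intro H q hq x
    unfold tens
    exact Finset.prod_congr rfl fun i _ => H i _ (mem_piS.mp hq i) _

theorem isWt_tens {p : ℕ} [hp : Fact p.Prime] {θ : ∀ i, K i → ℂ}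
    (h : ∀ i, IsIrreducibleCharacter (θ i)) (Q : ∀ i, Subgroup (K i)) (hN : ∀ i, (Q i).Normal) :
    IsWt p (piS Q) (tens θ) ↔ ∀ i, IsWt p (Q i) (θ i) := by
  choose n n0 hn using fun i => (toIrr (h i)).deg
  have e1 : tens θ 1 = ((∏ i, n i : ℕ) : ℂ) := by
    rw [tens_one]
    push_cast
    exact Finset.prod_congr rfl fun i _ => (hn i).symm
  have e2 : (∏ i, n i).factorization p = ∑ i, (n i).factorization p :=
    fac_prod fun i => (n0 i).ne'
  have e3 : (Nat.card (piS Q)).factorization p = ∑ i, (Nat.card (Q i)).factorization p := by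
    rw [card_piS]
    exact fac_prod fun i => Nat.card_pos.ne'
  have e4 : (Nat.card (∀ i, K i)).factorization p = ∑ i, (Nat.card (K i)).factorization p := by
    rw [Nat.card_pi]
    exact fac_prod fun i => Nat.card_pos.ne'
  constructor
  · intro H
    have hinf := (infl_iff h Q).mp H.inflated
    obtain ⟨m, hm, hf⟩ := H.defectZero
    have hmn : m = ∏ i, n i := by
      rw [e1] at hm
      exact_mod_cast hm.symm
    subst hmn
    rw [e2, e3, e4, ← Finset.sum_add_distrib] at hf
    have hle : ∀ i ∈ Finset.univ, (n i).factorization p + (Nat.card (Q i)).factorization p ≤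
        (Nat.card (K i)).factorization p := fun i _ => deg_le p (Q i) (h i) (hinf i) (hn i).symm
    have heq := (Finset.sum_eq_sum_iff_of_le hle).mp hf
    exact fun i => ⟨h i, hinf i, n i, (hn i).symm, heq i (Finset.mem_univ i)⟩
  · intro H
    refine ⟨ofIrr (tens_irr h), (infl_iff h Q).mpr fun i => (H i).inflated, ∏ i, n i, e1, ?_⟩
    rw [e2, e3, e4, ← Finset.sum_add_distrib]
    refine Finset.sum_congr rfl fun i _ => ?_
    obtain ⟨m, hm, hf⟩ := (H i).defectZero
    have hmn : m = n i := by
      have h1 : (m : ℂ) = n i := by rw [← hm, hn i]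
      exact_mod_cast h1
    rwa [hmn] at hf

/-- the conjugacy classes of a product -/
def ccE : ConjClasses (∀ i, K i) ≃ ∀ i, ConjClasses (K i) where
  toFun C i := ConjClasses.map (Pi.evalMonoidHom K i) C
  invFun D := ConjClasses.mk fun i => (D i).out
  left_inv C := by
    obtain ⟨x, rfl⟩ := ConjClasses.exists_rep C
    rw [ConjClasses.mk_eq_mk_iff_isConj, isConj_pi]
    intro i
    exact ConjClasses.mk_eq_mk_iff_isConj.mp (Quotient.out_eq _)
  right_inv D := by
    funext i
    exact Quotient.out_eq (D i)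

theorem redC_prod {F : Type} [Field F] (red : integralClosure ℤ ℂ →+* F) {a : ι → ℂ}
    (ha : ∀ i, IsIntegral ℤ (a i)) : redC red (∏ i, a i) = ∏ i, redC red (a i) := by
  have : ∀ s : Finset ι, redC red (∏ i ∈ s, a i) = ∏ i ∈ s, redC red (a i) := by
    intro s
    induction s using Finset.induction_on with
    | empty => rw [Finset.prod_empty, Finset.prod_empty, Pool.Agent.Y930.NV.redC_one]
    | insert i s hi ih =>
      rw [Finset.prod_insert hi, Finset.prod_insert hi,
        Pool.Agent.Y930.NV.redC_mul red (ha i) (IsIntegral.prod _ fun j _ => ha j), ih]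
  exact this _

theorem cv_tens {F : Type} [Field F] (red : integralClosure ℤ ℂ →+* F) {θ : ∀ i, K i → ℂ}
    (h : ∀ i, IsIrreducibleCharacter (θ i)) (f : ∀ i, K i → F) (hf : ∀ i, IsClassFun (f i)) :
    centralValue red (tens θ) (fun x => ∏ i, f i (x i)) = ∏ i, centralValue red (θ i) (f i) := by
  have hfin : ∀ i, centralValue red (θ i) (f i) =
      ∑ D : ConjClasses (K i), f i D.out * redC red (omega (θ i) D.out) := by
    intro i
    unfold centralValue
    rw [finsum_eq_sum_of_fintype]
    exact Finset.sum_congr rfl fun D _ => by rw [omega_out]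
  rw [Finset.prod_congr rfl fun i _ => hfin i, Finset.prod_univ_sum, Fintype.piFinset_univ]
  unfold centralValue
  rw [finsum_eq_sum_of_fintype]
  refine Fintype.sum_equiv ccE _ _ fun C => ?_
  have hirr : IsIrreducibleCharacter (tens θ) := ofIrr (tens_irr h)
  rw [omega_out]
  have hc : IsConj C.out (fun i => (ccE C i).out) := by
    rw [← ConjClasses.mk_eq_mk_iff_isConj]
    have h1 : ConjClasses.mk C.out = C := Quotient.out_eq _
    rw [h1]
    exact (ccE.left_inv C).symm
  have h2 : ∀ i, f i (C.out i) = f i (ccE C i).out := fun i =>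
    Pool.Agent.Y624.NV.class_isConj (hf i) (isConj_pi.mp hc i)
  rw [omega_conj (Pool.Agent.Y624.NV.irr_class hirr) hc, omega_tens h,
    redC_prod red fun i => omega_int (h i) _, ← Finset.prod_mul_distrib]
  exact Finset.prod_congr rfl fun i _ => by rw [h2 i]

end fam

/-! ### normalizers of products -/

section norm

variable {ι G : Type} [Group G]

theorem mem_piSub {R : ι → Subgroup G} {x : ι → G} : x ∈ piSub R ↔ ∀ i, x i ∈ R i := by
  unfold piSub
  rw [Subgroup.mem_pi]
  exact ⟨fun h i => h i (Set.mem_univ i), fun h i _ => h i⟩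

theorem single_mem {R : ι → Subgroup G} {i : ι} {x : G} :
    (Pi.mulSingle i x : ι → G) ∈ piSub R ↔ x ∈ R i := by
  rw [mem_piSub]
  constructor
  · intro h
    have := h i
    rwa [Pi.mulSingle_eq_same] at this
  · intro h j
    by_cases hj : j = i
    · subst hj
      rwa [Pi.mulSingle_eq_same]
    · rw [Pi.mulSingle_eq_of_ne hj]
      exact one_mem _

theorem mem_norm {R : ι → Subgroup G} {x : ι → G} :
    x ∈ Subgroup.normalizer (piSub R : Set (ι → G)) ↔
      ∀ i, x i ∈ Subgroup.normalizer (R i : Set G) := by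
  constructor
  · intro h i
    rw [Subgroup.mem_normalizer_iff] at h ⊢
    intro y
    have h1 := h (Pi.mulSingle i y)
    have h2 : x * Pi.mulSingle i y * x⁻¹ = Pi.mulSingle i (x i * y * (x i)⁻¹) := by
      funext j
      by_cases hj : j = i
      · subst hj
        simp
      · simp [Pi.mulSingle_eq_of_ne hj]
    rw [h2] at h1
    exact ⟨fun hy => single_mem.mp (h1.mp (single_mem.mpr hy)),
      fun hy => single_mem.mp (h1.mpr (single_mem.mpr hy))⟩
  · intro h
    rw [Subgroup.mem_normalizer_iff]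
    intro y
    show y ∈ piSub R ↔ x * y * x⁻¹ ∈ piSub R
    rw [mem_piSub, mem_piSub]
    exact forall_congr' fun i => Subgroup.mem_normalizer_iff.mp (h i) (y i)

/-- the normalizer of a product is the product of the normalizers -/
def ne (R : ι → Subgroup G) : Subgroup.normalizer (piSub R : Set (ι → G)) ≃*
    ∀ i, Subgroup.normalizer (R i : Set G) where
  toFun x i := ⟨x.1 i, mem_norm.mp x.2 i⟩
  invFun y := ⟨fun i => (y i : G), mem_norm.mpr fun i => (y i).2⟩
  left_inv _ := rfl
  right_inv _ := rfl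
  map_mul' _ _ := rfl

end norm

section wts

variable {ι : Type} [Fintype ι] {G : Type} [Group G] [Finite G] {p : ℕ} [hp : Fact p.Prime]

instance (R : Subgroup G) : Fintype (Subgroup.normalizer (R : Set G)) := Fintype.ofFinite _

theorem normal_sub (R : Subgroup G) :
    (R.subgroupOf (Subgroup.normalizer (R : Set G))).Normal := Subgroup.normal_in_normalizer

/-- the restriction of `ψ` to the normalizer -/
def rs (R : Subgroup G) {X : Type} (ψ : G → X) (x : Subgroup.normalizer (R : Set G)) : X := ψ x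

theorem rs_tensF (R : ι → Subgroup G) (ψ : ι → G → ℂ) :
    (fun x : Subgroup.normalizer (piSub R : Set (ι → G)) => tensF ψ x) =
      fun x => tens (fun i => rs (R i) (ψ i)) (ne R x) := rfl

theorem wt_piSub (R : ι → Subgroup G) (ψ : ι → G → ℂ)
    (h : ∀ i, IsIrreducibleCharacter (rs (R i) (ψ i))) :
    IsWt p ((piSub R).subgroupOf (Subgroup.normalizer (piSub R : Set (ι → G))))
      (fun x : Subgroup.normalizer (piSub R : Set (ι → G)) => tensF ψ x) ↔
    ∀ i, IsWt p ((R i).subgroupOf (Subgroup.normalizer (R i : Set G))) (rs (R i) (ψ i)) := by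
  rw [← isWt_tens h (fun i => (R i).subgroupOf (Subgroup.normalizer (R i : Set G)))
    fun i => normal_sub (R i), rs_tensF]
  refine Pool.Agent.Y624.NV.isWt_iff (ne R) fun x => ?_
  rw [mem_piS, Subgroup.mem_subgroupOf, mem_piSub]
  rfl

theorem tensF_supp (R : ι → Subgroup G) (ψ : ι → G → ℂ)
    (h : ∀ i, ∀ x, x ∉ Subgroup.normalizer (R i : Set G) → ψ i x = 0) (x : ι → G)
    (hx : x ∉ Subgroup.normalizer (piSub R : Set (ι → G))) : tensF ψ x = 0 := by
  rw [mem_norm] at hx
  push Not at hx
  obtain ⟨i, hi⟩ := hx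
  exact Finset.prod_eq_zero (Finset.mem_univ i) (h i _ hi)

/-- the product of weights is a weight -/
theorem isW_of (R : ι → Subgroup G) (ψ : ι → G → ℂ) (h : ∀ i, IsW p (R i) (ψ i)) :
    IsW p (piSub R) (tensF ψ) := by
  refine ⟨?_, tensF_supp R ψ fun i => (h i).supp, ?_⟩
  · have : Fintype G := Fintype.ofFinite G
    exact isPGroup_piS (K := fun _ : ι => G) fun i => (h i).pg
  · exact (wt_piSub R ψ fun i => (h i).wt.irr).mpr fun i => (h i).wt

/-- a `p`-subgroup which has a weight is the product of its projections -/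
theorem eq_piSub (Q : Subgroup (ι → G)) (χ : (ι → G) → ℂ) (h : IsW p Q χ) :
    Q = piSub fun i => Q.map (Pi.evalMonoidHom (fun _ : ι => G) i) := by
  set R : ι → Subgroup G := fun i => Q.map (Pi.evalMonoidHom (fun _ : ι => G) i) with hR
  have hle : Q ≤ piSub R := by
    intro x hx
    rw [mem_piSub]
    exact fun i => Subgroup.mem_map_of_mem _ hx
  have hPg : IsPGroup p ↥(piSub R) := by
    have : Fintype G := Fintype.ofFinite G
    exact isPGroup_piS (K := fun _ : ι => G) fun i => h.pg.map _
  have hNN : Subgroup.normalizer (Q : Set (ι → G)) ≤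
      Subgroup.normalizer (piSub R : Set (ι → G)) := by
    intro x hx
    rw [mem_norm]
    intro i
    rw [Subgroup.mem_normalizer_iff] at hx ⊢
    intro y
    show y ∈ R i ↔ x i * y * (x i)⁻¹ ∈ R i
    constructor
    · rintro ⟨q, hq, rfl⟩
      exact ⟨x * q * x⁻¹, (hx q).mp hq, rfl⟩
    · rintro ⟨q, hq, hqy⟩
      refine ⟨x⁻¹ * q * x, ?_, ?_⟩
      · refine (hx _).mpr ?_
        have : x * (x⁻¹ * q * x) * x⁻¹ = q := by group
        rw [this]
        exact hq
      · have h1 : q i = x i * y * (x i)⁻¹ := hqy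
        show (x i)⁻¹ * q i * x i = y
        rw [h1]
        group
  by_contra hne
  have hlt : Q < piSub R := lt_of_le_of_ne hle hne
  have hnil : Group.IsNilpotent ↥(piSub R) := hPg.isNilpotent
  have hlt2 : Q.subgroupOf (piSub R) < ⊤ := by
    rw [lt_top_iff_ne_top, Ne, Subgroup.subgroupOf_eq_top]
    exact not_le_of_gt hlt
  obtain ⟨x, hx1, hx2⟩ := SetLike.exists_of_lt
    (Group.normalizerCondition_of_isNilpotent (Q.subgroupOf (piSub R)) hlt2)
  rw [Subgroup.mem_normalizer_iff] at hx1
  have hxN : (x : ι → G) ∈ Subgroup.normalizer (Q : Set (ι → G)) := by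
    rw [Subgroup.mem_normalizer_iff]
    intro y
    constructor
    · intro hy
      exact (hx1 ⟨y, hle hy⟩).1 hy
    · intro hy
      have h3 : y ∈ piSub R := by
        have h4 : y = (x : ι → G)⁻¹ * ((x : ι → G) * y * (x : ι → G)⁻¹) * (x : ι → G) := by group
        rw [h4]
        exact mul_mem (mul_mem (inv_mem x.2) (hle hy)) x.2
      exact (hx1 ⟨y, h3⟩).2 hy
  refine wtn p (Subgroup.normalizer (Q : Set (ι → G)))
    (Q.subgroupOf (Subgroup.normalizer (Q : Set (ι → G))))
    ((piSub R).subgroupOf (Subgroup.normalizer (Q : Set (ι → G)))) _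
    Subgroup.normal_in_normalizer ⟨?_⟩ ?_ ?_ h.wt
  · intro n hn g
    exact (Subgroup.mem_normalizer_iff.mp (hNN g.2) n).mp hn
  · exact hPg.comap_of_injective (Subgroup.normalizer (Q : Set (ι → G))).subtype
      Subtype.val_injective
  · rw [SetLike.lt_iff_le_and_exists]
    exact ⟨fun y hy => hle hy, ⟨x, hxN⟩, x.2, hx2⟩

/-- every weight of a direct power is a product of weights -/
theorem of_isW (Q : Subgroup (ι → G)) (χ : (ι → G) → ℂ) (h : IsW p Q χ) :
    ∃ (R : ι → Subgroup G) (ψ : ι → G → ℂ), (∀ i, IsW p (R i) (ψ i)) ∧ Q = piSub R ∧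
      χ = tensF ψ := by
  have hQ := eq_piSub Q χ h
  set R : ι → Subgroup G := fun i => Q.map (Pi.evalMonoidHom (fun _ : ι => G) i) with hR
  have hpg : ∀ i, IsPGroup p (R i) := fun i => h.pg.map _
  clear_value R
  subst hQ
  have h1 : IsIrreducibleCharacter
      (fun y : ∀ i, Subgroup.normalizer (R i : Set G) => χ ((ne R).symm y)) :=
    Pool.Agent.Y624.NV.irr_comp (ne R).symm h.wt.irr
  obtain ⟨θ, hθ, hθ'⟩ := exists_tens (toIrr h1)
  refine ⟨R, fun i x => if hx : x ∈ Subgroup.normalizer (R i : Set G) then θ i ⟨x, hx⟩ else 0,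
    ?_, rfl, ?_⟩
  · have hrs : ∀ i, rs (R i) (fun x => if hx : x ∈ Subgroup.normalizer (R i : Set G) then
        θ i ⟨x, hx⟩ else 0) = θ i := by
      intro i
      funext x
      exact dif_pos x.2
    have hirr : ∀ i, IsIrreducibleCharacter (rs (R i)
        (fun x => if hx : x ∈ Subgroup.normalizer (R i : Set G) then θ i ⟨x, hx⟩ else 0)) := by
      intro i
      rw [hrs]
      exact hθ i
    have h2 := (wt_piSub (p := p) R (fun i x =>
      if hx : x ∈ Subgroup.normalizer (R i : Set G) then θ i ⟨x, hx⟩ else 0) hirr).mp ?_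
    · exact fun i => ⟨hpg i, fun x hx => dif_neg hx, h2 i⟩
    · have h3 : (fun x : Subgroup.normalizer (piSub R : Set (ι → G)) => tensF (fun i x =>
          if hx : x ∈ Subgroup.normalizer (R i : Set G) then θ i ⟨x, hx⟩ else 0) (x : ι → G)) =
          fun x : Subgroup.normalizer (piSub R : Set (ι → G)) => χ x := by
        rw [rs_tensF]
        funext x
        have h4 := congrFun hθ' (ne R x)
        simp only [MulEquiv.symm_apply_apply] at h4
        rw [h4]
        unfold tens
        exact Finset.prod_congr rfl fun i _ => congrFun (hrs i) _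
      rw [h3]
      exact h.wt
  · funext x
    by_cases hx : x ∈ Subgroup.normalizer (piSub R : Set (ι → G))
    · have h4 := congrFun hθ' (ne R ⟨x, hx⟩)
      simp only [MulEquiv.symm_apply_apply] at h4
      rw [h4]
      unfold tens tensF
      refine Finset.prod_congr rfl fun i _ => ?_
      show θ i ((ne R) ⟨x, hx⟩ i) =
        if hx : x i ∈ Subgroup.normalizer (R i : Set G) then θ i ⟨x i, hx⟩ else 0
      rw [dif_pos (mem_norm.mp hx i)]
      rfl
    · rw [h.supp x hx]
      rw [mem_norm] at hx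
      push Not at hx
      obtain ⟨i, hi⟩ := hx
      exact (Finset.prod_eq_zero (Finset.mem_univ i) (dif_neg hi)).symm

theorem inj_isW (R R' : ι → Subgroup G) (ψ ψ' : ι → G → ℂ) (h : ∀ i, IsW p (R i) (ψ i))
    (h' : ∀ i, IsW p (R' i) (ψ' i)) (hR : piSub R = piSub R') (hψ : tensF ψ = tensF ψ') :
    R = R' ∧ ψ = ψ' := by
  have hRR : R = R' := by
    funext i
    ext x
    rw [← single_mem (R := R), hR, single_mem]
  subst hRR
  refine ⟨rfl, ?_⟩
  have h1 : (tens fun i => rs (R i) (ψ i)) = tens fun i => rs (R i) (ψ' i) := by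
    funext y
    have := congrFun hψ ((ne R).symm y)
    exact this
  have h2 := tens_inj (fun i => toIrr (h i).wt.irr) (fun i => toIrr (h' i).wt.irr) h1
  funext i x
  by_cases hx : x ∈ Subgroup.normalizer (R i : Set G)
  · exact congrFun (congrFun h2 i) ⟨x, hx⟩
  · rw [(h i).supp x hx, (h' i).supp x hx]

end wts

/-- WPI: the weights of a direct power -/
theorem main : S_WPI := by
  intro p _ ι _ G _ _
  refine ⟨fun Q χ => ⟨of_isW Q χ, ?_⟩, inj_isW⟩
  rintro ⟨R, ψ, h, rfl, rfl⟩
  exact isW_of R ψ h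

/-- WPC: the central characters of the weights of a direct power -/
theorem wpc : S_WPC := by
  intro p _ F _ red ι _ G _ _ R ψ f h hf
  have hcl : ∀ i, IsClassFun (rs (R i) (f i)) := fun i g x => hf i g x
  have h1 := cv_tens red (fun i => (h i).wt.irr) (fun i => rs (R i) (f i)) hcl
  have hirr : IsIrreducibleCharacter (tens fun i => rs (R i) (ψ i)) :=
    ofIrr (tens_irr fun i => toIrr (h i).wt.irr)
  have hclf : IsClassFun (fun x : ∀ i, Subgroup.normalizer (R i : Set G) =>
      ∏ i, rs (R i) (f i) (x i)) := by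
    intro g x
    exact Finset.prod_congr rfl fun i _ => hcl i (g i) (x i)
  have h2 := Pool.Agent.Y624.NV.centralValue_comp red (ne R) hirr hclf
  exact h2.trans h1

end Pool.Agent.N85.WM.Wpi
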