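import Pool.Agent.N85.WM.Sep

/-!
# The conjecture modulo `p` for a fixed group
-/

set_option autoImplicit false

open scoped Classical BigOperators

noncomputable section

namespace Pool.Agent.N85.WM

open Pool.Agent.Y63.NV
open Pool.Agent.Y63.NV.B48B (CF rs)
open Pool.Agent.Y63.AWC (IsIrreducibleCharacter pSubgroupSetoid)

section gen

variable {F : Type} [Field F] {G : Type} [Group G] [Finite G]

/-- summation of the values of a map -/
theorem sum_fib {X : Type} [Finite X] (r : X → F) :
    ∑ᶠ c : F, c * (Nat.card {x // r x = c} : F) = ∑ᶠ x, r x := by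
  have : Fintype X := Fintype.ofFinite X
  rw [finsum_eq_sum_of_support_subset (s := Finset.univ.image r), finsum_eq_sum_of_fintype,
    ← Finset.sum_fiberwise_of_maps_to (s := Finset.univ) (t := Finset.univ.image r) (g := r)
      (fun x _ => Finset.mem_image_of_mem _ (Finset.mem_univ x))]
  · refine Finset.sum_congr rfl fun c _ => ?_
    rw [Finset.sum_congr rfl (g := fun _ => c) fun x hx => (Finset.mem_filter.mp hx).2,
      Finset.sum_const, nsmul_eq_mul, mul_comm, Nat.card_eq_fintype_card, Fintype.card_subtype]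
  · intro c hc
    rw [Function.mem_support] at hc
    have h1 : Nat.card {x // r x = c} ≠ 0 := by
      intro h
      apply hc
      rw [h, Nat.cast_zero, mul_zero]
    have h2 : Nonempty {x // r x = c} := by
      by_contra hne
      rw [not_nonempty_iff] at hne
      exact h1 Nat.card_of_isEmpty
    obtain ⟨x, hx⟩ := h2
    rw [Finset.coe_image]
    exact ⟨x, by simp, hx⟩

/-- counting in blocks and central characters -/
theorem ind_iff {X Y : Type} [Finite X] [Finite Y] (a : X → (G → F) → F) (b : Y → (G → F) → F)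
    (ha : ∀ x, IsBlock (a x)) (hb : ∀ y, IsBlock (b y)) :
    (∀ B : (G → F) → F, IsBlock B →
      (Nat.card {x // BEq (a x) B} : F) = (Nat.card {y // BEq (b y) B} : F)) ↔
    ∀ z : G → F, IsClassFun z → ∑ᶠ x, a x z = ∑ᶠ y, b y z := by
  have : Fintype X := Fintype.ofFinite X
  have : Fintype Y := Fintype.ofFinite Y
  constructor
  · intro h z hz
    let rX : X → (CF G F → F) := fun x => rs (a x)
    let rY : Y → (CF G F → F) := fun y => rs (b y)
    let S : Finset (CF G F → F) := Finset.univ.image rX ∪ Finset.univ.image rY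
    have hS : ∀ β ∈ S, ∃ B : (G → F) → F, IsBlock B ∧ rs B = β := by
      intro β hβ
      rcases Finset.mem_union.1 hβ with h | h
      · obtain ⟨x, -, rfl⟩ := Finset.mem_image.1 h
        exact ⟨a x, ha x, rfl⟩
      · obtain ⟨y, -, rfl⟩ := Finset.mem_image.1 h
        exact ⟨b y, hb y, rfl⟩
    have key : ∀ {W : Type} [Fintype W] (d : W → (G → F) → F),
        (∀ w, rs (d w) ∈ S) → ∑ w, d w z =
          ∑ β ∈ S, (Nat.card {w // rs (d w) = β} : F) * β ⟨z, hz⟩ := by
      intro W _ d hd
      rw [← Finset.sum_fiberwise_of_maps_to (s := Finset.univ) (t := S)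
        (g := fun w => (rs (d w) : CF G F → F)) (fun w _ => hd w)]
      refine Finset.sum_congr rfl fun β _ => ?_
      rw [Finset.sum_congr rfl (g := fun _ => β ⟨z, hz⟩) fun w hw => ?_,
        Finset.sum_const, nsmul_eq_mul, Nat.card_eq_fintype_card, Fintype.card_subtype]
      exact congrFun (Finset.mem_filter.mp hw).2 ⟨z, hz⟩
    rw [finsum_eq_sum_of_fintype, finsum_eq_sum_of_fintype,
      key a fun x => Finset.mem_union_left _ (Finset.mem_image_of_mem _ (Finset.mem_univ x)),
      key b fun y => Finset.mem_union_right _ (Finset.mem_image_of_mem _ (Finset.mem_univ y))]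
    refine Finset.sum_congr rfl fun β hβ => ?_
    obtain ⟨B, hB, rfl⟩ := hS β hβ
    have e : ∀ {W : Type} (d : W → (G → F) → F), Nat.card {w // rs (d w) = (rs B : CF G F → F)} =
        Nat.card {w // BEq (d w) B} := by
      intro W d
      refine Nat.card_congr (Equiv.subtypeEquivRight fun w => ?_)
      constructor
      · intro h f hf
        exact congrFun h ⟨f, hf⟩
      · intro h
        funext f
        exact h f.1 f.2
    rw [e a, e b, h B hB]
  · intro h B hB
    obtain ⟨e, he, h1, h2⟩ := exists_idem hB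
    have key : ∀ {W : Type} [Finite W] (d : W → (G → F) → F), (∀ w, IsBlock (d w)) →
        ∑ᶠ w, d w e = (Nat.card {w // BEq (d w) B} : F) := by
      intro W _ d hd
      have : Fintype W := Fintype.ofFinite W
      rw [finsum_eq_sum_of_fintype, Nat.card_eq_fintype_card, Fintype.card_subtype,
        Finset.natCast_card_filter]
      refine Finset.sum_congr rfl fun w _ => ?_
      by_cases hw : BEq (d w) B
      · rw [if_pos hw, hw e he.cl, h1]
      · rw [if_neg hw]
        rcases he.val (d w) (hd w) with h0 | h0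
        · exact h0
        · exact absurd (h2 _ (hd w) h0).symm hw
    rw [← key a ha, ← key b hb]
    exact h e he.cl

end gen

section blk

variable {F : Type} [Field F] [IsAlgClosed F] {G : Type} [Group G] [Finite G]

instance fin_tr : Finite {φ : G → F // IsIrrTrace φ} :=
  (Pool.Agent.Y914.NV.irr F G).1.to_subtype

/-- the block of an irreducible trace -/
def blkOf (φ : {φ : G → F // IsIrrTrace φ}) : (G → F) → F := (schur' F G φ.1 φ.2).2.choose

theorem blkOf_block (φ : {φ : G → F // IsIrrTrace φ}) : IsBlock (blkOf φ) :=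
  (schur' F G φ.1 φ.2).2.choose_spec.1

theorem blkOf_spec (φ : {φ : G → F // IsIrrTrace φ}) {f : G → F} (hf : IsClassFun f) (x : G) :
    ∑ᶠ g : G, f g * φ.1 (g * x) = blkOf φ f * φ.1 x :=
  (schur' F G φ.1 φ.2).2.choose_spec.2 f hf x

theorem blkOf_iff (φ : {φ : G → F // IsIrrTrace φ}) {f : G → F} (hf : IsClassFun f) (c : F) :
    (∀ x : G, ∑ᶠ g : G, f g * φ.1 (g * x) = c * φ.1 x) ↔ blkOf φ f = c := by
  constructor
  · intro h
    obtain ⟨x, hx⟩ := (schur' F G φ.1 φ.2).1
    exact mul_right_cancel₀ hx ((blkOf_spec φ hf x).symm.trans (h x))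
  · rintro rfl x
    exact blkOf_spec φ hf x

/-- the irreducible traces in a block -/
theorem numIrrBlock_eq (B : (G → F) → F) :
    numIrrBlock B = Nat.card {φ : {φ : G → F // IsIrrTrace φ} // BEq (blkOf φ) B} := by
  unfold numIrrBlock
  refine Nat.card_congr
    { toFun := fun φ => ⟨⟨φ.1, φ.2.1⟩, fun f hf => ?_⟩
      invFun := fun φ => ⟨φ.1.1, φ.1.2, fun f hf => ?_⟩
      left_inv := fun φ => rfl
      right_inv := fun φ => rfl }
  · exact (blkOf_iff ⟨φ.1, φ.2.1⟩ hf _).mp (φ.2.2 f hf)
  · exact (blkOf_iff φ.1 hf _).mpr (φ.2 f hf)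

/-- the number of traces with a given value of the central character -/
theorem lnum_top {z : G → F} (hz : IsClassFun z) (c : F) :
    Lnum (⊤ : Subgroup G) ⊤ z c =
      Nat.card {φ : {φ : G → F // IsIrrTrace φ} // blkOf φ z = c} := by
  have h1 : Nat.card {φ : {φ : G → F // IsIrrTrace φ} // blkOf φ z = c} =
      Nat.card {φ : G → F // IsIrrTrace φ ∧ ∀ x : G, ∑ᶠ g : G, z g * φ (g * x) = c * φ x} := by
    refine Nat.card_congr
      { toFun := fun φ => ⟨φ.1.1, φ.1.2, (blkOf_iff φ.1 hz c).mpr φ.2⟩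
        invFun := fun φ => ⟨⟨φ.1, φ.2.1⟩, (blkOf_iff ⟨φ.1, φ.2.1⟩ hz c).mp φ.2.2⟩
        left_inv := fun φ => rfl
        right_inv := fun φ => rfl }
  rw [h1]
  unfold Lnum
  refine Nat.card_congr
    { toFun := fun φ => ⟨fun x => φ.1 ⟨x, trivial⟩, ?_, ?_⟩
      invFun := fun φ => ⟨fun x => φ.1 x, ?_, ?_, ?_⟩
      left_inv := fun φ => rfl
      right_inv := fun φ => rfl }
  · exact Pool.Agent.Y210.NV2.irrTrace_comp (Subgroup.topEquiv (G := G)).symm φ.2.1
  · intro x
    have h4 := φ.2.2.2 ⟨x, trivial⟩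
    rw [← h4, ← finsum_comp_equiv (Subgroup.topEquiv (G := G)).toEquiv]
    rfl
  · exact Pool.Agent.Y210.NV2.irrTrace_comp (Subgroup.topEquiv (G := G)) φ.2.1
  · intro g _ x y hxy
    obtain ⟨V, _, _, _, ρ, _, h5⟩ := φ.2.1
    change φ.1 y = φ.1 x
    rw [hxy, h5]
    exact ρ.char_conj x g
  · intro x
    have h4 := φ.2.2 x
    rw [← finsum_comp_equiv (Subgroup.topEquiv (G := G)).toEquiv] at h4
    exact h4

end blk

section wts

variable {p : ℕ} {F : Type} [Field F] (red : integralClosure ℤ ℂ →+* F)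
  {G : Type} [Group G] [Finite G]

/-- the characters belonging to the `p`-subgroup `Q` -/
def YW (p : ℕ) {G : Type} [Group G] (Q : Subgroup G) : Type :=
  {χ : Subgroup.normalizer (Q : Set G) → ℂ //
    IsWt p (Q.subgroupOf (Subgroup.normalizer (Q : Set G))) χ}

instance fin_YW (Q : Subgroup G) : Finite (YW p Q) :=
  ((Pool.Agent.Y914.NV.irr ℂ (Subgroup.normalizer (Q : Set G))).1.subset
    (fun _ h => h.irr)).to_subtype

/-- the classes of weights of `G`, one for each element -/
def YS (p : ℕ) (G : Type) [Group G] : Type :=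
  Σ q : Quotient (pSubgroupSetoid p G), YW p q.out.1

instance fin_YS : Finite (YS p G) := by
  unfold YS
  infer_instance

/-- the block of a weight -/
def cvS (y : YS p G) : (G → F) → F := fun f => centralValue red y.2.1 (fun x => f x)

/-- `w(B)`: the number of classes of weights in `B` -/
def numWts (p : ℕ) {F : Type} [Field F] (red : integralClosure ℤ ℂ →+* F) {G : Type} [Group G]
    (B : (G → F) → F) : ℕ :=
  ∑ᶠ q : Quotient (pSubgroupSetoid p G), numWtBlock p red q.out.1 B

theorem card_sig {A : Type} [Finite A] (T : A → Type) [∀ a, Finite (T a)]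
    (P : (Σ a, T a) → Prop) : Nat.card {s : Σ a, T a // P s} =
      ∑ᶠ a, Nat.card {t : T a // P ⟨a, t⟩} := by
  have : Fintype A := Fintype.ofFinite A
  have : ∀ a, Fintype (T a) := fun a => Fintype.ofFinite (T a)
  rw [finsum_eq_sum_of_fintype, ← Nat.card_sigma]
  refine Nat.card_congr
    { toFun := fun s => ⟨s.1.1, ⟨s.1.2, s.2⟩⟩
      invFun := fun s => ⟨⟨s.1, s.2.1⟩, s.2.2⟩
      left_inv := fun s => rfl
      right_inv := fun s => rfl }

theorem numWts_eq (B : (G → F) → F) :
    numWts p red B = Nat.card {y : YS p G // BEq (cvS red y) B} := by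
  have h := card_sig (fun q : Quotient (pSubgroupSetoid p G) => YW p q.out.1)
    (fun y => BEq (cvS red y) B)
  refine Eq.trans ?_ h.symm
  unfold numWts
  refine finsum_congr fun q => ?_
  unfold numWtBlock
  refine Nat.card_congr
    { toFun := fun χ => ⟨⟨χ.1, χ.2.1⟩, fun f hf => χ.2.2 f hf⟩
      invFun := fun χ => ⟨χ.1.1, χ.1.2, fun f hf => χ.2 f hf⟩
      left_inv := fun χ => rfl
      right_inv := fun χ => rfl }

theorem cvS_block [Fact p.Prime] [IsAlgClosed F] [CharP F p] (y : YS p G) :
    IsBlock (cvS red y) :=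
  wblk' p F red G y.1.out.1 y.2.1 y.1.out.2 y.2.2

end wts

/-- **The conjecture modulo `p` for the group `G`.** -/
theorem modp_iff (p : ℕ) [Fact p.Prime] (F : Type) [Field F] [IsAlgClosed F] [CharP F p]
    (red : integralClosure ℤ ℂ →+* F) (G : Type) [Group G] [Finite G] :
    (∀ B : (G → F) → F, IsBlock B → numIrrBlock B ≡ numWts p red B [MOD p]) ↔
    ∀ z : G → F, IsClassFun z →
      ∑ᶠ c : F, c * (Lnum (⊤ : Subgroup G) ⊤ z c : F) =
        ∑ᶠ q : Quotient (pSubgroupSetoid p G),
          ∑ᶠ χ : {χ : Subgroup.normalizer (q.out.1 : Set G) → ℂ //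
            IsWt p (q.out.1.subgroupOf (Subgroup.normalizer (q.out.1 : Set G))) χ},
            centralValue red χ.1 (fun x => z x) := by
  have h1 := ind_iff (fun φ : {φ : G → F // IsIrrTrace φ} => blkOf φ)
    (fun y : YS p G => cvS red y) blkOf_block (cvS_block red)
  have h2 : (∀ B : (G → F) → F, IsBlock B → numIrrBlock B ≡ numWts p red B [MOD p]) ↔
      ∀ B : (G → F) → F, IsBlock B →
        (Nat.card {φ : {φ : G → F // IsIrrTrace φ} // BEq (blkOf φ) B} : F) =
          (Nat.card {y : YS p G // BEq (cvS red y) B} : F) := by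
    refine forall_congr' fun B => imp_congr_right fun _ => ?_
    rw [← numIrrBlock_eq, ← numWts_eq, CharP.natCast_eq_natCast F p]
  rw [h2, h1]
  refine forall_congr' fun z => imp_congr_right fun hz => ?_
  have h3 : ∑ᶠ c : F, c * (Lnum (⊤ : Subgroup G) ⊤ z c : F) =
      ∑ᶠ φ : {φ : G → F // IsIrrTrace φ}, blkOf φ z := by
    rw [← sum_fib (fun φ : {φ : G → F // IsIrrTrace φ} => blkOf φ z)]
    refine finsum_congr fun c => ?_
    rw [lnum_top hz c]
  have h4 : ∑ᶠ y : YS p G, cvS red y z = ∑ᶠ q : Quotient (pSubgroupSetoid p G),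
      ∑ᶠ χ : {χ : Subgroup.normalizer (q.out.1 : Set G) → ℂ //
        IsWt p (q.out.1.subgroupOf (Subgroup.normalizer (q.out.1 : Set G))) χ},
        centralValue red χ.1 (fun x => z x) := by
    have i1 : Fintype (Quotient (pSubgroupSetoid p G)) := Fintype.ofFinite _
    have i2 : ∀ Q : Subgroup G, Fintype (YW p Q) := fun Q => Fintype.ofFinite _
    letI i3 : Fintype (YS p G) := inferInstanceAs (Fintype
      (Σ q : Quotient (pSubgroupSetoid p G), YW p q.out.1))
    rw [finsum_eq_sum_of_fintype, finsum_eq_sum_of_fintype]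
    refine Eq.trans (Fintype.sum_sigma (α := fun q : Quotient (pSubgroupSetoid p G) =>
      YW p q.out.1) (fun y => cvS red y z)) ?_
    refine Finset.sum_congr rfl fun q _ => ?_
    exact (@finsum_eq_sum_of_fintype _ _ _ (i2 q.out.1) _).symm
  rw [h3, ← h4]

end Pool.Agent.N85.WM
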