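import Pool.Agent.N85.WM.Stm

/-!
# Idempotents of blocks
-/

set_option autoImplicit false

open scoped Classical BigOperators

noncomputable section

namespace Pool.Agent.N85.WM

open Pool.Agent.Y63.NV
open Pool.Agent.Y63.NV.B286 (conv_class single_class)

variable {F : Type} [Field F] {G : Type} [Group G]

/-- two blocks are equal: they agree on the class functions -/
def BEq (B B' : (G → F) → F) : Prop := ∀ f : G → F, IsClassFun f → B f = B' f

theorem BEq.symm {B B' : (G → F) → F} (h : BEq B B') : BEq B' B := fun f hf => (h f hf).symm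

theorem BEq.trans {B B' B'' : (G → F) → F} (h : BEq B B') (h' : BEq B' B'') : BEq B B'' :=
  fun f hf => (h f hf).trans (h' f hf)

theorem BEq.refl (B : (G → F) → F) : BEq B B := fun _ _ => rfl

theorem cl_add {f g : G → F} (hf : IsClassFun f) (hg : IsClassFun g) : IsClassFun (f + g) :=
  fun a x => by rw [Pi.add_apply, Pi.add_apply, hf, hg]

theorem cl_smul (a : F) {f : G → F} (hf : IsClassFun f) : IsClassFun (a • f) :=
  fun b x => by rw [Pi.smul_apply, Pi.smul_apply, hf]

/-- separation of a block from one other block -/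
theorem sep_one {B B' : (G → F) → F} (hB : IsBlock B) (hB' : IsBlock B') (h : ¬ BEq B B') :
    ∃ e : G → F, IsClassFun e ∧ B e = 1 ∧ B' e = 0 := by
  unfold BEq at h
  push Not at h
  obtain ⟨f, hf, hne⟩ := h
  have h1 : IsClassFun (Pi.single (1 : G) (1 : F)) := single_class
  have hd : B f - B' f ≠ 0 := sub_ne_zero.mpr hne
  refine ⟨(B f - B' f)⁻¹ • (f + (-(B' f)) • Pi.single (1 : G) (1 : F)), ?_, ?_, ?_⟩
  · exact cl_smul _ (cl_add hf (cl_smul _ h1))
  · rw [hB.smul _ _ (cl_add hf (cl_smul _ h1)), hB.add _ _ hf (cl_smul _ h1), hB.smul _ _ h1,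
      hB.one]
    field_simp
    ring
  · rw [hB'.smul _ _ (cl_add hf (cl_smul _ h1)), hB'.add _ _ hf (cl_smul _ h1), hB'.smul _ _ h1,
      hB'.one]
    ring

/-- separation of a block from finitely many other blocks -/
theorem sep_list {B : (G → F) → F} (hB : IsBlock B) (S : List ((G → F) → F))
    (hS : ∀ B' ∈ S, IsBlock B' ∧ ¬ BEq B B') :
    ∃ e : G → F, IsClassFun e ∧ B e = 1 ∧ ∀ B' ∈ S, B' e = 0 := by
  induction S with
  | nil =>
    exact ⟨Pi.single 1 1, single_class, hB.one, by simp⟩
  | cons A S ih =>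
    obtain ⟨e, he, h1, h2⟩ := ih fun B' h => hS B' (List.mem_cons_of_mem _ h)
    have hA := hS A List.mem_cons_self
    obtain ⟨d, hd, h3, h4⟩ := sep_one hB hA.1 hA.2
    refine ⟨conv e d, conv_class he hd, ?_, ?_⟩
    · rw [hB.mul _ _ he hd, h1, h3, one_mul]
    · intro B' hB'
      rcases List.mem_cons.mp hB' with rfl | h
      · rw [hA.1.mul _ _ he hd, h4, mul_zero]
      · rw [(hS B' hB').1.mul _ _ he hd, h2 B' h, zero_mul]

/-- blocks as linear functionals: a family of pairwise different blocks has at most `|G|` members -/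
theorem card_le [Finite G] (S : List ((G → F) → F)) (hS : ∀ B ∈ S, IsBlock B)
    (hd : S.Pairwise fun B B' => ¬ BEq B B') : S.length ≤ Nat.card G := by
  have : Fintype G := Fintype.ofFinite G
  have key : ∀ i : Fin S.length, ∃ e : G → F, IsClassFun e ∧ S.get i e = 1 ∧
      ∀ j : Fin S.length, j ≠ i → S.get j e = 0 := by
    intro i
    obtain ⟨e, he, h1, h2⟩ := sep_list (hS _ (S.get_mem i))
      (((List.finRange S.length).filter (fun j => j ≠ i)).map S.get) (by
        intro B' hB'
        obtain ⟨j, hj, rfl⟩ := List.mem_map.mp hB'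
        have hji : j ≠ i := by simpa using (List.mem_filter.mp hj).2
        refine ⟨hS _ (S.get_mem j), ?_⟩
        rw [List.pairwise_iff_get] at hd
        rcases lt_or_gt_of_ne hji with h | h
        · exact fun hh => hd j i h hh.symm
        · exact hd i j h)
    refine ⟨e, he, h1, fun j hj => h2 _ (List.mem_map.mpr ⟨j, ?_, rfl⟩)⟩
    exact List.mem_filter.mpr ⟨List.mem_finRange j, by simpa using hj⟩
  choose e he h1 h2 using key
  have hli : LinearIndependent F e := by
    rw [Fintype.linearIndependent_iff]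
    intro a ha i
    have hB := hS _ (S.get_mem i)
    -- evaluate the block on the sum
    have hsum : ∀ T : Finset (Fin S.length), IsClassFun (∑ j ∈ T, a j • e j) ∧
        S.get i (∑ j ∈ T, a j • e j) = ∑ j ∈ T, a j * S.get i (e j) := by
      intro T
      induction T using Finset.induction_on with
      | empty =>
        have h0 : IsClassFun (0 : G → F) := fun _ _ => rfl
        refine ⟨by rw [Finset.sum_empty]; exact h0, ?_⟩
        rw [Finset.sum_empty, Finset.sum_empty]
        have := hB.smul 0 0 h0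
        rwa [zero_smul, zero_mul] at this
      | insert k T hk ih =>
        rw [Finset.sum_insert hk, Finset.sum_insert hk]
        refine ⟨cl_add (cl_smul _ (he k)) ih.1, ?_⟩
        rw [hB.add _ _ (cl_smul _ (he k)) ih.1, hB.smul _ _ (he k), ih.2]
    have h3 := (hsum Finset.univ).2
    rw [ha] at h3
    have h0 : IsClassFun (0 : G → F) := fun _ _ => rfl
    have h4 : S.get i (0 : G → F) = 0 := by
      have := hB.smul 0 0 h0
      rwa [zero_smul, zero_mul] at this
    rw [h4, Finset.sum_eq_single i] at h3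
    · rw [h1, mul_one] at h3
      exact h3.symm
    · intro j _ hj
      rw [h2 j i (fun h => hj h.symm), mul_zero]
    · intro h
      exact absurd (Finset.mem_univ _) h
  have h5 := hli.fintype_card_le_finrank
  rw [Fintype.card_fin, Module.finrank_pi] at h5
  rwa [Nat.card_eq_fintype_card]

/-- every block has an idempotent -/
theorem exists_idem [Finite G] {B : (G → F) → F} (hB : IsBlock B) :
    ∃ e : G → F, IsIdem e ∧ B e = 1 ∧ ∀ B' : (G → F) → F, IsBlock B' → B' e = 1 → BEq B B' := by
  -- a maximal list of pairwise different blocks, different from `B`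
  let P : ℕ → Prop := fun n => ∃ S : List ((G → F) → F), S.length = n ∧
    (∀ B' ∈ S, IsBlock B' ∧ ¬ BEq B B') ∧ S.Pairwise fun B B' => ¬ BEq B B'
  have hP0 : P 0 := ⟨[], rfl, by simp, List.Pairwise.nil⟩
  have hb : ∀ n, P n → n ≤ Nat.card G := by
    rintro n ⟨S, rfl, h1, h2⟩
    exact card_le S (fun B' h => (h1 B' h).1) h2
  obtain ⟨S, hl, hS, hd⟩ := Nat.findGreatest_spec (P := P) (Nat.zero_le (Nat.card G)) hP0
  have hmax : ∀ B' : (G → F) → F, IsBlock B' → ¬ BEq B B' → ∃ A ∈ S, BEq B' A := by
    intro B' hB' hne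
    by_contra hcon
    push Not at hcon
    have h1 : P (S.length + 1) := by
      refine ⟨B' :: S, rfl, ?_, ?_⟩
      · intro A hA
        rcases List.mem_cons.mp hA with rfl | h
        · exact ⟨hB', hne⟩
        · exact hS A h
      · exact List.Pairwise.cons hcon hd
    have h2 := Nat.le_findGreatest (hb _ h1) h1
    rw [← hl] at h2
    omega
  obtain ⟨e, he, h1, h2⟩ := sep_list hB S hS
  have hz : ∀ B' : (G → F) → F, IsBlock B' → ¬ BEq B B' → B' e = 0 := by
    intro B' hB' hne
    obtain ⟨A, hA, hBA⟩ := hmax B' hB' hne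
    rw [hBA e he]
    exact h2 A hA
  refine ⟨e, ⟨he, fun B' hB' => ?_⟩, h1, fun B' hB' h => ?_⟩
  · by_cases h : BEq B B'
    · exact Or.inr (by rw [← h e he, h1])
    · exact Or.inl (hz B' hB' h)
  · by_contra hne
    rw [hz B' hB' hne] at h
    exact zero_ne_one h

end Pool.Agent.N85.WM
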