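import Pool.Agent.N85.WM.Free
import Pool.Agent.Y77.NV.Base

/-!
# The conjecture modulo `p` in terms of commutators
-/

set_option autoImplicit false

open scoped Classical BigOperators

noncomputable section

namespace Pool.Agent.N85.WM

open Pool.Agent.Y63.NV
open Pool.Agent.Y63.NV.B48B (orbit_sum)
open Pool.Agent.Y63.AWC (IsIrreducibleCharacter pSubgroupSetoid)

/-- `x` is an element of order a power of `p` -/
def PEl (p : ℕ) {G : Type} [Group G] (x : G) : Prop := ∃ j : ℕ, orderOf x = p ^ j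

/-- The number of triples `(x, y, k)` of elements of the normaliser of `Q` with `k` conjugate to `g` in
`G` such that `k[x,y]` has order a power of `p`. -/
def tripNum (p : ℕ) {G : Type} [Group G] (Q : Subgroup G) (g : G) : ℕ :=
  Nat.card {t : G × G × G // (t.1 ∈ Subgroup.normalizer (Q : Set G) ∧
    t.2.1 ∈ Subgroup.normalizer (Q : Set G) ∧ t.2.2 ∈ Subgroup.normalizer (Q : Set G)) ∧
    IsConj g t.2.2 ∧ PEl p (t.2.2 * (t.1 * t.2.1 * t.1⁻¹ * t.2.1⁻¹))}

/-- The number of triples `(x, y, k)` of elements of `G` with `x` of order prime to `p` and `k`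
conjugate to `g` such that `k[x,y]` has order a power of `p` and commutes with `yxy⁻¹`. -/
def regTrip (p : ℕ) {G : Type} [Group G] (g : G) : ℕ :=
  Nat.card {t : G × G × G // ¬ p ∣ orderOf t.1 ∧ IsConj g t.2.2 ∧
    PEl p (t.2.2 * (t.1 * t.2.1 * t.1⁻¹ * t.2.1⁻¹)) ∧ Commute (t.2.2 * (t.1 * t.2.1 * t.1⁻¹ * t.2.1⁻¹)) (t.2.1 * t.1 * t.2.1⁻¹)}

section cc

/-- counting the elements of a product -/
theorem card_prod {A R : Type} [Finite A] [Finite R] (P : A → R → Prop) :
    Nat.card {s : A × R // P s.1 s.2} = ∑ᶠ a, Nat.card {r // P a r} := by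
  have : Fintype A := Fintype.ofFinite A
  rw [finsum_eq_sum_of_fintype, ← Nat.card_sigma]
  exact Nat.card_congr
    { toFun := fun s => ⟨s.1.1, ⟨s.1.2, s.2⟩⟩
      invFun := fun s => ⟨⟨s.1, s.2.1⟩, s.2.2⟩
      left_inv := fun s => rfl
      right_inv := fun s => rfl }

/-- counting with representatives of the classes -/
theorem cc_count {H R : Type} [Group H] [Finite H] [Finite R] (f : H → R → H) (P : H → R → Prop)
    (hinv : ∀ a : H, ∃ σ : R ≃ R, ∀ y r, (P (a * y * a⁻¹) (σ r) ↔ P y r) ∧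
      f (a * y * a⁻¹) (σ r) = a * f y r * a⁻¹) :
    Nat.card H * Nat.card {s : ConjClasses H × R // P s.1.out s.2 ∧
      IsConj (f s.1.out s.2) s.1.out} =
    Nat.card {t : H × H × R // P t.1 t.2.2 ∧ t.2.1 * t.1 * t.2.1⁻¹ = f t.1 t.2.2} := by
  have : Fintype H := Fintype.ofFinite H
  let v : H → ℕ := fun y => Nat.card {r // P y r ∧ IsConj (f y r) y}
  have hc : ∀ a b : H, IsConj (a * b * a⁻¹) b := fun a b => (isConj_iff.mpr ⟨a, rfl⟩).symm
  have hv : ∀ a b : H, (IsConj.setoid H).r a b → v a = v b := by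
    intro y y' h
    obtain ⟨a, rfl⟩ := isConj_iff.mp (h : IsConj y y')
    obtain ⟨σ, hσ⟩ := hinv a
    refine Nat.card_congr (Equiv.subtypeEquiv σ fun r => ?_)
    rw [(hσ y r).1, (hσ y r).2]
    refine and_congr_right fun _ => ⟨fun h1 => ?_, fun h1 => ?_⟩
    · exact (hc _ _).trans (h1.trans (hc _ _).symm)
    · exact (hc _ _).symm.trans (h1.trans (hc _ _))
  have h1 := orbit_sum (G := ConjAct H) (Ω := H) (IsConj.setoid H) (by
    intro a b
    change IsConj a b ↔ _
    rw [isConj_iff]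
    constructor
    · rintro ⟨c, hc⟩
      exact ⟨ConjAct.toConjAct c, by rw [ConjAct.smul_def]; exact hc⟩
    · rintro ⟨c, hc⟩
      rw [ConjAct.smul_def] at hc
      exact ⟨ConjAct.ofConjAct c, hc⟩) v hv
  have e1 : Nat.card {s : ConjClasses H × R // P s.1.out s.2 ∧
      IsConj (f s.1.out s.2) s.1.out} = ∑ᶠ C : ConjClasses H, v C.out :=
    card_prod (fun (C : ConjClasses H) (r : R) => P C.out r ∧ IsConj (f C.out r) C.out)
  have e0 : Nat.card (ConjAct H) = Nat.card H := Nat.card_congr ConjAct.ofConjAct.toEquiv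
  rw [e1, ← e0]
  refine h1.trans ?_
  have e2 : Nat.card {t : H × H × R // P t.1 t.2.2 ∧ t.2.1 * t.1 * t.2.1⁻¹ = f t.1 t.2.2} =
      ∑ y : H, Nat.card {s : H × R // P y s.2 ∧ s.1 * y * s.1⁻¹ = f y s.2} := by
    rw [← finsum_eq_sum_of_fintype]
    exact card_prod (fun (y : H) (s : H × R) => P y s.2 ∧ s.1 * y * s.1⁻¹ = f y s.2)
  rw [e2]
  refine Finset.sum_congr rfl fun y _ => ?_
  -- for one element
  have e3 : Nat.card {s : H × R // P y s.2 ∧ s.1 * y * s.1⁻¹ = f y s.2} =
      Nat.card {s : R × H // P y s.1 ∧ s.2 * y * s.2⁻¹ = f y s.1} :=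
    Nat.card_congr (Equiv.subtypeEquiv (Equiv.prodComm H R) fun s => Iff.rfl)
  have e4 : Nat.card {s : R × H // P y s.1 ∧ s.2 * y * s.2⁻¹ = f y s.1} =
      ∑ᶠ r : R, Nat.card {h : H // P y r ∧ h * y * h⁻¹ = f y r} :=
    card_prod (fun (r : R) (h : H) => P y r ∧ h * y * h⁻¹ = f y r)
  have : Fintype R := Fintype.ofFinite R
  have e5 : ∀ r : R, Nat.card {h : H // P y r ∧ h * y * h⁻¹ = f y r} =
      if P y r ∧ IsConj (f y r) y then Nat.card (MulAction.stabilizer (ConjAct H) y) else 0 := by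
    intro r
    by_cases hr : P y r ∧ IsConj (f y r) y
    · rw [if_pos hr]
      obtain ⟨c, hc'⟩ := isConj_iff.mp hr.2.symm
      refine Nat.card_congr
        { toFun := fun h => ⟨ConjAct.toConjAct (c⁻¹ * h.1), ?_⟩
          invFun := fun s => ⟨c * ConjAct.ofConjAct s.1, hr.1, ?_⟩
          left_inv := fun h => ?_
          right_inv := fun s => ?_ }
      · rw [MulAction.mem_stabilizer_iff, ConjAct.smul_def]
        change c⁻¹ * h.1 * y * (c⁻¹ * h.1)⁻¹ = y
        have h5 : h.1 * y * h.1⁻¹ = c * y * c⁻¹ := h.2.2.trans hc'.symm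
        calc c⁻¹ * h.1 * y * (c⁻¹ * h.1)⁻¹ = c⁻¹ * (h.1 * y * h.1⁻¹) * c := by group
          _ = y := by rw [h5]; group
      · have h2 := s.2
        rw [MulAction.mem_stabilizer_iff, ConjAct.smul_def] at h2
        calc c * ConjAct.ofConjAct s.1 * y * (c * ConjAct.ofConjAct s.1)⁻¹ =
            c * (ConjAct.ofConjAct s.1 * y * (ConjAct.ofConjAct s.1)⁻¹) * c⁻¹ := by group
          _ = f y r := by rw [h2, hc']
      · apply Subtype.ext
        change c * (c⁻¹ * h.1) = h.1
        group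
      · apply Subtype.ext
        change ConjAct.toConjAct (c⁻¹ * (c * ConjAct.ofConjAct s.1)) = s.1
        rw [inv_mul_cancel_left]
        rfl
    · rw [if_neg hr]
      have : IsEmpty {h : H // P y r ∧ h * y * h⁻¹ = f y r} := by
        refine ⟨fun h => hr ⟨h.2.1, ?_⟩⟩
        exact (isConj_iff.mpr ⟨h.1, h.2.2⟩).symm
      exact Nat.card_of_isEmpty
  rw [e3, e4, finsum_eq_sum_of_fintype, Finset.sum_congr rfl fun r _ => e5 r, ← Finset.sum_filter,
    Finset.sum_const, smul_eq_mul, mul_comm]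
  congr 1
  change Nat.card {r // P y r ∧ IsConj (f y r) y} = _
  rw [Nat.card_eq_fintype_card, Fintype.card_subtype]

end cc

section el

variable {p : ℕ} [Fact p.Prime] {G : Type} [Group G] [Finite G]

theorem PEl.conj {x : G} (a : G) : PEl p (a * x * a⁻¹) ↔ PEl p x := by
  unfold PEl
  have : orderOf (a * x * a⁻¹) = orderOf x := by
    have h := orderOf_injective (MulAut.conj a).toMonoidHom (MulAut.conj a).injective x
    exact h
  rw [this]

omit [Finite G] in
theorem pel_iff {x : G} : PEl p x ↔ ∃ j : ℕ, x ^ p ^ j = 1 := by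
  constructor
  · rintro ⟨j, hj⟩
    exact ⟨j, by rw [← hj]; exact pow_orderOf_eq_one x⟩
  · rintro ⟨j, hj⟩
    obtain ⟨i, -, hi⟩ := (Nat.dvd_prime_pow Fact.out).mp (orderOf_dvd_of_pow_eq_one hj)
    exact ⟨i, hi⟩

/-- the `p'`-part of `y` is `y⁻¹`-times an element of order a power of `p` -/
theorem pel_pp (y : G) : PEl p (y * (pp p y)⁻¹) := by
  have hp : p.Prime := Fact.out
  have ho : orderOf y ≠ 0 := (orderOf_pos y).ne'
  have h1 : p ^ (orderOf y).factorization p * (orderOf y / p ^ (orderOf y).factorization p) =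
    orderOf y := Nat.ordProj_mul_ordCompl_eq_self _ _
  have h2 := Pool.Agent.Y77.NV.pexp_modEq p G _ _ (h1 ▸ orderOf_dvd_natCard y)
    (Nat.not_dvd_ordCompl hp ho)
  rw [pel_iff]
  refine ⟨(orderOf y).factorization p, ?_⟩
  have hc : Commute y (pp p y)⁻¹ := by
    unfold pp
    exact ((Commute.refl y).pow_right _).inv_right
  rw [hc.mul_pow, inv_pow, mul_inv_eq_one]
  unfold pp
  rw [← pow_mul, pow_eq_pow_iff_modEq]
  have h3 := (h2.2.mul_left' (p ^ (orderOf y).factorization p)).symm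
  rw [h1, mul_one, mul_comm (p ^ _) (pexp p G)] at h3
  exact h3

/-- the `p'`-part of `b a` -/
theorem pp_mul {a b : G} (ha : ¬ p ∣ orderOf a) (hb : PEl p b) (hc : Commute b a) :
    pp p (b * a) = a := by
  obtain ⟨j, hj⟩ := hb
  have h1 := Pool.Agent.Y77.NV.pp_reg a ha
  have h2 := Pool.Agent.Y77.NV.pexp_modEq p G j 1 (by
    rw [mul_one, ← hj]
    exact orderOf_dvd_natCard b) (by
      intro h
      exact (Fact.out : p.Prime).one_lt.ne' (Nat.dvd_one.mp h))
  have h3 : b ^ pexp p G = 1 := by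
    rw [← orderOf_dvd_iff_pow_eq_one, hj]
    exact (Nat.modEq_zero_iff_dvd).mp h2.1
  unfold pp at h1 ⊢
  rw [hc.mul_pow, h1, h3, one_mul]

/-- the condition on the `p'`-part in terms of the commutator -/
theorem reg_cond {x h k : G} (hx : ¬ p ∣ orderOf x) :
    h * x * h⁻¹ = pp p (k * x) ↔
      PEl p (k * (x * h * x⁻¹ * h⁻¹)) ∧ Commute (k * (x * h * x⁻¹ * h⁻¹)) (h * x * h⁻¹) := by
  have e : k * (x * h * x⁻¹ * h⁻¹) = k * x * (h * x * h⁻¹)⁻¹ := by
    group
  rw [e]
  constructor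
  · intro h1
    rw [h1]
    refine ⟨pel_pp _, ?_⟩
    have hc : Commute (k * x) (pp p (k * x)) := by
      unfold pp
      exact (Commute.refl _).pow_right _
    exact hc.mul_left (Commute.refl _).inv_left
  · rintro ⟨h1, h2⟩
    have h3 : ¬ p ∣ orderOf (h * x * h⁻¹) := by
      have : orderOf (h * x * h⁻¹) = orderOf x :=
        orderOf_injective (MulAut.conj h).toMonoidHom (MulAut.conj h).injective x
      rwa [this]
    have h4 := pp_mul h3 h1 h2
    rw [inv_mul_cancel_right] at h4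
    exact h4.symm

/-- the side of the irreducible modules -/
theorem reg_trip (g : G) : Nat.card G * regNum p g = regTrip p g := by
  have h1 := cc_count (H := G) (R := G) (fun y k => pp p (k * y))
    (fun y k => ¬ p ∣ orderOf y ∧ IsConj g k) (by
      intro a
      refine ⟨(MulAut.conj a).toEquiv, fun y r => ⟨?_, ?_⟩⟩
      · have e1 : orderOf (a * y * a⁻¹) = orderOf y :=
          orderOf_injective (MulAut.conj a).toMonoidHom (MulAut.conj a).injective y
        have e2 : IsConj g (a * r * a⁻¹) ↔ IsConj g r := by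
          have h1 : IsConj r (a * r * a⁻¹) := isConj_iff.mpr ⟨a, rfl⟩
          exact ⟨fun h2 => h2.trans h1.symm, fun h2 => h2.trans h1⟩
        change (¬ p ∣ orderOf (a * y * a⁻¹) ∧ IsConj g (a * r * a⁻¹)) ↔ _
        rw [e1, e2]
      · change pp p (a * r * a⁻¹ * (a * y * a⁻¹)) = a * pp p (r * y) * a⁻¹
        rw [← Pool.Agent.Y77.NV.pp_conj]
        congr 1
        group)
  have e1 : regNum p g = Nat.card {s : ConjClasses G × G // (¬ p ∣ orderOf s.1.out ∧
      IsConj g s.2) ∧ IsConj (pp p (s.2 * s.1.out)) s.1.out} := by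
    unfold regNum
    refine Nat.card_congr (Equiv.subtypeEquivRight fun s => ?_)
    tauto
  rw [e1, h1]
  unfold regTrip
  refine Nat.card_congr (Equiv.subtypeEquivRight fun t => ?_)
  constructor
  · rintro ⟨⟨h2, h3⟩, h4⟩
    exact ⟨h2, h3, (reg_cond h2).mp h4⟩
  · rintro ⟨h2, h3, h4⟩
    exact ⟨⟨h2, h3⟩, (reg_cond h2).mpr h4⟩

end el

end Pool.Agent.N85.WM
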