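import Pool.Agent.N85.WM.Stm
import Pool.Agent.Y705.NV.Schur
import Pool.Agent.Y914.NV.Irr
import Pool.Agent.Y210.NV2.TRL

/-!
# The part LW: irreducible traces and wreath products

`main : S_PIR → S_LW`. The irreducible traces of the base group `G^p` are the products of the
irreducible traces of `G`; the condition on the idempotent `e ⊗ ⋯ ⊗ e` splits into the conditions
on the factors, and a product is invariant under the shifts iff all the factors are equal.
-/

set_option autoImplicit false

open scoped Classical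

noncomputable section

namespace Pool.Agent.N85.WM.Lw

open Pool.Agent.Y63.NV

theorem schur' : S_SCHUR := Pool.Agent.Y705.NV.schur Pool.Agent.Y914.NV.irr

theorem irr_cl {F : Type} [Field F] {G : Type} [Group G] {φ : G → F} (h : IsIrrTrace φ) :
    IsClassFun φ := by
  obtain ⟨V, _, _, _, ρ, _, rfl⟩ := h
  intro g x
  exact ρ.char_conj x g

/-- transport of `Lnum` along an isomorphism -/
theorem lnum_card {F : Type} [Field F] {Γ : Type} [Group Γ] (N H : Subgroup Γ) {A : Type}
    [Group A] (f : A ≃* N) (z : Γ → F) (zA : A → F) (c : F) (hz : ∀ a, z (f a) = zA a)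
    (P : (A → F) → Prop)
    (hP : ∀ φ : A → F, IsIrrTrace φ → (IsInvUnder H (fun x : N => φ (f.symm x)) ↔ P φ)) :
    Lnum N H z c = Nat.card {φ : A → F // IsIrrTrace φ ∧ P φ ∧
      ∀ x, ∑ᶠ g, zA g * φ (g * x) = c * φ x} := by
  unfold Lnum
  refine (Nat.card_congr (Equiv.subtypeEquiv
    (Equiv.arrowCongr f.toEquiv (Equiv.refl F)) ?_)).symm
  intro φ
  have e1 : (Equiv.arrowCongr f.toEquiv (Equiv.refl F)) φ = fun x : N => φ (f.symm x) := rfl
  rw [e1]
  have h1 : IsIrrTrace φ ↔ IsIrrTrace (fun x : N => φ (f.symm x)) := by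
    refine ⟨Pool.Agent.Y210.NV2.irrTrace_comp f.symm, fun h => ?_⟩
    have h2 := Pool.Agent.Y210.NV2.irrTrace_comp f h
    simpa using h2
  have h3 : (∀ x : A, ∑ᶠ g : A, zA g * φ (g * x) = c * φ x) ↔
      ∀ x : N, ∑ᶠ g : N, z g * φ (f.symm (g * x)) = c * φ (f.symm x) := by
    have h4 : ∀ x : A, ∑ᶠ g : A, zA g * φ (g * x) =
        ∑ᶠ g : N, z g * φ (f.symm (g * f x)) := by
      intro x
      rw [← finsum_comp_equiv f.toEquiv]
      refine finsum_congr fun g => ?_
      have h5 : f.toEquiv g = f g := rfl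
      rw [h5, ← map_mul, f.symm_apply_apply, hz]
    constructor
    · intro h x
      have := h (f.symm x)
      rw [h4, f.apply_symm_apply] at this
      exact this
    · intro h x
      rw [h4]
      have := h (f x)
      rw [f.symm_apply_apply] at this
      exact this
  constructor
  · rintro ⟨a, b, c⟩
    exact ⟨h1.1 a, (hP φ a).2 b, h3.1 c⟩
  · rintro ⟨a, b, c⟩
    exact ⟨h1.2 a, (hP φ (h1.2 a)).1 b, h3.2 c⟩

section tens

variable {F : Type} [Field F] {ι : Type} [Fintype ι] {G : Type} [Group G] [Finite G]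

omit [Group G] in
/-- the sum of a product over a direct power -/
theorem finsum_tens (a : ι → G → F) : ∑ᶠ g : ι → G, ∏ i, a i (g i) = ∏ i, ∑ᶠ g : G, a i g := by
  cases nonempty_fintype G
  rw [finsum_eq_sum_of_fintype]
  simp only [finsum_eq_sum_of_fintype]
  rw [Finset.prod_univ_sum, Fintype.piFinset_univ]

omit [Group G] [Finite G] in
theorem tens_ne (θ : ι → G → F) (h : ∀ i, ∃ y, θ i y ≠ 0) : ∃ x, tensF θ x ≠ 0 := by
  choose x hx using h
  exact ⟨x, Finset.prod_ne_zero_iff.2 fun i _ => hx i⟩

/-- the condition on the idempotent splits -/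
theorem key [IsAlgClosed F] (θ : ι → G → F) (hθ : ∀ i, IsIrrTrace (θ i)) (e : G → F)
    (he : IsIdem e) :
    (∀ x, ∑ᶠ g : ι → G, tensF (fun _ => e) g * tensF θ (g * x) = 1 * tensF θ x) ↔
      ∀ i, ∀ y, ∑ᶠ g : G, e g * θ i (g * y) = θ i y := by
  have h0 := fun i => (schur' F G (θ i) (hθ i)).1
  have h1 := fun i => (schur' F G (θ i) (hθ i)).2
  choose B hB hB' using h1
  have hb : ∀ i, B i e = 0 ∨ B i e = 1 := fun i => he.val (B i) (hB i)
  have h2 : ∀ i y, ∑ᶠ g : G, e g * θ i (g * y) = B i e * θ i y := fun i y => hB' i e he.cl y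
  have h3 : ∀ x : ι → G, ∑ᶠ g : ι → G, tensF (fun _ => e) g * tensF θ (g * x) =
      (∏ i, B i e) * tensF θ x := by
    intro x
    have h4 : ∀ g : ι → G, tensF (fun _ => e) g * tensF θ (g * x) =
        ∏ i, (fun (i : ι) (y : G) => e y * θ i (y * x i)) i (g i) := by
      intro g
      simp only [tensF, Pi.mul_apply]
      rw [← Finset.prod_mul_distrib]
    rw [finsum_congr h4]
    refine (finsum_tens fun (i : ι) (y : G) => e y * θ i (y * x i)).trans ?_
    simp only [h2]
    rw [Finset.prod_mul_distrib]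
    rfl
  constructor
  · intro h i y
    obtain ⟨x, hx⟩ := tens_ne θ h0
    have h5 := h x
    rw [h3] at h5
    have h6 : ∏ i, B i e = 1 := mul_right_cancel₀ hx h5
    have h7 : B i e = 1 := by
      rcases hb i with h8 | h8
      · rw [Finset.prod_eq_zero (Finset.mem_univ i) h8] at h6
        exact absurd h6.symm one_ne_zero
      · exact h8
    rw [h2, h7, one_mul]
  · intro h x
    have h7 : ∀ i, B i e = 1 := by
      intro i
      obtain ⟨y, hy⟩ := h0 i
      have := h i y
      rw [h2] at this
      exact mul_right_cancel₀ hy (this.trans (one_mul _).symm)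
    rw [h3, Finset.prod_congr rfl (fun i _ => h7 i), Finset.prod_const_one]

end tens

/-- the irreducible traces of `G` on which `e` acts as `1` -/
def A {F : Type} [Field F] {G : Type} [Group G] (e : G → F) : Type :=
  {θ : G → F // IsIrrTrace θ ∧ ∀ y, ∑ᶠ g : G, e g * θ (g * y) = θ y}

theorem card_A {F : Type} [Field F] {G : Type} [Group G] (e : G → F) :
    Lnum (⊤ : Subgroup G) ⊤ e 1 = Nat.card (A e) := by
  rw [lnum_card (⊤ : Subgroup G) ⊤ Subgroup.topEquiv.symm e e 1 (fun a => rfl) (fun _ => True) ?_]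
  · refine Nat.card_congr (Equiv.subtypeEquivRight fun φ => ?_)
    simp only [true_and, one_mul]
  · intro φ hφ
    refine iff_of_true ?_ trivial
    rintro h - x y hxy
    have h1 : ∀ x : (⊤ : Subgroup G), Subgroup.topEquiv.symm.symm x = (x : G) := fun _ => rfl
    simp only [h1]
    rw [hxy]
    exact irr_cl hφ h x

section base

variable (p : ℕ) (G : Type) [Group G]

/-- the base group -/
def bEq : (ZMod p → G) ≃* Base p G :=
  MonoidHom.ofInjective (f := (SemidirectProduct.inl : (ZMod p → G) →* Wr p G))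
    SemidirectProduct.inl_injective

theorem bEq_coe (a : ZMod p → G) : ((bEq p G a : Base p G) : Wr p G) = SemidirectProduct.inl a :=
  rfl

end base

section count

variable (h : S_PIR) (p : ℕ) [Fact p.Prime] (F : Type) [Field F] [IsAlgClosed F] [CharP F p]
  (G : Type) [Group G] [Finite G] (e : G → F) (he : IsIdem e)

include h he

theorem count1 : Nat.card {φ : (ZMod p → G) → F // IsIrrTrace φ ∧ True ∧
      ∀ x, ∑ᶠ g, tensF (fun _ => e) g * φ (g * x) = 1 * φ x} = Nat.card (A e) ^ p := by
  obtain ⟨h1, h2⟩ := h p F (ZMod p) G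
  let T : (ZMod p → A e) → {φ : (ZMod p → G) → F // IsIrrTrace φ ∧ True ∧
      ∀ x, ∑ᶠ g, tensF (fun _ => e) g * φ (g * x) = 1 * φ x} := fun θ =>
    ⟨tensF (fun i => (θ i).1), (h1 _).2 ⟨_, fun i => (θ i).2.1, rfl⟩, trivial,
      (key (fun i => (θ i).1) (fun i => (θ i).2.1) e he).2 fun i => (θ i).2.2⟩
  have hT : Function.Bijective T := by
    constructor
    · intro θ θ' hh
      have h3 := congrArg Subtype.val hh
      have h4 := h2 _ _ (fun i => (θ i).2.1) (fun i => (θ' i).2.1) h3
      funext i
      exact Subtype.ext (congrFun h4 i)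
    · rintro ⟨φ, hφ, -, hc⟩
      obtain ⟨θ, hθ, rfl⟩ := (h1 φ).1 hφ
      refine ⟨fun i => ⟨θ i, hθ i, (key θ hθ e he).1 hc i⟩, rfl⟩
  rw [← Nat.card_congr (Equiv.ofBijective T hT), Nat.card_fun, Nat.card_zmod]

theorem count2 : Nat.card {φ : (ZMod p → G) → F // IsIrrTrace φ ∧
      (∀ (t : ZMod p) (x : ZMod p → G), φ (fun i => x (i - t)) = φ x) ∧
      ∀ x, ∑ᶠ g, tensF (fun _ => e) g * φ (g * x) = 1 * φ x} = Nat.card (A e) := by
  obtain ⟨h1, h2⟩ := h p F (ZMod p) G
  have hs : ∀ (θ : ZMod p → G → F) (t : ZMod p) (x : ZMod p → G),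
      tensF θ (fun i => x (i - t)) = tensF (fun j => θ (j + t)) x := by
    intro θ t x
    unfold tensF
    rw [← Equiv.prod_comp (Equiv.addRight t)]
    refine Finset.prod_congr rfl fun i _ => ?_
    simp
  let T : A e → {φ : (ZMod p → G) → F // IsIrrTrace φ ∧
      (∀ (t : ZMod p) (x : ZMod p → G), φ (fun i => x (i - t)) = φ x) ∧
      ∀ x, ∑ᶠ g, tensF (fun _ => e) g * φ (g * x) = 1 * φ x} := fun θ =>
    ⟨tensF (fun _ => θ.1), (h1 _).2 ⟨_, fun i => θ.2.1, rfl⟩, fun t x => hs _ t x,
      (key (fun _ => θ.1) (fun i => θ.2.1) e he).2 fun i => θ.2.2⟩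
  have hT : Function.Bijective T := by
    constructor
    · intro θ θ' hh
      have h3 := congrArg Subtype.val hh
      have h4 := h2 _ _ (fun i => θ.2.1) (fun i => θ'.2.1) h3
      exact Subtype.ext (congrFun h4 0)
    · rintro ⟨φ, hφ, hi, hc⟩
      obtain ⟨θ, hθ, rfl⟩ := (h1 φ).1 hφ
      have h5 : ∀ t : ZMod p, (fun j => θ (j + t)) = θ := by
        intro t
        refine h2 _ _ (fun i => hθ _) hθ ?_
        funext x
        rw [← hs, hi]
      have h6 : θ = fun _ => θ 0 := by
        funext j
        have := congrFun (h5 j) 0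
        simp only [zero_add] at this
        exact this
      refine ⟨⟨θ 0, hθ 0, (key θ hθ e he).1 hc 0⟩, ?_⟩
      apply Subtype.ext
      exact congrArg tensF h6.symm
  rw [← Nat.card_congr (Equiv.ofBijective T hT)]

end count

theorem main (h : S_PIR) : S_LW := by
  intro p _ F _ _ _ G _ _ e he
  have hb : Nat.card (Base p G) = Nat.card G ^ p := by
    rw [← Nat.card_congr (bEq p G).toEquiv, Nat.card_fun, Nat.card_zmod]
  have hw : ∀ a : ZMod p → G, wrF p e ((bEq p G a : Base p G) : Wr p G) =
      tensF (fun _ => e) a := by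
    intro a
    rw [bEq_coe]
    unfold wrF tensF
    rw [SemidirectProduct.right_inl, if_pos rfl, SemidirectProduct.left_inl]
  constructor
  · unfold Lsum
    rw [if_pos (sup_idem _), inf_idem, Subgroup.card_top, hb]
    rw [lnum_card (⊤ : Subgroup (Base p G)) ⊤ ((bEq p G).trans Subgroup.topEquiv.symm)
      (fun x => wrF p e x) (tensF fun _ => e) 1 (fun a => hw a) (fun _ => True) ?_,
      count1 h p F G e he, card_A]
    · push_cast
      rfl
    · intro φ hφ
      refine iff_of_true ?_ trivial
      rintro k - x y hxy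
      have h1 : ((y : (⊤ : Subgroup (Base p G))) : Base p G) = k * x * k⁻¹ := hxy
      have h2 : ∀ x : (⊤ : Subgroup (Base p G)),
          ((bEq p G).trans Subgroup.topEquiv.symm).symm x = (bEq p G).symm (x : Base p G) :=
        fun _ => rfl
      simp only [h2]
      rw [h1, map_mul, map_mul, map_inv]
      exact irr_cl hφ _ _
  · unfold Lsum
    rw [if_pos (sup_top_eq _), inf_top_eq, Subgroup.card_top, SemidirectProduct.card]
    rw [lnum_card (Base p G) ⊤ (bEq p G) (wrF p e) (tensF fun _ => e) 1 hw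
      (fun φ => ∀ (t : ZMod p) (x : ZMod p → G), φ (fun i => x (i - t)) = φ x) ?_,
      count2 h p F G e he, card_A]
    · have h3 : Nat.card (Multiplicative (ZMod p)) = p := Nat.card_zmod p
      rw [h3, Nat.card_fun, Nat.card_zmod]
      push_cast
      ring
    · intro φ hφ
      constructor
      · intro hi t x
        have h4 : ((bEq p G (fun i => x (i - t)) : Base p G) : Wr p G) =
            (SemidirectProduct.inr (Multiplicative.ofAdd t) : Wr p G) *
              ((bEq p G x : Base p G) : Wr p G) *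
              (SemidirectProduct.inr (Multiplicative.ofAdd t) : Wr p G)⁻¹ := by
          rw [bEq_coe, bEq_coe, ← map_inv]
          exact SemidirectProduct.inl_aut (φ := shiftHom p G) (Multiplicative.ofAdd t) x
        have h5 := hi _ (Subgroup.mem_top _) _ _ h4
        simp only [MulEquiv.symm_apply_apply] at h5
        exact h5
      · rintro hi k - x y hxy
        obtain ⟨a, rfl⟩ := (bEq p G).surjective x
        obtain ⟨b, rfl⟩ := (bEq p G).surjective y
        simp only [MulEquiv.symm_apply_apply]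
        rw [bEq_coe, bEq_coe, ← SemidirectProduct.inl_left_mul_inr_right k] at hxy
        have h6 : (SemidirectProduct.inl b : Wr p G) = SemidirectProduct.inl
            (k.left * (shiftHom p G k.right a) * k.left⁻¹) := by
          rw [hxy, map_mul, map_mul, SemidirectProduct.inl_aut, map_inv, map_inv]
          group
        have h7 := SemidirectProduct.inl_injective h6
        rw [h7, irr_cl hφ]
        exact hi k.right.toAdd a

end Pool.Agent.N85.WM.Lw
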