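import Pool.Agent.N85.WM.Stm
import Pool.Agent.Y657.NV.Frob
import Pool.Agent.R663.KRB.Kdim
import Pool.Agent.Y210.NV2.NQ

/-!
# WM/DZT: the sum of the central characters of defect zero as a trace
-/

set_option autoImplicit false
set_option linter.unusedSectionVars false

open scoped Classical

noncomputable section

namespace Pool.Agent.N85.WM.Dzt

open Pool.Agent.Y63.NV
open Pool.Agent.Y63.AWC (IsIrreducibleCharacter DZ isIntegral_char)
open Pool.Agent.Y930.NV (Cf ind Cf_expand om om_sum irr_Cf irr_one_ne mk_out cv cv_eq_conv Cf_cv R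
  centralValue_eq cvh ind_cast om_ind redC_zero)
open Pool.Agent.Y657.NV (mm mm_nat mm_mul om_ind_int cc ccR mF_zero R_def)
open Pool.Agent.Helper884.IC (Irr mem_Irr)
open Pool.Agent.R663.KRB (scn Mt charpoly_three)

/-! ### `p`-elements -/

section pel

variable {K : Type} [Group K] (p : ℕ)

/-- the `p`-elements -/
def Pel (u : K) : Prop := ∃ k : ℕ, orderOf u = p ^ k

variable [hp : Fact p.Prime]

theorem pel_iff (u : K) : Pel p u ↔ ∃ k : ℕ, u ^ p ^ k = 1 := by
  constructor
  · rintro ⟨k, hk⟩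
    exact ⟨k, by rw [← hk]; exact pow_orderOf_eq_one u⟩
  · rintro ⟨k, hk⟩
    obtain ⟨j, _, hj⟩ := (Nat.dvd_prime_pow hp.out).1 (orderOf_dvd_of_pow_eq_one hk)
    exact ⟨j, hj⟩

theorem pel_conj (g u : K) : Pel p (g * u * g⁻¹) ↔ Pel p u := by
  rw [pel_iff, pel_iff]
  refine exists_congr fun k => ?_
  rw [conj_pow, conj_eq_one_iff]

theorem pel_mul {u v : K} (h : Commute u v) (hu : Pel p u) (hv : Pel p v) : Pel p (u * v) := by
  rw [pel_iff] at *
  obtain ⟨k, hk⟩ := hu
  obtain ⟨l, hl⟩ := hv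
  refine ⟨k + l, ?_⟩
  rw [h.mul_pow, pow_add, pow_mul, hk, one_pow, one_mul, mul_comm, pow_mul, hl, one_pow]

theorem pel_inv {u : K} (hu : Pel p u) : Pel p u⁻¹ := by
  rw [pel_iff] at *
  obtain ⟨k, hk⟩ := hu
  exact ⟨k, by rw [inv_pow, hk, inv_one]⟩

/-- the number of factorisations into two `p`-elements -/
theorem cnt [Fintype K] {y s : K} (hs : orderOf s = p) (hsy : s * y = y * s) :
    p ∣ Fintype.card {u : K // Pel p u ∧ Pel p (u⁻¹ * y)} := by
  have hsp : s ^ p = 1 := by rw [← hs]; exact pow_orderOf_eq_one s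
  have hsP : Pel p s := ⟨1, by rw [pow_one, hs]⟩
  have hs1 : s ≠ 1 := by
    intro h
    rw [h, orderOf_one] at hs
    exact hp.out.one_lt.ne hs
  have hsy' : s⁻¹ * y = y * s⁻¹ := by
    have : Commute s y := hsy
    exact this.inv_left.eq
  -- conjugation by `s`
  let f : Function.End {u : K // Pel p u ∧ Pel p (u⁻¹ * y)} := fun u =>
    ⟨s * u.1 * s⁻¹, (pel_conj p s u.1).2 u.2.1, by
      have e : (s * u.1 * s⁻¹)⁻¹ * y = s * (u.1⁻¹ * y) * s⁻¹ := by
        calc (s * u.1 * s⁻¹)⁻¹ * y = s * u.1⁻¹ * (s⁻¹ * y) := by group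
          _ = s * (u.1⁻¹ * y) * s⁻¹ := by rw [hsy']; group
      rw [e]
      exact (pel_conj p s _).2 u.2.2⟩
  have hf : ∀ (n : ℕ) (u : {u : K // Pel p u ∧ Pel p (u⁻¹ * y)}),
      ((f ^ n) u).1 = s ^ n * u.1 * (s ^ n)⁻¹ := by
    intro n
    induction n with
    | zero => intro u; rw [pow_zero, pow_zero, one_mul, inv_one, mul_one]; rfl
    | succ n ih =>
      intro u
      rw [pow_succ']
      show s * ((f ^ n) u).1 * s⁻¹ = _
      rw [ih, pow_succ']
      group
  have hfp : f ^ p ^ 1 = 1 := by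
    funext u
    apply Subtype.ext
    rw [hf, pow_one, hsp, one_mul, inv_one, mul_one]
    rfl
  have h1 := Equiv.Perm.card_fixedPoints_modEq (p := p) hfp
  -- multiplication by `s` on the fixed points
  let X2 : Type := {u : K // (Pel p u ∧ Pel p (u⁻¹ * y)) ∧ s * u = u * s}
  let g : Function.End X2 := fun u => ⟨u.1 * s, by
    obtain ⟨u, ⟨h2, h3⟩, h4⟩ := u
    have hc : Commute s u := h4
    refine ⟨⟨pel_mul p hc.symm h2 hsP, ?_⟩, ?_⟩
    · have e : (u * s)⁻¹ * y = (u⁻¹ * y) * s⁻¹ := by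
        calc (u * s)⁻¹ * y = s⁻¹ * u⁻¹ * y := by group
          _ = u⁻¹ * s⁻¹ * y := by rw [(hc.inv_left.inv_right).eq]
          _ = u⁻¹ * (s⁻¹ * y) := by group
          _ = _ := by rw [hsy']; group
      show Pel p ((u * s)⁻¹ * y)
      rw [e]
      refine pel_mul p ?_ h3 (pel_inv p hsP)
      have hy : Commute s y := hsy
      exact ((hc.inv_right.mul_right hy).inv_left).symm
    · show s * (u * s) = u * s * s
      rw [← mul_assoc, h4]⟩
  have hg : ∀ (n : ℕ) (u : X2), ((g ^ n) u).1 = u.1 * s ^ n := by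
    intro n
    induction n with
    | zero => intro u; rw [pow_zero, pow_zero, mul_one]; rfl
    | succ n ih =>
      intro u
      rw [pow_succ']
      show ((g ^ n) u).1 * s = _
      rw [ih, pow_succ, mul_assoc]
  have hgp : g ^ p ^ 1 = 1 := by
    funext u
    apply Subtype.ext
    rw [hg, pow_one, hsp, mul_one]
    rfl
  have h2 := Equiv.Perm.card_fixedPoints_modEq (p := p) hgp
  have h3 : Fintype.card g.fixedPoints = 0 := by
    rw [Fintype.card_eq_zero_iff]
    refine ⟨fun u => hs1 ?_⟩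
    have h4 : u.1.1 * s = u.1.1 := congrArg Subtype.val u.2
    exact mul_eq_left.1 h4
  have h4 : Fintype.card f.fixedPoints = Fintype.card X2 := by
    refine Fintype.card_congr ⟨fun u => ⟨u.1.1, u.1.2, ?_⟩, fun u => ⟨⟨u.1, u.2.1⟩, ?_⟩,
      fun u => rfl, fun u => rfl⟩
    · have h5 : s * u.1.1 * s⁻¹ = u.1.1 := congrArg Subtype.val u.2
      exact mul_inv_eq_iff_eq_mul.1 h5
    · apply Subtype.ext
      show s * u.1 * s⁻¹ = u.1
      exact mul_inv_eq_iff_eq_mul.2 u.2.2
  rw [h3] at h2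
  rw [h4] at h1
  exact (Nat.modEq_zero_iff_dvd).1 (h1.trans h2)

end pel

section main

variable {K : Type} [Group K] [Fintype K] {F : Type} [Field F] (p : ℕ) [hp : Fact p.Prime]

/-- the indicator function of the `p`-elements -/
def P1 (F : Type) [Field F] {K : Type} [Group K] : K → F := fun u => if Pel p u then 1 else 0

theorem Cf_P1 : Cf (P1 p F (K := K)) := by
  intro g x
  unfold P1
  rw [pel_conj]

theorem sq_zero [CharP F p] {y : K} (hy : p ∣ cc y) : cv (P1 p F) (P1 p F) y = 0 := by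
  obtain ⟨s, hs⟩ := exists_prime_orderOf_dvd_card' (G := Subgroup.centralizer ({y} : Set K)) p hy
  have hs1 : orderOf (s : K) = p := by rw [Subgroup.orderOf_coe, hs]
  have hs2 : (s : K) * y = y * s := Subgroup.mem_centralizer_singleton_iff.1 s.2
  have h1 := cnt p hs1 hs2
  have h2 : cv (P1 p F) (P1 p F) y =
      (Fintype.card {u : K // Pel p u ∧ Pel p (u⁻¹ * y)} : F) := by
    unfold cv P1
    rw [Fintype.card_subtype, Finset.card_filter, Nat.cast_sum]
    refine Finset.sum_congr rfl fun u _ => ?_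
    by_cases h3 : Pel p u
    · by_cases h4 : Pel p (u⁻¹ * y)
      · simp [h3, h4]
      · simp [h4]
    · simp [h3]
  rw [h2]
  exact (CharP.cast_eq_zero_iff F p _).2 h1

variable (red : integralClosure ℤ ℂ →+* F)

theorem cv_not_dz [CharP F p] {χ : K → ℂ} (h : IsIrreducibleCharacter χ) (hd : ¬ DZ p χ) :
    centralValue red χ (P1 p F) = 0 := by
  have h1 := (cvh F red K χ h).mul (P1 p F) (P1 p F) (Cf_P1 p) (Cf_P1 p)
  have h2 : centralValue red χ (conv (P1 p F) (P1 p F)) = 0 := by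
    rw [cv_eq_conv, centralValue_eq red h]
    refine Finset.sum_eq_zero fun C _ => ?_
    by_cases hC : p ∣ cc C.out
    · rw [sq_zero p hC, zero_mul]
    · have h3 := ccR red h C.out
      rw [mF_zero red h hd, zero_mul, mk_out] at h3
      have h4 : (cc C.out : F) ≠ 0 := fun h5 => hC ((CharP.cast_eq_zero_iff F p _).1 h5)
      rw [(mul_eq_zero.1 h3).resolve_left h4, mul_zero]
  rw [h2] at h1
  exact mul_self_eq_zero.1 h1.symm

theorem cv_dz (hV : S_VAN) {χ : K → ℂ} (h : IsWt p (⊥ : Subgroup K) χ) :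
    centralValue red χ (P1 p F) = 1 := by
  rw [← (cvh F red K χ h.irr).one, centralValue_eq red h.irr, centralValue_eq red h.irr]
  refine Finset.sum_congr rfl fun C _ => ?_
  by_cases hC : C.out = 1
  · rw [hC, Pi.single_eq_same]
    unfold P1
    rw [if_pos ⟨0, by rw [orderOf_one, pow_zero]⟩]
  · rw [Pi.single_eq_of_ne hC, zero_mul]
    unfold P1
    by_cases h1 : Pel p C.out
    · rw [if_pos h1, one_mul, R_def, om_ind χ (irr_Cf h.irr), hV p K χ h C.out, mul_zero, zero_div,
        redC_zero]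
      obtain ⟨k, hk⟩ := h1
      rw [hk]
      refine dvd_pow_self p ?_
      rintro rfl
      rw [pow_zero, orderOf_eq_one_iff] at hk
      exact hC hk
    · rw [if_neg h1, zero_mul]

theorem dz_iff {χ : K → ℂ} : IsWt p (⊥ : Subgroup K) χ ↔ IsIrreducibleCharacter χ ∧ DZ p χ := by
  constructor
  · intro h
    refine ⟨h.irr, ?_⟩
    obtain ⟨n, hn, h1⟩ := h.defectZero
    refine ⟨n, hn, ?_⟩
    rw [Subgroup.card_bot, Nat.factorization_one] at h1
    simpa using h1
  · rintro ⟨h, n, hn, h1⟩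
    refine ⟨h, ?_, n, hn, ?_⟩
    · intro q hq x
      rw [Subgroup.mem_bot.1 hq, one_mul]
    · rw [Subgroup.card_bot, Nat.factorization_one]
      simpa using h1

section tr

attribute [-instance] Pool.Agent.H254R3.IN.fintypeCC
attribute [-instance] Pool.Agent.H254R3.IN.decConj

/-- the trace of the matrix of the multiplication by a class function -/
theorem trace_Mt {w : K → F} (hw : Cf w) :
    (Mt (J := K) (fun E => w E.out)).trace =
      ∑ C : ConjClasses K, ∑ x : K, w x * ind F C (x * C.out) := by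
  unfold Matrix.trace
  refine Finset.sum_congr rfl fun C _ => ?_
  rw [Matrix.diag_apply, Mt, Matrix.sum_apply]
  have h1 : ∀ x : K, w x * ind F C (x * C.out) =
      ∑ E : ConjClasses K, w E.out * ind F E x * ind F C (x * C.out) := by
    intro x
    conv_lhs => rw [Cf_expand hw x, Finset.sum_mul]
  rw [Finset.sum_congr rfl fun x _ => h1 x, Finset.sum_comm]
  refine Finset.sum_congr rfl fun E _ => ?_
  rw [Matrix.smul_apply, smul_eq_mul, scn, Finset.mul_sum]
  exact Finset.sum_congr rfl fun x _ => by ring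

theorem sum_cv (w : K → F) :
    ∑ χ : {χ : K → ℂ // χ ∈ Irr K}, centralValue red χ.1 w =
      (Mt (J := K) (fun E => w E.out)).trace := by
  have h1 := charpoly_three red w
  have h2 : (Mt (J := K) (fun E => w E.out)).charpoly.Splits := by
    rw [h1]
    exact Polynomial.Splits.prod fun χ _ => Polynomial.Splits.X_sub_C _
  rw [Matrix.trace_eq_sum_roots_charpoly_of_splits h2, h1]
  have h3 : (∏ χ : {χ : K → ℂ // χ ∈ Irr K}, (Polynomial.X -
      Polynomial.C (centralValue red χ.1 w))).roots =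
      (Finset.univ : Finset {χ : K → ℂ // χ ∈ Irr K}).val.map
        (fun χ => centralValue red χ.1 w) := by
    rw [← Polynomial.roots_multiset_prod_X_sub_C ((Finset.univ :
      Finset {χ : K → ℂ // χ ∈ Irr K}).val.map (fun χ => centralValue red χ.1 w)),
      Multiset.map_map]
    rfl
  rw [h3]
  rfl

theorem sum_cv' {w : K → F} (hw : Cf w) :
    ∑ χ : {χ : K → ℂ // χ ∈ Irr K}, centralValue red χ.1 w =
      ∑ᶠ C : ConjClasses K, ∑ x : K, w x * ind F C (x * C.out) := by
  rw [sum_cv, trace_Mt hw, finsum_eq_sum_of_fintype]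

end tr

end main

theorem main (hV : S_VAN) : S_DZT := by
  intro p hp F _ _ red K _ _ f hf
  have hfin : Fintype K := Fintype.ofFinite K
  -- the left-hand side as a sum over all irreducible characters
  have h1 : ∑ᶠ χ : {χ : K → ℂ // IsWt p (⊥ : Subgroup K) χ}, centralValue red χ.1 f =
      ∑ χ : {χ : K → ℂ // χ ∈ Irr K}, centralValue red χ.1 (conv (P1 p F) f) := by
    have e1 : ∀ χ : {χ : K → ℂ // χ ∈ Irr K}, centralValue red χ.1 (conv (P1 p F) f) =
        if DZ p χ.1 then centralValue red χ.1 f else 0 := by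
      intro χ
      have hi : IsIrreducibleCharacter χ.1 := mem_Irr.mp χ.2
      rw [(cvh F red K χ.1 hi).mul (P1 p F) f (Cf_P1 p) hf]
      by_cases hd : DZ p χ.1
      · rw [if_pos hd, cv_dz p red hV ((dz_iff p).2 ⟨hi, hd⟩), one_mul]
      · rw [if_neg hd, cv_not_dz p red hi hd, zero_mul]
    rw [Finset.sum_congr rfl fun χ _ => e1 χ,
      Finset.sum_coe_sort (Irr K) (fun χ => if DZ p χ then centralValue red χ f else 0),
      ← Finset.sum_filter, ← Finset.sum_coe_sort, ← finsum_eq_sum_of_fintype]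
    refine finsum_eq_of_bijective (fun χ => ⟨χ.1, ?_⟩) ⟨?_, ?_⟩ fun χ => rfl
    · rw [Finset.mem_filter]
      have h2 := (dz_iff p).1 χ.2
      exact ⟨mem_Irr.mpr h2.1, h2.2⟩
    · intro χ χ' h
      apply Subtype.ext
      exact congrArg (fun x => x.1) h
    · rintro ⟨χ, hχ⟩
      rw [Finset.mem_filter] at hχ
      exact ⟨⟨χ, (dz_iff p).2 ⟨mem_Irr.mp hχ.1, hχ.2⟩⟩, rfl⟩
  rw [h1, cv_eq_conv, sum_cv' red (Cf_cv (Cf_P1 p) hf)]
  refine finsum_congr fun C => ?_
  rw [finsum_eq_sum_of_fintype]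
  simp_rw [finsum_eq_sum_of_fintype]
  unfold cv
  have h2 : ∀ x : K, (∑ u : K, P1 p F u * f (u⁻¹ * x)) * ind F C (x * C.out) =
      ∑ u : K, P1 p F u * f (u⁻¹ * x) * ind F C (x * C.out) := fun x => Finset.sum_mul _ _ _
  rw [Finset.sum_congr rfl fun x _ => h2 x, Finset.sum_comm]
  refine Finset.sum_congr rfl fun u _ => ?_
  refine Fintype.sum_equiv (Equiv.mulLeft u⁻¹) _ _ fun x => ?_
  show P1 p F u * f (u⁻¹ * x) * ind F C (x * C.out) = if (∃ k : ℕ, orderOf u = p ^ k) ∧
    IsConj (u * (u⁻¹ * x) * C.out) C.out then f (u⁻¹ * x) else 0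
  rw [mul_inv_cancel_left]
  have h4 : ConjClasses.mk (x * C.out) = C ↔ IsConj (x * C.out) C.out := by
    conv_lhs => rhs; rw [← mk_out C]
    exact ConjClasses.mk_eq_mk_iff_isConj
  have h3 : ind F C (x * C.out) = if IsConj (x * C.out) C.out then 1 else 0 := by
    by_cases h5 : IsConj (x * C.out) C.out
    · rw [if_pos h5]
      exact if_pos (h4.2 h5)
    · rw [if_neg h5]
      exact if_neg (fun h => h5 (h4.1 h))
  rw [h3]
  unfold P1
  by_cases h4 : Pel p u
  · have h4' : ∃ k : ℕ, orderOf u = p ^ k := h4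
    by_cases h5 : IsConj (x * C.out) C.out
    · rw [if_pos h4, if_pos h5, if_pos (And.intro h4' h5), one_mul, mul_one]
    · rw [if_neg h5, mul_zero, if_neg (fun h : (_ ∧ _) => h5 h.2)]
  · have h4' : ¬ ∃ k : ℕ, orderOf u = p ^ k := h4
    rw [if_neg h4, zero_mul, zero_mul, if_neg (fun h : (_ ∧ _) => h4' h.1)]

theorem dzq (h : S_DZT) : S_DZQ := by
  intro p hp F _ _ red J _ _ Q _ f hf
  have hfin : Fintype J := Fintype.ofFinite J
  have hfin2 : Fintype (J ⧸ Q) := Fintype.ofFinite _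
  set π : J →* J ⧸ Q := QuotientGroup.mk' Q with hπ
  have hs : Function.Surjective π := QuotientGroup.mk'_surjective Q
  have hQ : Q = (⊥ : Subgroup (J ⧸ Q)).comap π := by
    rw [hπ, MonoidHom.comap_bot, QuotientGroup.ker_mk']
  set f' : J ⧸ Q → F := fun y => ∑ᶠ x : J, @ite F (π x = y) (Classical.propDecidable _) (f x) 0
    with hf'
  have hf'c : IsClassFun f' := by
    intro a y
    obtain ⟨g, rfl⟩ := hs a
    show ∑ᶠ x : J, @ite F (π x = π g * y * (π g)⁻¹) (Classical.propDecidable _) (f x) 0 =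
      ∑ᶠ x : J, @ite F (π x = y) (Classical.propDecidable _) (f x) 0
    symm
    refine finsum_eq_of_bijective (fun x => g * x * g⁻¹) (MulAut.conj g).bijective fun x => ?_
    have h1 : π (g * x * g⁻¹) = π g * y * (π g)⁻¹ ↔ π x = y := by
      rw [map_mul, map_mul, map_inv]
      constructor
      · intro h2
        exact mul_left_cancel (mul_right_cancel h2)
      · intro h2
        rw [h2]
    by_cases h2 : π x = y
    · rw [if_pos h2, if_pos (h1.2 h2), hf g x]
    · rw [if_neg h2, if_neg (fun h => h2 (h1.1 h))]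
  have h1 : ∑ᶠ χ : {χ : J → ℂ // IsWt p Q χ}, centralValue red χ.1 f =
      ∑ᶠ χ : {χ : J ⧸ Q → ℂ // IsWt p (⊥ : Subgroup (J ⧸ Q)) χ}, centralValue red χ.1 f' := by
    symm
    refine finsum_eq_of_bijective (fun χ => ⟨fun x => χ.1 (π x), ?_⟩) ⟨?_, ?_⟩ fun χ => ?_
    · have h2 := (Pool.Agent.Y210.NV3.wt_iff π hs p ⊥ χ.1).2 χ.2
      rwa [← hQ] at h2
    · intro χ χ' h2
      apply Subtype.ext
      funext y
      obtain ⟨x, rfl⟩ := hs y
      exact congrFun (congrArg Subtype.val h2) x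
    · rintro ⟨χ, h2⟩
      have h3 : IsWt p ((⊥ : Subgroup (J ⧸ Q)).comap π) χ := by rwa [← hQ]
      obtain ⟨χ', rfl⟩ := Pool.Agent.Y210.NV3.wt_exists π hs p ⊥ h3
      exact ⟨⟨χ', (Pool.Agent.Y210.NV3.wt_iff π hs p ⊥ χ').1 h3⟩, rfl⟩
    · have h2 := (Pool.Agent.Y930.NV.inf F red J (J ⧸ Q) π χ.1 f hs χ.2.irr hf).symm
      exact h2
  rw [h1, h p F red (J ⧸ Q) f' hf'c]
  refine finsum_congr fun C => finsum_congr fun u => ?_
  rw [finsum_eq_sum_of_fintype, finsum_eq_sum_of_fintype]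
  have h2 : ∀ y : J ⧸ Q, (if (∃ k : ℕ, orderOf u = p ^ k) ∧ IsConj (u * y * C.out) C.out then f' y
      else 0) = ∑ x : J, if π x = y then (if (∃ k : ℕ, orderOf u = p ^ k) ∧
        IsConj (u * π x * C.out) C.out then f x else 0) else 0 := by
    intro y
    rw [hf']
    simp only
    rw [finsum_eq_sum_of_fintype]
    by_cases h3 : (∃ k : ℕ, orderOf u = p ^ k) ∧ IsConj (u * y * C.out) C.out
    · rw [if_pos h3]
      refine Finset.sum_congr rfl fun x _ => ?_
      by_cases h4 : π x = y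
      · rw [if_pos h4, if_pos h4, h4, if_pos h3]
      · rw [if_neg h4, if_neg h4]
    · rw [if_neg h3]
      symm
      refine Finset.sum_eq_zero fun x _ => ?_
      by_cases h4 : π x = y
      · rw [if_pos h4, h4, if_neg h3]
      · rw [if_neg h4]
  rw [Finset.sum_congr rfl fun y _ => h2 y, Finset.sum_comm]
  refine Finset.sum_congr rfl fun x _ => ?_
  rw [Finset.sum_ite_eq, if_pos (Finset.mem_univ _)]
  rfl

end Pool.Agent.N85.WM.Dzt
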