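import Pool.Agent.N85.WM.Stm
import Pool.Agent.Y657.NV.Frob
import Pool.Agent.N20.Sub1

/-!
# WM/VAN: characters of defect zero vanish at the `p`-singular elements
-/

set_option autoImplicit false
set_option linter.unusedSectionVars false

open scoped Classical

noncomputable section

namespace Pool.Agent.N85.WM.Van

open Pool.Agent.Y63.NV
open Pool.Agent.Y63.AWC (IsIrreducibleCharacter DZ isIntegral_char)
open Pool.Agent.Y930.NV (Cf ind Cf_expand om om_sum irr_Cf irr_one_ne mk_out)
open Pool.Agent.Y657.NV (mm mm_nat mm_mul om_ind_int)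
open Pool.Agent.N20 (B_cut_int)
open Pool.Agent.Helper884

variable {K : Type} [Group K] [Fintype K]

/-- the value of the central character at an integral class function -/
theorem om_integral {χ : K → ℂ} (h : IsIrreducibleCharacter χ) {f : K → ℂ} (hf : Cf f)
    (hi : ∀ g, IsIntegral ℤ (f g)) : IsIntegral ℤ (om χ f) := by
  have h1 : f = fun g => ∑ C : ConjClasses K, f C.out * ind ℂ C g := by
    funext g
    refine (Cf_expand hf g).trans (Finset.sum_congr ?_ fun _ _ => rfl)
    ext C
    simp only [Finset.mem_univ]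
  rw [h1, om_sum]
  refine IsIntegral.sum _ fun C _ => ?_
  exact (hi _).mul (om_ind_int h C)

/-- an integer from `m n / q` integral, `m` and `q` coprime -/
theorem dvd_of_integral {m q : ℕ} {n : ℤ} (hq : q ≠ 0) (hc : Nat.Coprime m q) {t : ℂ}
    (h1 : IsIntegral ℤ ((m : ℂ) * t)) (h2 : (q : ℂ) * t = n) : ∃ k : ℤ, t = k := by
  have hq0 : (q : ℂ) ≠ 0 := by exact_mod_cast hq
  have h3 : (m : ℂ) * t = algebraMap ℚ ℂ ((m * n : ℚ) / q) := by
    rw [map_div₀, map_mul, map_natCast, map_intCast, map_natCast, ← h2]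
    field_simp
  rw [h3, isIntegral_algebraMap_iff (algebraMap ℚ ℂ).injective] at h1
  obtain ⟨k, hk⟩ := IsIntegrallyClosed.isIntegral_iff.1 h1
  have hq1 : (q : ℚ) ≠ 0 := by exact_mod_cast hq
  have h4 : (k : ℚ) * q = m * n := by
    have : (k : ℚ) = (m * n : ℚ) / q := hk
    rw [this]
    field_simp
  have h5 : k * (q : ℤ) = m * n := by exact_mod_cast h4
  have h6 : (q : ℤ) ∣ n := by
    have h7 : (q : ℤ) ∣ m * n := ⟨k, by rw [← h5]; ring⟩
    exact IsCoprime.dvd_of_dvd_mul_left (Nat.isCoprime_iff_coprime.2 hc.symm) h7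
  obtain ⟨l, rfl⟩ := h6
  refine ⟨l, ?_⟩
  have h8 : (q : ℂ) * t = q * l := by rw [h2]; push_cast; ring
  exact mul_left_cancel₀ hq0 h8

theorem main : S_VAN := by
  intro p hp K _ _ χ hχ x hx
  have hfin : Fintype K := Fintype.ofFinite K
  have hirr : IsIrreducibleCharacter χ := hχ.irr
  have hdz : DZ p χ := by
    obtain ⟨n, hn, h⟩ := hχ.defectZero
    refine ⟨n, hn, ?_⟩
    rw [Subgroup.card_bot, Nat.factorization_one] at h
    simpa using h
  obtain ⟨m, hm, hm2⟩ := mm_nat hirr
  have hpm : ¬ p ∣ m := (hm2 p hp.out).2 hdz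
  obtain ⟨n, hn⟩ := B_cut_int hp.out (χ := χ) (ψ := χ) hirr hirr
  -- the function
  set t : ℂ := IC.B (Pool.Agent.N20.cut p χ) χ with ht
  have hcf : Cf (fun g => Pool.Agent.N20.cut p χ g⁻¹) := by
    intro g y
    show Pool.Agent.N20.cut p χ (g * y * g⁻¹)⁻¹ = Pool.Agent.N20.cut p χ y⁻¹
    have e : (g * y * g⁻¹)⁻¹ = g * y⁻¹ * g⁻¹ := by group
    have h1 : orderOf (g * y⁻¹ * g⁻¹) = orderOf y⁻¹ := by
      have := orderOf_injective (MulAut.conj g).toMonoidHom (MulAut.conj g).injective y⁻¹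
      simpa using this
    rw [e]
    unfold Pool.Agent.N20.cut
    rw [h1, irr_Cf hirr]
  have h1 : (m : ℂ) * t = om χ (fun g => Pool.Agent.N20.cut p χ g⁻¹) := by
    rw [← hm, ht]
    unfold mm IC.B om
    have h2 : ∑ g : K, Pool.Agent.N20.cut p χ g * χ g⁻¹ = ∑ g : K, Pool.Agent.N20.cut p χ g⁻¹ * χ g :=
      Fintype.sum_equiv (Equiv.inv K) _ _ fun g => by
        show Pool.Agent.N20.cut p χ g * χ g⁻¹ = Pool.Agent.N20.cut p χ (g⁻¹)⁻¹ * χ g⁻¹
        rw [inv_inv]
    rw [h2]
    have h3 : (Nat.card K : ℂ) ≠ 0 := by exact_mod_cast Nat.card_pos.ne'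
    have h4 := irr_one_ne hirr
    field_simp
  have h2 : IsIntegral ℤ ((m : ℂ) * t) := by
    rw [h1]
    refine om_integral hirr hcf fun g => ?_
    show IsIntegral ℤ (Pool.Agent.N20.cut p χ g⁻¹)
    unfold Pool.Agent.N20.cut
    split_ifs
    · exact isIntegral_zero
    · exact isIntegral_char hirr _
  obtain ⟨k, hk⟩ := dvd_of_integral (m := m) (q := p ^ (Nat.card K).factorization p) (n := n)
    (pow_ne_zero _ hp.out.ne_zero)
    (Nat.Coprime.pow_right _ ((Nat.Prime.coprime_iff_not_dvd hp.out).2 hpm).symm) h2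
    (by rw [← hn]; push_cast; rfl)
  -- sums of squares
  have hsq : ∀ g, χ g * χ g⁻¹ = ((Complex.normSq (χ g) : ℝ) : ℂ) := by
    intro g
    rw [Pool.Agent.Y62.conj_char hirr, Complex.mul_conj]
  have hB : ∑ g : K, Complex.normSq (χ g) = (Nat.card K : ℝ) := by
    have h3 := IC.B_irr (chi := χ) (psi := χ) hirr hirr
    rw [if_pos rfl] at h3
    unfold IC.B at h3
    rw [Finset.sum_congr rfl fun g _ => hsq g] at h3
    have h4 : (Nat.card K : ℂ) ≠ 0 := by exact_mod_cast Nat.card_pos.ne'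
    rw [inv_mul_eq_iff_eq_mul₀ h4, mul_one, ← Complex.ofReal_sum] at h3
    exact_mod_cast h3
  have hT : ∑ g : K, (if p ∣ orderOf g then 0 else Complex.normSq (χ g)) =
      (Nat.card K : ℝ) * k := by
    have h3 : (Nat.card K : ℂ) * t = ∑ g : K, Pool.Agent.N20.cut p χ g * χ g⁻¹ := by
      rw [ht]
      unfold IC.B
      rw [mul_inv_cancel_left₀]
      exact_mod_cast Nat.card_pos.ne'
    have h4 : ∀ g, Pool.Agent.N20.cut p χ g * χ g⁻¹ =
        (((if p ∣ orderOf g then 0 else Complex.normSq (χ g) : ℝ)) : ℂ) := by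
      intro g
      unfold Pool.Agent.N20.cut
      split_ifs
      · rw [zero_mul, Complex.ofReal_zero]
      · exact hsq g
    rw [Finset.sum_congr rfl fun g _ => h4 g, ← Complex.ofReal_sum, hk] at h3
    have h5 : (Nat.card K : ℝ) * k = ∑ g : K, (if p ∣ orderOf g then 0 else Complex.normSq (χ g)) := by
      exact_mod_cast h3
    exact h5.symm
  have hpos : 0 < ∑ g : K, (if p ∣ orderOf g then 0 else Complex.normSq (χ g)) := by
    refine Finset.sum_pos' (fun g _ => ?_) ⟨1, Finset.mem_univ _, ?_⟩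
    · split_ifs
      · exact le_refl _
      · exact Complex.normSq_nonneg _
    · rw [orderOf_one, if_neg (fun h => hp.out.one_lt.ne' (Nat.dvd_one.1 h))]
      · exact Complex.normSq_pos.2 (irr_one_ne hirr)
  have hle : ∑ g : K, (if p ∣ orderOf g then 0 else Complex.normSq (χ g)) ≤
      ∑ g : K, Complex.normSq (χ g) := by
    refine Finset.sum_le_sum fun g _ => ?_
    split_ifs
    · exact Complex.normSq_nonneg _
    · exact le_refl _
  have hK : (0 : ℝ) < Nat.card K := by exact_mod_cast Nat.card_pos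
  have hk1 : k = 1 := by
    rw [hT] at hpos
    rw [hT, hB] at hle
    have h3 : (0 : ℝ) < k := by
      by_contra hcon
      push Not at hcon
      have := mul_nonpos_of_nonneg_of_nonpos hK.le hcon
      linarith
    have h4 : (k : ℝ) ≤ 1 := by
      by_contra hcon
      push Not at hcon
      have := mul_lt_mul_of_pos_left hcon hK
      linarith
    have h5 : 0 < k := by exact_mod_cast h3
    have h6 : k ≤ 1 := by exact_mod_cast h4
    omega
  rw [hk1, Int.cast_one, mul_one, ← hB] at hT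
  have hzero : ∑ g : K, (Complex.normSq (χ g) -
      (if p ∣ orderOf g then 0 else Complex.normSq (χ g))) = 0 := by
    rw [Finset.sum_sub_distrib, hT, sub_self]
  rw [Finset.sum_eq_zero_iff_of_nonneg] at hzero
  · have h3 := hzero x (Finset.mem_univ _)
    rw [if_pos hx, sub_zero] at h3
    exact Complex.normSq_eq_zero.1 h3
  · intro g _
    split_ifs
    · rw [sub_zero]; exact Complex.normSq_nonneg _
    · rw [sub_self]

end Pool.Agent.N85.WM.Van
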