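import Pool.Agent.N85.WM.Stm
import Pool.Agent.Y63.NV.Final
import Pool.Agent.Y63.NV.Brq77
import Pool.Agent.Y914.NV.Irr
import Pool.Agent.Y705.NV.Ppt

/-!
# Project WM, part PIR: the irreducible traces of a direct power
-/

set_option autoImplicit false
set_option linter.unusedSectionVars false

open scoped Classical BigOperators TensorProduct MonoidAlgebra

noncomputable section

namespace Pool.Agent.N85.WM.Pir

open Pool.Agent.Y63.NV
open Pool.Agent.Y63.NV.B77 (Irr coef_ex irr_fin irr_conj)

section burnside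

variable {F : Type} [Field F] [IsAlgClosed F] {G : Type} [Group G] [Fintype G]
  {V : Type} [AddCommGroup V] [Module F V] [FiniteDimensional F V]

/-- every endomorphism is a combination of the operators of an irreducible representation -/
theorem burnG (ρ : Representation F G V) (hρ : ρ.IsIrreducible) (P : V →ₗ[F] V) :
    ∃ a : G → F, P = ∑ g, a g • ρ g := by
  have := hρ
  obtain ⟨x, hx⟩ := Pool.Agent.Y914.NV.burn (F := F) (A := F[G]) (V := ρ.asModule)
    ((ρ.asModuleEquiv.symm : V →ₗ[F] ρ.asModule) ∘ₗ P ∘ₗ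
      (ρ.asModuleEquiv : ρ.asModule →ₗ[F] V))
  have h1 : ρ.asAlgebraHom x = P := by
    ext w
    rw [Pool.Agent.Y914.NV.act, hx]
    simp
  obtain ⟨a, ha⟩ := Pool.Agent.Y914.NV.expand x
  refine ⟨a, ?_⟩
  rw [← h1, ha, map_sum]
  refine Finset.sum_congr rfl fun g _ => ?_
  rw [Representation.asAlgebraHom_single]

end burnside

section rep

variable {F : Type} [Field F] {ι G : Type} [Fintype ι] [Group G]
  {V : ι → Type} [∀ i, AddCommGroup (V i)] [∀ i, Module F (V i)]

/-- the tensor product of representations -/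
def piRep (ρ : ∀ i, Representation F G (V i)) : Representation F (ι → G) (⨂[F] i, V i) where
  toFun g := PiTensorProduct.map (fun i => ρ i (g i))
  map_one' := by
    simp only [Pi.one_apply, map_one]
    exact PiTensorProduct.map_one
  map_mul' x y := by
    simp only [Pi.mul_apply, map_mul]
    exact PiTensorProduct.map_mul _ _

variable [∀ i, FiniteDimensional F (V i)]

theorem fin_pi : FiniteDimensional F (⨂[F] i, V i) :=
  Module.Finite.of_basis (Basis.piTensorProduct fun i => Module.finBasis F (V i))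

theorem trace_pi (f : ∀ i, V i →ₗ[F] V i) :
    LinearMap.trace F (⨂[F] i, V i) (PiTensorProduct.map f) =
      ∏ i, LinearMap.trace F (V i) (f i) := by
  have hb := fun i => Module.finBasis F (V i)
  rw [LinearMap.trace_eq_matrix_trace F (Basis.piTensorProduct hb), Matrix.trace]
  have h1 : ∀ i, LinearMap.trace F (V i) (f i) =
      ∑ k, (hb i).repr (f i (hb i k)) k := by
    intro i
    rw [LinearMap.trace_eq_matrix_trace F (hb i), Matrix.trace]
    refine Finset.sum_congr rfl fun k _ => ?_
    rw [Matrix.diag_apply, LinearMap.toMatrix_apply]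
  rw [Finset.prod_congr rfl fun i _ => h1 i, Finset.prod_univ_sum, Fintype.piFinset_univ]
  refine Finset.sum_congr rfl fun p _ => ?_
  rw [Matrix.diag_apply, LinearMap.toMatrix_apply, Basis.piTensorProduct_apply,
    PiTensorProduct.map_tprod, Basis.piTensorProduct_repr_tprod_apply]

theorem piRep_char (ρ : ∀ i, Representation F G (V i)) :
    (piRep ρ).character = tensF fun i => (ρ i).character := by
  funext g
  exact trace_pi fun i => ρ i (g i)

theorem map_rank {κ : ι → Type} (b : ∀ i, Module.Basis (κ i) F (V i)) (k : ∀ i, κ i)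
    (v : ∀ i, V i) :
    PiTensorProduct.map (fun i => ((b i).coord (k i)).smulRight (v i)) =
      ((Basis.piTensorProduct b).coord k).smulRight (PiTensorProduct.tprod F v) := by
  apply PiTensorProduct.ext
  ext w
  show PiTensorProduct.map (fun i => ((b i).coord (k i)).smulRight (v i))
      (PiTensorProduct.tprod F w) =
    ((Basis.piTensorProduct b).coord k).smulRight (PiTensorProduct.tprod F v)
      (PiTensorProduct.tprod F w)
  rw [PiTensorProduct.map_tprod, LinearMap.smulRight_apply, Module.Basis.coord_apply,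
    Basis.piTensorProduct_repr_tprod_apply, ← MultilinearMap.map_smul_univ]
  rfl

variable [IsAlgClosed F] [Fintype G]

theorem map_mem (ρ : ∀ i, Representation F G (V i)) (hρ : ∀ i, (ρ i).IsIrreducible)
    (U : Subrepresentation (piRep ρ)) (P : ∀ i, V i →ₗ[F] V i) (u : ⨂[F] i, V i)
    (hu : u ∈ U.toSubmodule) : PiTensorProduct.map P u ∈ U.toSubmodule := by
  choose a ha using fun i => burnG (ρ i) (hρ i) (P i)
  have h1 : PiTensorProduct.map P = ∑ x : ι → G, (∏ i, a i (x i)) • piRep ρ x := by
    have h2 : P = fun i => ∑ g, a i g • ρ i g := funext ha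
    have h3 := (PiTensorProduct.mapMultilinear F V V).map_sum (fun i g => a i g • ρ i g)
    rw [h2]
    refine Eq.trans h3 (Finset.sum_congr rfl fun x _ => ?_)
    exact (PiTensorProduct.mapMultilinear F V V).map_smul_univ (fun i => a i (x i))
      (fun i => ρ i (x i))
  rw [h1, LinearMap.sum_apply]
  refine Submodule.sum_mem _ fun x _ => ?_
  rw [LinearMap.smul_apply]
  exact Submodule.smul_mem _ _ (U.apply_mem_toSubmodule x hu)

theorem piRep_irr (ρ : ∀ i, Representation F G (V i)) (hρ : ∀ i, (ρ i).IsIrreducible) :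
    (piRep ρ).IsIrreducible := by
  have hnt : ∀ i, Nontrivial (V i) := fun i => by
    have := hρ i
    exact IsSimpleModule.nontrivial F[G] (ρ i).asModule
  have hk : ∀ i, Nonempty (Fin (Module.finrank F (V i))) := fun i =>
    Fin.pos_iff_nonempty.1 (Module.finrank_pos (R := F) (M := V i))
  let b := fun i => Module.finBasis F (V i)
  let k0 : ∀ i, Fin (Module.finrank F (V i)) := fun i => (hk i).some
  refine { exists_pair_ne := ⟨⊥, ⊤, ?_⟩, eq_bot_or_eq_top := fun U => ?_ }
  · intro h
    have h1 : (Basis.piTensorProduct b k0 : ⨂[F] i, V i) ∈ (⊤ : Submodule F (⨂[F] i, V i)) :=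
      Submodule.mem_top
    have h2 : (⊥ : Submodule F (⨂[F] i, V i)) = ⊤ :=
      congrArg Subrepresentation.toSubmodule h
    rw [← h2, Submodule.mem_bot] at h1
    exact (Basis.piTensorProduct b).ne_zero k0 h1
  · by_cases hU : U.toSubmodule = ⊥
    · exact Or.inl (Subrepresentation.toSubmodule_injective hU)
    · right
      obtain ⟨u, hu, hu0⟩ := Submodule.exists_mem_ne_zero_of_ne_bot hU
      obtain ⟨k, hk⟩ : ∃ k, (Basis.piTensorProduct b).repr u k ≠ 0 := by
        by_contra hcon
        push Not at hcon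
        exact hu0 ((Basis.piTensorProduct b).repr.map_eq_zero_iff.1 (Finsupp.ext hcon))
      have h1 : ∀ v : ∀ i, V i, PiTensorProduct.tprod F v ∈ U.toSubmodule := by
        intro v
        have h2 := map_mem ρ hρ U (fun i => ((b i).coord (k i)).smulRight (v i)) u hu
        rw [map_rank, LinearMap.smulRight_apply, Module.Basis.coord_apply] at h2
        exact (Submodule.smul_mem_iff _ hk).1 h2
      apply Subrepresentation.toSubmodule_injective
      show U.toSubmodule = ⊤
      rw [eq_top_iff, ← PiTensorProduct.span_tprod_eq_top, Submodule.span_le]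
      rintro _ ⟨v, rfl⟩
      exact h1 v

end rep

section traces

variable {F : Type} [Field F] [IsAlgClosed F] {ι G : Type} [Fintype ι] [Group G]

/-- products of irreducible traces are irreducible traces -/
theorem tensF_irr [Finite G] {θ : ι → G → F} (h : ∀ i, IsIrrTrace (θ i)) :
    IsIrrTrace (tensF θ) := by
  haveI := Fintype.ofFinite G
  choose V i1 i2 i3 ρ hρ hχ using h
  have hθ : θ = fun i => (ρ i).character := funext hχ
  refine ⟨⨂[F] i, V i, inferInstance, inferInstance, fin_pi, piRep ρ, piRep_irr ρ hρ, ?_⟩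
  rw [piRep_char, hθ]

/-- dual functionals -/
theorem dual {N : Type} [Group N] [Fintype N] {φ : N → F} (hφ : IsIrrTrace φ) :
    ∃ l : N → F, (∑ x, l x * φ x = 1) ∧
      ∀ ψ : N → F, IsIrrTrace ψ → ψ ≠ φ → ∑ x, l x * ψ x = 0 := by
  have hli := (Pool.Agent.Y914.NV.irr F N).2
  obtain ⟨g, hg⟩ := LinearMap.exists_leftInverse_of_injective
    (Finsupp.linearCombination F (fun φ : {φ : N → F // IsIrrTrace φ} => φ.1))
    (LinearMap.ker_eq_bot.2 hli)
  have h1 : ∀ ψ : {φ : N → F // IsIrrTrace φ}, g ψ.1 = Finsupp.single ψ 1 := by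
    intro ψ
    have h2 := LinearMap.congr_fun hg (Finsupp.single ψ 1)
    rw [LinearMap.comp_apply, Finsupp.linearCombination_single, one_smul] at h2
    exact h2
  let L : (N → F) →ₗ[F] F := (Finsupp.lapply (⟨φ, hφ⟩ : {φ : N → F // IsIrrTrace φ})) ∘ₗ g
  have h3 : ∀ f : N → F, ∑ x, L (fun j => if x = j then 1 else 0) * f x = L f := by
    intro f
    rw [LinearMap.pi_apply_eq_sum_univ L f]
    refine Finset.sum_congr rfl fun x _ => ?_
    rw [smul_eq_mul, mul_comm]
  refine ⟨fun x => L (fun j => if x = j then 1 else 0), ?_, fun ψ hψ hne => ?_⟩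
  · rw [h3 φ]
    show (g φ) ⟨φ, hφ⟩ = 1
    rw [h1 ⟨φ, hφ⟩, Finsupp.single_eq_same]
  · rw [h3 ψ]
    show (g ψ) ⟨φ, hφ⟩ = 0
    rw [h1 ⟨ψ, hψ⟩]
    apply Finsupp.single_eq_of_ne
    intro h
    exact hne (congrArg Subtype.val h).symm

theorem sum_tensF [Fintype G] (l θ : ι → G → F) :
    ∑ x : ι → G, (∏ i, l i (x i)) * tensF θ x = ∏ i, ∑ x, l i x * θ i x := by
  unfold tensF
  rw [Finset.prod_univ_sum, Fintype.piFinset_univ]
  exact Finset.sum_congr rfl fun x _ => Finset.prod_mul_distrib.symm

theorem tensF_inj [Finite G] {θ θ' : ι → G → F} (h : ∀ i, IsIrrTrace (θ i))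
    (h' : ∀ i, IsIrrTrace (θ' i)) (he : tensF θ = tensF θ') : θ = θ' := by
  haveI := Fintype.ofFinite G
  choose l hl hl' using fun i => dual (h i)
  by_contra hne
  obtain ⟨i, hi⟩ := Function.ne_iff.1 hne
  have h1 := sum_tensF l θ
  have h2 := sum_tensF l θ'
  rw [Finset.prod_eq_one fun i _ => hl i] at h1
  rw [Finset.prod_eq_zero (Finset.mem_univ i) (hl' i (θ' i) (h' i) (Ne.symm hi)), ← he, h1] at h2
  exact one_ne_zero h2

theorem char_eq (p : ℕ) [hp : Fact p.Prime] [CharP F p] {N : Type} [Group N]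
    {V : Type} [AddCommGroup V] [Module F V] [FiniteDimensional F V]
    (ρ : Representation F N V) {x y : N} (hc : Commute x y) (s : ℕ) (h : x ^ p ^ s = y ^ p ^ s) :
    ρ.character x = ρ.character y := by
  unfold Representation.character
  rcases subsingleton_or_nontrivial V with hV | hV
  · rw [Subsingleton.elim (ρ x) (ρ y)]
  have : CharP (Module.End F V) p :=
    charP_of_injective_algebraMap (FaithfulSMul.algebraMap_injective F (Module.End F V)) p
  have hc' : Commute (ρ x) (ρ y) := hc.map ρ
  have hnil : IsNilpotent (ρ x - ρ y) := by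
    refine ⟨p ^ s, ?_⟩
    rw [sub_pow_char_pow_of_commute _ _ hc', ← map_pow, ← map_pow, h, sub_self]
  have h1 := (LinearMap.isNilpotent_trace_of_isNilpotent hnil).eq_zero
  rw [map_sub, sub_eq_zero] at h1
  exact h1

/-- the indicator function of a class, at the `p'`-parts -/
def ec (F : Type) [Field F] {G : Type} [Group G] (p : ℕ) (C : ConjClasses G) (x : G) : F :=
  if ConjClasses.mk (pp p x) = C then 1 else 0

theorem ec_cl (p : ℕ) [Fact p.Prime] (C : ConjClasses G) : IsClassFun (ec F p C) := by
  intro g x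
  unfold ec
  have h1 : ConjClasses.mk (pp p (g * x * g⁻¹)) = ConjClasses.mk (pp p x) := by
    rw [ConjClasses.mk_eq_mk_iff_isConj]
    unfold pp
    rw [conj_pow]
    exact (isConj_iff.2 ⟨g, rfl⟩).symm
  rw [h1]

theorem ec_pp (p : ℕ) [Fact p.Prime] [Finite G] (C : ConjClasses G) (x : G) :
    ec F p C (pp p x) = ec F p C x := by
  unfold ec
  rw [Pool.Agent.Y77.NV.pp_pp]

/-- every irreducible trace is a product -/
theorem complete (p : ℕ) [Fact p.Prime] [CharP F p] [Finite G] {φ : (ι → G) → F}
    (h : IsIrrTrace φ) : ∃ θ : ι → G → F, (∀ i, IsIrrTrace (θ i)) ∧ φ = tensF θ := by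
  haveI := Fintype.ofFinite G
  haveI : Finite (Irr F G) := irr_fin Pool.Agent.Y914.NV.irr
  haveI := Fintype.ofFinite (Irr F G)
  haveI := Fintype.ofFinite (ConjClasses G)
  choose a ha using fun C : ConjClasses G =>
    coef_ex p span' (ec F p C) (ec_cl p C) (ec_pp p C)
  have hcl : IsClassFun φ := irr_conj h
  have hpp : ∀ x : ι → G, φ x = φ (fun i => pp p (x i)) := by
    intro x
    obtain ⟨V, i1, i2, i3, ρ, hρ, hφ⟩ := h
    rw [hφ]
    refine char_eq p ρ ?_ ((Nat.card G).factorization p) ?_
    · funext i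
      exact (Commute.pow_right (Commute.refl (x i)) _).eq
    · funext i
      exact (Pool.Agent.Y705.NV.pow_pp p (x i)).symm
  have h1 : ∀ x : ι → G, φ x = ∑ C : ι → ConjClasses G,
      φ (fun i => (C i).out) * ∏ i, ec F p (C i) (x i) := by
    intro x
    rw [Finset.sum_eq_single (fun i => ConjClasses.mk (pp p (x i)))]
    · have h2 : ∏ i, ec F p (ConjClasses.mk (pp p (x i))) (x i) = 1 :=
        Finset.prod_eq_one fun i _ => if_pos rfl
      rw [h2, mul_one, hpp x]
      have h3 : ∀ i, IsConj (pp p (x i)) (ConjClasses.mk (pp p (x i))).out := by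
        intro i
        rw [← ConjClasses.mk_eq_mk_iff_isConj]
        exact (Quotient.out_eq _).symm
      choose c hc using fun i => isConj_iff.1 (h3 i)
      rw [← hcl c (fun i => pp p (x i))]
      congr 1
      funext i
      exact hc i
    · intro C _ hC
      obtain ⟨i, hi⟩ := Function.ne_iff.1 hC
      have h2 : ∏ i, ec F p (C i) (x i) = 0 :=
        Finset.prod_eq_zero (Finset.mem_univ i) (if_neg (Ne.symm hi))
      rw [h2, mul_zero]
    · intro hx
      exact absurd (Finset.mem_univ _) hx
  have h2 : ∀ x : ι → G, φ x = ∑ θ : ι → Irr F G, (∑ C : ι → ConjClasses G,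
      φ (fun i => (C i).out) * ∏ i, a (C i) (θ i)) * tensF (fun i => (θ i).1) x := by
    intro x
    rw [h1 x]
    have h3 : ∀ C : ι → ConjClasses G, ∏ i, ec F p (C i) (x i) =
        ∑ θ : ι → Irr F G, (∏ i, a (C i) (θ i)) * tensF (fun i => (θ i).1) x := by
      intro C
      rw [Finset.prod_congr rfl fun i _ => ha (C i) (x i), Finset.prod_univ_sum,
        Fintype.piFinset_univ]
      refine Finset.sum_congr rfl fun θ _ => ?_
      rw [Finset.prod_mul_distrib]
      rfl
    rw [Finset.sum_congr rfl fun C _ => by rw [h3 C]]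
    simp only [Finset.mul_sum, Finset.sum_mul]
    rw [Finset.sum_comm]
    refine Finset.sum_congr rfl fun θ _ => Finset.sum_congr rfl fun C _ => ?_
    ring
  by_contra hcon
  push Not at hcon
  obtain ⟨l, hl, hl'⟩ := dual h
  have h4 : ∑ x, l x * φ x = 0 := by
    have h5 : ∑ x : ι → G, l x * φ x = ∑ θ : ι → Irr F G, (∑ C : ι → ConjClasses G,
        φ (fun i => (C i).out) * ∏ i, a (C i) (θ i)) *
          ∑ x : ι → G, l x * tensF (fun i => (θ i).1) x := by
      rw [Finset.sum_congr rfl fun x _ => by rw [h2 x]]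
      simp only [Finset.mul_sum]
      rw [Finset.sum_comm]
      refine Finset.sum_congr rfl fun θ _ => Finset.sum_congr rfl fun x _ => ?_
      ring
    rw [h5]
    refine Finset.sum_eq_zero fun θ _ => ?_
    rw [hl' _ (tensF_irr fun i => (θ i).2) (Ne.symm (hcon _ fun i => (θ i).2)), mul_zero]
  rw [hl] at h4
  exact one_ne_zero h4

end traces

/-- **PIR.** -/
theorem main : S_PIR := by
  intro p _ F _ _ _ ι _ G _ _
  refine ⟨fun φ => ⟨fun h => complete p h, ?_⟩, fun θ θ' h h' he => tensF_inj h h' he⟩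
  rintro ⟨θ, hθ, rfl⟩
  exact tensF_irr hθ

end Pool.Agent.N85.WM.Pir
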