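import Pool.Agent.N85.WM.Stm

/-!
# Weights and wreath products

The number of weights of `G^p` and the number of weights of `G^p` which are fixed by an element of
the wreath product `G ≀ C_p` outside `G^p`.
-/

set_option autoImplicit false

open scoped Classical

noncomputable section

namespace Pool.Agent.N85.WM.Ww

open Pool.Agent.Y63.NV
open Pool.Agent.Y63.AWC (IsIrreducibleCharacter)

/-! ### sums over weights -/

section tot

variable {H : Type} [Group H]

/-- the sum of `|N_H(Q)|` over the pairs with the property `P` -/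
def tot (P : Subgroup H → (H → ℂ) → Prop) : ℤ :=
  ∑ᶠ Q : Subgroup H, (Nat.card (Subgroup.normalizer (Q : Set H)) : ℤ) * Nat.card {χ // P Q χ}

theorem tot_congr {P P' : Subgroup H → (H → ℂ) → Prop} (h : ∀ Q χ, P Q χ ↔ P' Q χ) :
    tot P = tot P' := by
  have : P = P' := by
    funext Q χ
    exact propext (h Q χ)
  rw [this]

theorem tot_eq [Finite H] (P R : Subgroup H → (H → ℂ) → Prop)
    [Fintype {w : Subgroup H × (H → ℂ) // P w.1 w.2}] :
    tot (fun Q χ => P Q χ ∧ R Q χ) = ∑ w : {w : Subgroup H × (H → ℂ) // P w.1 w.2},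
      if R w.1.1 w.1.2 then (Nat.card (Subgroup.normalizer (w.1.1 : Set H)) : ℤ) else 0 := by
  have hfin : ∀ Q : Subgroup H, Finite {χ : H → ℂ // P Q χ} := by
    intro Q
    refine Finite.of_injective (β := {w : Subgroup H × (H → ℂ) // P w.1 w.2})
      (fun χ => ⟨(Q, χ.1), χ.2⟩) ?_
    intro χ χ' h
    have := congrArg (fun w => w.1.2) h
    exact Subtype.ext this
  have hft : ∀ Q : Subgroup H, Fintype {χ : H → ℂ // P Q χ} := fun Q => Fintype.ofFinite _
  have : Fintype (Subgroup H) := Fintype.ofFinite _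
  unfold tot
  rw [finsum_eq_sum_of_fintype]
  have key : ∀ Q : Subgroup H, (Nat.card (Subgroup.normalizer (Q : Set H)) : ℤ) *
      Nat.card {χ // P Q χ ∧ R Q χ} = ∑ χ : {χ : H → ℂ // P Q χ},
        if R Q χ.1 then (Nat.card (Subgroup.normalizer (Q : Set H)) : ℤ) else 0 := by
    intro Q
    rw [← Finset.sum_filter, Finset.sum_const, nsmul_eq_mul, mul_comm]
    congr 2
    rw [← Nat.card_congr (Equiv.subtypeSubtypeEquivSubtypeInter (fun χ => P Q χ)
      (fun χ => R Q χ)), Nat.card_eq_fintype_card, Fintype.card_subtype]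
  rw [Finset.sum_congr rfl fun Q _ => key Q, ← Fintype.sum_sigma']
  exact Fintype.sum_equiv (Equiv.subtypeProdEquivSigmaSubtype P).symm _ _ fun x => rfl

end tot

/-! ### weights -/

section weights

variable {F : Type} [Field F] {p : ℕ}

theorem isW_fin [Fact p.Prime] {H : Type} [Group H] [Finite H] :
    Finite {w : Subgroup H × (H → ℂ) // IsW p w.1 w.2} := by
  have hfinχ : ∀ Q : Subgroup H, Finite {χ : Subgroup.normalizer (Q : Set H) → ℂ //
      IsIrreducibleCharacter χ} := by
    intro Q
    have : Fintype (Subgroup.normalizer (Q : Set H)) := Fintype.ofFinite _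
    exact (Pool.Agent.Helper884.IC.irr_finite
      (G := Subgroup.normalizer (Q : Set H))).to_subtype
  refine Finite.of_injective (β := Σ Q : Subgroup H,
    {χ : Subgroup.normalizer (Q : Set H) → ℂ // IsIrreducibleCharacter χ})
    (fun w => ⟨w.1.1, ⟨fun x => w.1.2 x, w.2.wt.irr⟩⟩) ?_
  rintro ⟨⟨Q, χ⟩, h⟩ ⟨⟨Q', χ'⟩, h'⟩ he
  simp only [Sigma.mk.injEq] at he
  obtain ⟨rfl, he⟩ := he
  have he' := eq_of_heq he
  have : χ = χ' := by
    funext x
    by_cases hx : x ∈ Subgroup.normalizer (Q : Set H)
    · exact congrFun (congrArg Subtype.val he') ⟨x, hx⟩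
    · exact (h.supp x hx).trans (h'.supp x hx).symm
  subst this
  rfl

theorem wsum_tot (red : integralClosure ℤ ℂ →+* F) {H : Type} [Group H] [Finite H] (z : H → F)
    (c : F) : Wsum p red (⊤ : Subgroup H) ⊤ z c =
      tot (fun Q χ => IsW p Q χ ∧ wcv red Q χ z = c) := by
  unfold Wsum tot
  refine finsum_congr fun Q => ?_
  by_cases hQ : IsPGroup p Q
  · rw [if_pos ⟨hQ, le_top, top_sup_eq _⟩]
    have h : ∀ J : Subgroup H, J = Subgroup.normalizer (Q : Set H) →
        (Nat.card J : ℤ) * Nw p red (Q.subgroupOf J) (fun x => z x) c =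
          (Nat.card (Subgroup.normalizer (Q : Set H)) : ℤ) *
            Nat.card {χ // IsW p Q χ ∧ wcv red Q χ z = c} := by
      rintro _ rfl
      congr 2
      unfold Nw
      refine Nat.card_congr ?_
      refine
        { toFun := fun χ => ⟨fun x => if hx : x ∈ Subgroup.normalizer (Q : Set H) then
            χ.1 ⟨x, hx⟩ else 0, ?_⟩
          invFun := fun χ => ⟨fun x => χ.1 x, ?_⟩
          left_inv := ?_
          right_inv := ?_ }
      · have h1 : (fun x : Subgroup.normalizer (Q : Set H) =>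
            if hx : (x : H) ∈ Subgroup.normalizer (Q : Set H) then χ.1 ⟨x, hx⟩ else 0) = χ.1 := by
          funext x
          rw [dif_pos x.2]
        refine ⟨⟨hQ, fun x hx => dif_neg hx, ?_⟩, ?_⟩
        · rw [h1]; exact χ.2.1
        · unfold wcv
          rw [h1]; exact χ.2.2
      · exact ⟨χ.2.1.wt, χ.2.2⟩
      · intro χ
        apply Subtype.ext
        funext x
        exact dif_pos x.2
      · intro χ
        apply Subtype.ext
        funext x
        by_cases hx : x ∈ Subgroup.normalizer (Q : Set H)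
        · exact dif_pos hx
        · exact (dif_neg hx).trans (χ.2.1.supp x hx).symm
    exact h _ (top_inf_eq _)
  · rw [if_neg fun h => hQ h.1]
    have : IsEmpty {χ // IsW p Q χ ∧ wcv red Q χ z = c} := ⟨fun χ => hQ χ.2.1.pg⟩
    have h0 : Nat.card {χ // IsW p Q χ ∧ wcv red Q χ z = c} = 0 := Nat.card_of_isEmpty
    rw [h0]
    simp

end weights

/-! ### transport along isomorphisms -/

section transport

variable {F : Type} [Field F] {p : ℕ} {H H' : Type} [Group H] [Group H']

/-- the preimage of a subgroup -/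
abbrev cm (φ : H ≃* H') (Q : Subgroup H') : Subgroup H := Q.comap φ.toMonoidHom

theorem mem_cm {φ : H ≃* H'} {Q : Subgroup H'} {x : H} : x ∈ cm φ Q ↔ φ x ∈ Q := Iff.rfl

theorem mem_norm_cm {φ : H ≃* H'} {Q : Subgroup H'} {x : H} :
    φ x ∈ Subgroup.normalizer (Q : Set H') ↔
      x ∈ Subgroup.normalizer ((cm φ Q : Subgroup H) : Set H) := by
  rw [Subgroup.mem_normalizer_iff, Subgroup.mem_normalizer_iff]
  constructor
  · intro h y
    have := h (φ y)
    simp only [mem_cm, map_mul, map_inv]
    exact this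
  · intro h y
    have := h (φ.symm y)
    simp only [mem_cm, map_mul, map_inv, MulEquiv.apply_symm_apply] at this
    exact this

/-- the normalizers correspond -/
def nE (φ : H ≃* H') (Q : Subgroup H') :
    ↥(Subgroup.normalizer ((cm φ Q : Subgroup H) : Set H)) ≃*
      ↥(Subgroup.normalizer (Q : Set H')) where
  toFun x := ⟨φ x.1, mem_norm_cm.2 x.2⟩
  invFun y := ⟨φ.symm y.1, by
    rw [← mem_norm_cm, φ.apply_symm_apply]; exact y.2⟩
  left_inv x := Subtype.ext (φ.symm_apply_apply _)
  right_inv x := Subtype.ext (φ.apply_symm_apply _)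
  map_mul' x y := Subtype.ext (map_mul φ _ _)

theorem isW_cm (φ : H ≃* H') {Q : Subgroup H'} {χ : H' → ℂ} (h : IsW p Q χ) :
    IsW p (cm φ Q) (fun x => χ (φ x)) := by
  refine ⟨?_, ?_, ?_⟩
  · exact h.pg.comap_of_injective φ.toMonoidHom φ.injective
  · intro x hx
    exact h.supp _ fun h' => hx (mem_norm_cm.1 h')
  · exact Pool.Agent.Y624.NV.isWt_comp (nE φ Q) (Q := (cm φ Q).subgroupOf _)
      (Q' := Q.subgroupOf _) (fun x => Iff.rfl) h.wt

theorem cm_symm_cm (φ : H ≃* H') (Q : Subgroup H') : cm φ.symm (cm φ Q) = Q := by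
  ext x
  rw [mem_cm, mem_cm, φ.apply_symm_apply]

theorem cm_cm_symm (φ : H ≃* H') (Q : Subgroup H) : cm φ (cm φ.symm Q) = Q := by
  ext x
  rw [mem_cm, mem_cm, φ.symm_apply_apply]

theorem isW_cm_iff (φ : H ≃* H') {Q : Subgroup H'} {χ : H' → ℂ} :
    IsW p (cm φ Q) (fun x => χ (φ x)) ↔ IsW p Q χ := by
  refine ⟨fun h => ?_, isW_cm φ⟩
  have h2 := isW_cm φ.symm h
  rw [cm_symm_cm] at h2
  simpa using h2

omit [Field F] in
theorem cls_sub {z : H → F} (hz : IsClassFun z) (K : Subgroup H) :
    IsClassFun (fun x : K => z x) := fun g x => hz g x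

theorem wcv_cm (red : integralClosure ℤ ℂ →+* F) (φ : H ≃* H') {Q : Subgroup H'} {χ : H' → ℂ}
    (h : IsW p Q χ) {z : H' → F} (hz : IsClassFun z) :
    wcv red (cm φ Q) (fun x => χ (φ x)) (fun x => z (φ x)) = wcv red Q χ z :=
  Pool.Agent.Y624.NV.centralValue_comp red (nE φ Q) h.wt.irr (cls_sub hz _)

theorem tot_cm (φ : H ≃* H') {P : Subgroup H → (H → ℂ) → Prop}
    {P' : Subgroup H' → (H' → ℂ) → Prop}
    (h : ∀ Q χ, P (cm φ Q) (fun x => χ (φ x)) ↔ P' Q χ) : tot P = tot P' := by
  unfold tot
  let E : Subgroup H' ≃ Subgroup H :=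
    { toFun := fun Q => cm φ Q
      invFun := fun Q => cm φ.symm Q
      left_inv := cm_symm_cm φ
      right_inv := cm_cm_symm φ }
  rw [← finsum_comp_equiv E]
  refine finsum_congr fun Q => ?_
  have h1 : Nat.card (Subgroup.normalizer ((cm φ Q : Subgroup H) : Set H)) =
      Nat.card (Subgroup.normalizer (Q : Set H')) := Nat.card_congr (nE φ Q).toEquiv
  have h2 : Nat.card {χ // P (cm φ Q) χ} = Nat.card {χ // P' Q χ} := by
    symm
    refine Nat.card_congr ((Equiv.arrowCongr φ.symm.toEquiv (Equiv.refl ℂ)).subtypeEquiv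
      fun χ => ?_)
    rw [← h]
    rfl
  change (Nat.card (Subgroup.normalizer ((cm φ Q : Subgroup H) : Set H)) : ℤ) *
    Nat.card {χ // P (cm φ Q) χ} = _
  rw [h1, h2]

end transport

/-! ### orbits -/

section orbits

theorem orb_sum {G X : Type} [Group G] [Finite G] [Fintype X] [MulAction G X]
    (κ : Quotient (MulAction.orbitRel G X)) :
    ∑ x : X, (if (Quotient.mk (MulAction.orbitRel G X) x) = κ then
      (Nat.card (MulAction.stabilizer G x) : ℤ) else 0) = Nat.card G := by
  obtain ⟨x₀, rfl⟩ := Quotient.exists_rep κ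
  have : Fintype G := Fintype.ofFinite G
  rw [← Finset.sum_filter]
  set S : Finset X := Finset.univ.filter fun x =>
    (Quotient.mk (MulAction.orbitRel G X) x) = Quotient.mk _ x₀ with hS
  have hmem : ∀ x, x ∈ S ↔ x ∈ MulAction.orbit G x₀ := by
    intro x
    rw [hS, Finset.mem_filter, Quotient.eq, MulAction.orbitRel_apply]
    simp
  have hcard : Nat.card (MulAction.orbit G x₀) = S.card := by
    rw [Nat.card_eq_fintype_card]
    refine Fintype.card_of_subtype S fun x => hmem x
  have h1 : ∀ x ∈ S, (S.card : ℤ) * (Nat.card (MulAction.stabilizer G x) : ℤ) = Nat.card G := by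
    intro x hx
    have h2 : MulAction.orbit G x = MulAction.orbit G x₀ :=
      MulAction.orbit_eq_iff.2 ((hmem x).1 hx)
    have h3 := MulAction.card_orbit_mul_card_stabilizer_eq_card_group G x
    rw [← Nat.card_eq_fintype_card, ← Nat.card_eq_fintype_card, ← Nat.card_eq_fintype_card, h2,
      hcard] at h3
    exact_mod_cast h3
  have hne : (S.card : ℤ) ≠ 0 := by
    have : x₀ ∈ S := (hmem x₀).2 (MulAction.mem_orbit_self x₀)
    exact_mod_cast (Finset.card_pos.2 ⟨x₀, this⟩).ne'
  apply mul_left_cancel₀ hne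
  rw [Finset.mul_sum, Finset.sum_congr rfl h1, Finset.sum_const, nsmul_eq_mul]

end orbits

/-! ### the action of `G` on the weights -/

section action

variable {F : Type} [Field F] {p : ℕ} {red : integralClosure ℤ ℂ →+* F} {G : Type} [Group G]
  {e : G → F}

/-- the weights on which `e` acts as `1` -/
abbrev WT (p : ℕ) (red : integralClosure ℤ ℂ →+* F) {G : Type} [Group G] (e : G → F) : Type :=
  {w : Subgroup G × (G → ℂ) // IsW p w.1 w.2 ∧ wcv red w.1 w.2 e = 1}

/-- conjugation of weights -/
def cj (g : G) (w : Subgroup G × (G → ℂ)) : Subgroup G × (G → ℂ) :=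
  (cm (MulAut.conj g⁻¹) w.1, fun x => w.2 (MulAut.conj g⁻¹ x))

theorem cj_one (w : Subgroup G × (G → ℂ)) : cj 1 w = w := by
  unfold cj
  refine Prod.ext ?_ ?_
  · ext x
    simp
  · funext x
    simp

theorem cj_mul (g h : G) (w : Subgroup G × (G → ℂ)) : cj (g * h) w = cj g (cj h w) := by
  unfold cj
  refine Prod.ext ?_ ?_
  · ext x
    simp only [mem_cm]
    rw [mul_inv_rev, map_mul, MulAut.mul_apply]
  · funext x
    simp only []
    rw [mul_inv_rev, map_mul, MulAut.mul_apply]

theorem cj_mem (he : IsClassFun e) (g : G) {w : Subgroup G × (G → ℂ)}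
    (hw : IsW p w.1 w.2 ∧ wcv red w.1 w.2 e = 1) :
    IsW p (cj g w).1 (cj g w).2 ∧ wcv red (cj g w).1 (cj g w).2 e = 1 := by
  refine ⟨isW_cm _ hw.1, ?_⟩
  have h := wcv_cm red (MulAut.conj g⁻¹) hw.1 he
  have h2 : (fun x => e (MulAut.conj g⁻¹ x)) = e := by
    funext x
    exact he g⁻¹ x
  rw [h2, hw.2] at h
  exact h

/-- the action by conjugation -/
@[instance_reducible]
def act (p : ℕ) (red : integralClosure ℤ ℂ →+* F) (he : IsClassFun e) :
    MulAction G (WT p red e) where
  smul g w := ⟨cj g w.1, cj_mem he g w.2⟩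
  one_smul w := Subtype.ext (cj_one w.1)
  mul_smul g h w := Subtype.ext (cj_mul g h w.1)

theorem cj_fix {w : Subgroup G × (G → ℂ)} (hw : IsW p w.1 w.2) (g : G) :
    cj g w = w ↔ g ∈ Subgroup.normalizer (w.1 : Set G) := by
  constructor
  · intro h
    have h1 : cm (MulAut.conj g⁻¹) w.1 = w.1 := congrArg Prod.fst h
    rw [Subgroup.mem_normalizer_iff]
    intro y
    have h2 : g * y * g⁻¹ ∈ cm (MulAut.conj g⁻¹) w.1 ↔ g * y * g⁻¹ ∈ w.1 := by rw [h1]
    rw [mem_cm] at h2
    have h3 : MulAut.conj g⁻¹ (g * y * g⁻¹) = y := by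
      rw [MulAut.conj_apply]; group
    rw [h3] at h2
    exact h2
  · intro h
    have hi : g⁻¹ ∈ Subgroup.normalizer (w.1 : Set G) := Subgroup.inv_mem _ h
    refine Prod.ext ?_ ?_
    · ext x
      change MulAut.conj g⁻¹ x ∈ w.1 ↔ x ∈ w.1
      rw [MulAut.conj_apply]
      exact (Subgroup.mem_normalizer_iff.1 hi x).symm
    · funext x
      change w.2 (MulAut.conj g⁻¹ x) = w.2 x
      rw [MulAut.conj_apply]
      by_cases hx : x ∈ Subgroup.normalizer (w.1 : Set G)
      · exact Pool.Agent.Y624.NV.irr_class hw.wt.irr ⟨g⁻¹, hi⟩ ⟨x, hx⟩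
      · rw [hw.supp x hx, hw.supp]
        intro hc
        apply hx
        have h3 : x = g * (g⁻¹ * x * g⁻¹⁻¹) * g⁻¹ := by group
        rw [h3]
        exact Subgroup.mul_mem _ (Subgroup.mul_mem _ h hc) hi

/-- the orbits -/
def Orb (p : ℕ) (red : integralClosure ℤ ℂ →+* F) (he : IsClassFun e) : Type :=
  Quotient (@MulAction.orbitRel G (WT p red e) _ (act p red he))

/-- the orbit of a weight -/
def orb (he : IsClassFun e) (w : WT p red e) : Orb p red he :=
  Quotient.mk (@MulAction.orbitRel G (WT p red e) _ (act p red he)) w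

theorem orb_eq (he : IsClassFun e) {w w' : WT p red e} :
    orb he w = orb he w' ↔ ∃ g : G, cj g w'.1 = w.1 := by
  let _ := act p red he
  change Quotient.mk (MulAction.orbitRel G (WT p red e)) w = Quotient.mk _ w' ↔ _
  rw [Quotient.eq, MulAction.orbitRel_apply]
  constructor
  · rintro ⟨g, hg⟩
    exact ⟨g, congrArg Subtype.val hg⟩
  · rintro ⟨g, hg⟩
    exact ⟨g, Subtype.ext hg⟩

theorem orb_sum' (he : IsClassFun e) [Finite G] [Fintype (WT p red e)] (κ : Orb p red he) :
    ∑ w : WT p red e, (if orb he w = κ then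
      (Nat.card (Subgroup.normalizer (w.1.1 : Set G)) : ℤ) else 0) = Nat.card G := by
  let _ := act p red he
  rw [← orb_sum (G := G) (X := WT p red e) κ]
  refine Finset.sum_congr rfl fun w _ => ?_
  have : MulAction.stabilizer G w = Subgroup.normalizer (w.1.1 : Set G) := by
    ext g
    rw [MulAction.mem_stabilizer_iff, ← cj_fix w.2.1 g]
    exact Subtype.ext_iff
  rw [this]
  by_cases h : orb he w = κ
  · rw [if_pos h]
    exact (if_pos h).symm
  · rw [if_neg h]
    exact (if_neg h).symm

end action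

/-! ### direct powers -/

section power

variable {ι G : Type} [Fintype ι] [Group G]

omit [Fintype ι] in
theorem mem_piSub {R : ι → Subgroup G} {x : ι → G} : x ∈ piSub R ↔ ∀ i, x i ∈ R i := by
  unfold piSub
  rw [Subgroup.mem_pi]
  simp

omit [Fintype ι] in
theorem norm_pi {R : ι → Subgroup G} {x : ι → G} :
    x ∈ Subgroup.normalizer ((piSub R : Subgroup (ι → G)) : Set (ι → G)) ↔
      ∀ i, x i ∈ Subgroup.normalizer (R i : Set G) := by
  simp only [Subgroup.mem_normalizer_iff, mem_piSub, Pi.mul_apply, Pi.inv_apply]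
  constructor
  · intro h i y
    have h1 := h (Pi.mulSingle i y)
    constructor
    · intro hy
      have h2 := h1.1 (fun j => ?_) i
      · simpa using h2
      · by_cases hj : j = i
        · subst hj; simpa using hy
        · rw [Pi.mulSingle_eq_of_ne hj]; exact Subgroup.one_mem _
    · intro hy
      have h2 := h1.2 (fun j => ?_) i
      · simpa using h2
      · by_cases hj : j = i
        · subst hj; simpa using hy
        · rw [Pi.mulSingle_eq_of_ne hj, mul_one, mul_inv_cancel]; exact Subgroup.one_mem _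
  · intro h y
    exact forall_congr' fun i => h i (y i)

theorem card_norm_pi (R : ι → Subgroup G) :
    Nat.card (Subgroup.normalizer ((piSub R : Subgroup (ι → G)) : Set (ι → G))) =
      ∏ i, Nat.card (Subgroup.normalizer (R i : Set G)) := by
  rw [← Nat.card_pi]
  exact Nat.card_congr
    { toFun := fun x i => ⟨x.1 i, norm_pi.1 x.2 i⟩
      invFun := fun y => ⟨fun i => (y i).1, norm_pi.2 fun i => (y i).2⟩
      left_inv := fun _ => rfl
      right_inv := fun _ => rfl }

variable {F : Type} [Field F] {p : ℕ} {red : integralClosure ℤ ℂ →+* F} {e : G → F}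

theorem wcv01 [Fact p.Prime] [IsAlgClosed F] [CharP F p] [Finite G] (he : IsIdem e)
    {Q : Subgroup G} {χ : G → ℂ} (h : IsW p Q χ) : wcv red Q χ e = 0 ∨ wcv red Q χ e = 1 :=
  he.val _ (wblk' p F red G Q _ h.pg h.wt)

theorem pi_mem (h1 : S_WPI) (h2 : S_WPC) [Fact p.Prime] [Finite G] (he : IsClassFun e)
    (w : ι → WT p red e) :
    IsW p (piSub fun i => (w i).1.1) (tensF fun i => (w i).1.2) ∧
      wcv red (piSub fun i => (w i).1.1) (tensF fun i => (w i).1.2) (tensF fun _ => e) = 1 := by
  refine ⟨((h1 p ι G).1 _ _).2 ⟨_, _, fun i => (w i).2.1, rfl, rfl⟩, ?_⟩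
  rw [h2 p F red ι G _ _ _ (fun i => (w i).2.1) (fun _ => he)]
  exact Finset.prod_eq_one fun i _ => (w i).2.2

/-- the weights of the direct power -/
def piMap (h1 : S_WPI) (h2 : S_WPC) [Fact p.Prime] [Finite G] (he : IsClassFun e)
    (w : ι → WT p red e) : WT p red (tensF fun _ : ι => e) :=
  ⟨(piSub fun i => (w i).1.1, tensF fun i => (w i).1.2), pi_mem h1 h2 he w⟩

theorem piMap_bij (h1 : S_WPI) (h2 : S_WPC) [Fact p.Prime] [IsAlgClosed F] [CharP F p] [Finite G]
    (he : IsIdem e) : Function.Bijective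
      (piMap h1 h2 he.cl : (ι → WT p red e) → WT p red (tensF fun _ : ι => e)) := by
  constructor
  · intro w w' h
    have h3 : piSub (fun i => (w i).1.1) = piSub fun i => (w' i).1.1 :=
      congrArg (fun x => x.1.1) h
    have h4 : tensF (fun i => (w i).1.2) = tensF fun i => (w' i).1.2 :=
      congrArg (fun x => x.1.2) h
    obtain ⟨h5, h6⟩ := (h1 p ι G).2 _ _ _ _ (fun i => (w i).2.1) (fun i => (w' i).2.1) h3 h4
    funext i
    exact Subtype.ext (Prod.ext (congrFun h5 i) (congrFun h6 i))
  · rintro ⟨⟨Q, χ⟩, hw, hv⟩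
    obtain ⟨R, ψ, hR, rfl, rfl⟩ := ((h1 p ι G).1 Q χ).1 hw
    simp only [] at hv
    rw [h2 p F red ι G _ _ _ hR (fun _ => he.cl)] at hv
    have hv' : ∀ i, wcv red (R i) (ψ i) e = 1 := by
      intro i
      rcases wcv01 (red := red) he (hR i) with h | h
      · rw [Finset.prod_eq_zero (Finset.mem_univ i) h] at hv
        exact absurd hv zero_ne_one
      · exact h
    exact ⟨fun i => ⟨(R i, ψ i), hR i, hv' i⟩, rfl⟩

/-- the normalizer of a weight of the direct power -/
theorem card_piMap (h1 : S_WPI) (h2 : S_WPC) [Fact p.Prime] [Finite G] (he : IsClassFun e)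
    (w : ι → WT p red e) :
    (Nat.card (Subgroup.normalizer ((piMap h1 h2 he w).1.1 : Set (ι → G))) : ℤ) =
      ∏ i, (Nat.card (Subgroup.normalizer ((w i).1.1 : Set G)) : ℤ) := by
  change (Nat.card (Subgroup.normalizer
    ((piSub (fun i => (w i).1.1) : Subgroup (ι → G)) : Set (ι → G))) : ℤ) = _
  rw [card_norm_pi]
  push_cast
  rfl

theorem tot_eq1 {H : Type} [Group H] [Finite H] (P : Subgroup H → (H → ℂ) → Prop)
    [Fintype {w : Subgroup H × (H → ℂ) // P w.1 w.2}] :
    tot P = ∑ w : {w : Subgroup H × (H → ℂ) // P w.1 w.2},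
      (Nat.card (Subgroup.normalizer (w.1.1 : Set H)) : ℤ) := by
  have h := tot_eq P (fun _ _ => True)
  simp only [and_true, if_true] at h
  exact h

instance [Fact p.Prime] [Finite G] : Finite (WT p red e) := by
  have := isW_fin (p := p) (H := G)
  refine Finite.of_injective (β := {w : Subgroup G × (G → ℂ) // IsW p w.1 w.2})
    (fun w => ⟨w.1, w.2.1⟩) ?_
  intro w w' h
  simp only [Subtype.mk.injEq] at h
  exact Subtype.ext h

/-- the property of a weight of the direct power -/
abbrev PP (p : ℕ) (red : integralClosure ℤ ℂ →+* F) {H : Type} [Group H] (z : H → F)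
    (Q : Subgroup H) (χ : H → ℂ) : Prop := IsW p Q χ ∧ wcv red Q χ z = 1

theorem tot_pi (h1 : S_WPI) (h2 : S_WPC) [Fact p.Prime] [IsAlgClosed F] [CharP F p] [Finite G]
    (he : IsIdem e) :
    tot (PP p red (tensF fun _ : ι => e)) = (tot (PP p red e)) ^ Fintype.card ι := by
  have : Fintype (WT p red e) := Fintype.ofFinite _
  have : Fintype (WT p red (tensF fun _ : ι => e)) := Fintype.ofFinite _
  rw [tot_eq1 (PP p red e), tot_eq1 (PP p red (tensF fun _ : ι => e))]
  rw [← Finset.card_univ, ← Finset.prod_const, Finset.prod_univ_sum, Fintype.piFinset_univ]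
  symm
  refine Fintype.sum_bijective _ (piMap_bij h1 h2 he) _ _ fun w => ?_
  exact (card_piMap h1 h2 he.cl w).symm

theorem tot_orb [Fact p.Prime] [Finite G] (he : IsClassFun e) [Fintype (Orb p red he)] :
    tot (PP p red e) = (Nat.card G : ℤ) * Fintype.card (Orb p red he) := by
  have : Fintype (WT p red e) := Fintype.ofFinite _
  rw [tot_eq1 (PP p red e)]
  have h1 : ∀ w : WT p red e, (Nat.card (Subgroup.normalizer (w.1.1 : Set G)) : ℤ) =
      ∑ κ : Orb p red he, if orb he w = κ then
        (Nat.card (Subgroup.normalizer (w.1.1 : Set G)) : ℤ) else 0 := by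
    intro w
    rw [Finset.sum_ite_eq]
    simp
  rw [Finset.sum_congr rfl fun w _ => h1 w, Finset.sum_comm,
    Finset.sum_congr rfl fun κ _ => orb_sum' he κ, Finset.sum_const, Finset.card_univ,
    nsmul_eq_mul, mul_comm]

theorem tot_fix (h1 : S_WPI) (h2 : S_WPC) [Fact p.Prime] [IsAlgClosed F] [CharP F p] [Finite G]
    (he : IsIdem e) [Fintype (Orb p red he.cl)] (i₀ : ι)
    (R : Subgroup (ι → G) → ((ι → G) → ℂ) → Prop)
    (hR : ∀ w : ι → WT p red e, R (piMap h1 h2 he.cl w).1.1 (piMap h1 h2 he.cl w).1.2 ↔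
      ∀ i, orb he.cl (w i) = orb he.cl (w i₀)) :
    tot (fun Q χ => PP p red (tensF fun _ : ι => e) Q χ ∧ R Q χ) =
      (Nat.card G : ℤ) ^ Fintype.card ι * Fintype.card (Orb p red he.cl) := by
  have : Fintype (WT p red e) := Fintype.ofFinite _
  have : Fintype (WT p red (tensF fun _ : ι => e)) := Fintype.ofFinite _
  rw [tot_eq (PP p red (tensF fun _ : ι => e)) R]
  have e1 : ∑ w : WT p red (tensF fun _ : ι => e), (if R w.1.1 w.1.2 then
      (Nat.card (Subgroup.normalizer (w.1.1 : Set (ι → G))) : ℤ) else 0) =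
      ∑ w : ι → WT p red e, if (∀ i, orb he.cl (w i) = orb he.cl (w i₀)) then
        ∏ i, (Nat.card (Subgroup.normalizer ((w i).1.1 : Set G)) : ℤ) else 0 := by
    symm
    refine Fintype.sum_bijective _ (piMap_bij h1 h2 he) _ _ fun w => ?_
    rw [card_piMap]
    exact if_congr (hR w).symm rfl rfl
  have e2 : ∀ w : ι → WT p red e, (if (∀ i, orb he.cl (w i) = orb he.cl (w i₀)) then
        ∏ i, (Nat.card (Subgroup.normalizer ((w i).1.1 : Set G)) : ℤ) else 0) =
      ∑ κ : Orb p red he.cl, ∏ i, if orb he.cl (w i) = κ then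
        (Nat.card (Subgroup.normalizer ((w i).1.1 : Set G)) : ℤ) else 0 := by
    intro w
    rw [Finset.sum_eq_single (orb he.cl (w i₀))]
    · rw [Finset.prod_ite_zero]
      by_cases h : ∀ i, orb he.cl (w i) = orb he.cl (w i₀)
      · rw [if_pos h, if_pos fun i _ => h i]
      · rw [if_neg h, if_neg fun h' => h fun i => h' i (Finset.mem_univ i)]
    · intro κ _ hκ
      exact Finset.prod_eq_zero (Finset.mem_univ i₀) (if_neg fun h => hκ h.symm)
    · intro h
      exact absurd (Finset.mem_univ _) h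
  rw [e1, Finset.sum_congr rfl fun w _ => e2 w, Finset.sum_comm]
  have e3 : ∀ κ : Orb p red he.cl, ∑ w : ι → WT p red e, ∏ i, (if orb he.cl (w i) = κ then
        (Nat.card (Subgroup.normalizer ((w i).1.1 : Set G)) : ℤ) else 0) =
      (Nat.card G : ℤ) ^ Fintype.card ι := by
    intro κ
    rw [← orb_sum' he.cl κ, ← Finset.card_univ, ← Finset.prod_const, Finset.prod_univ_sum,
      Fintype.piFinset_univ]
  rw [Finset.sum_congr rfl fun κ _ => e3 κ, Finset.sum_const, Finset.card_univ,
    nsmul_eq_mul, mul_comm]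

end power

/-! ### wreath products -/

section wreath

variable {p : ℕ} {G : Type} [Group G]

/-- the isomorphism of `G^p` with the base group -/
def bE (p : ℕ) (G : Type) [Group G] : (ZMod p → G) ≃* Base p G :=
  MonoidHom.ofInjective (f := (SemidirectProduct.inl : (ZMod p → G) →* Wr p G))
    SemidirectProduct.inl_injective

theorem bE_coe (x : ZMod p → G) : ((bE p G x : Base p G) : Wr p G) = SemidirectProduct.inl x := rfl

theorem mem_Base (g : Wr p G) : g ∈ Base p G ↔ g.right = 1 := by
  unfold Base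
  rw [SemidirectProduct.range_inl_eq_ker_rightHom]
  rfl

instance base_normal : (Base p G).Normal := by
  unfold Base
  rw [SemidirectProduct.range_inl_eq_ker_rightHom]
  infer_instance

theorem card_quot [Fact p.Prime] : Nat.card (Wr p G ⧸ Base p G) = p := by
  unfold Base
  rw [SemidirectProduct.range_inl_eq_ker_rightHom]
  have := Nat.card_congr (QuotientGroup.quotientKerEquivOfSurjective
    (SemidirectProduct.rightHom : Wr p G →* _) SemidirectProduct.rightHom_surjective).toEquiv
  rw [this]
  change Nat.card (ZMod p) = p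
  exact Nat.card_zmod p

/-- the conjugation by an element of the wreath product -/
def sh (n : ZMod p → G) (t : ZMod p) (x : ZMod p → G) : ZMod p → G :=
  fun i => n i * x (i - t) * (n i)⁻¹

theorem shiftHom_apply (t : Multiplicative (ZMod p)) (x : ZMod p → G) (i : ZMod p) :
    shiftHom p G t x i = x (i - t.toAdd) := rfl

theorem conj_inl (g : Wr p G) (x : ZMod p → G) :
    g * SemidirectProduct.inl x * g⁻¹ =
      (SemidirectProduct.inl (sh g.left g.right.toAdd x) : Wr p G) := by
  refine SemidirectProduct.ext ?_ ?_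
  · funext i
    simp only [SemidirectProduct.mul_left, SemidirectProduct.mul_right,
      SemidirectProduct.left_inl, SemidirectProduct.right_inl, SemidirectProduct.inv_left,
      Pi.mul_apply, shiftHom_apply, sh, mul_one, Pi.inv_apply, toAdd_inv, sub_neg_eq_add,
      sub_add_cancel]
  · simp

theorem inZ {F : Type} [Field F] [NeZero p] {e : G → F} (he : IsClassFun e) :
    InZ (Base p G) (wrF p e) := by
  constructor
  · intro g x
    unfold wrF
    have hr : (g * x * g⁻¹).right = x.right := by
      simp only [SemidirectProduct.mul_right, SemidirectProduct.inv_right]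
      rw [mul_comm g.right, mul_assoc, mul_inv_cancel, mul_one]
    rw [hr]
    by_cases hx : x.right = 1
    · rw [if_pos hx, if_pos hx]
      have hx' : x = SemidirectProduct.inl x.left := by
        refine SemidirectProduct.ext ?_ ?_
        · simp
        · simp [hx]
      have h1 : (g * x * g⁻¹).left = sh g.left g.right.toAdd x.left := by
        conv_lhs => rw [hx', conj_inl]
        simp
      rw [h1]
      unfold sh
      rw [Finset.prod_congr rfl fun i _ => he (g.left i) (x.left (i - g.right.toAdd))]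
      exact Fintype.prod_equiv (Equiv.subRight g.right.toAdd) _ _ fun i => rfl
    · rw [if_neg hx, if_neg hx]
  · intro x hx
    rw [mem_Base] at hx
    exact if_neg hx

theorem wrF_bE {F : Type} [Field F] [NeZero p] {e : G → F} (x : ZMod p → G) :
    wrF p e (bE p G x : Base p G) = tensF (fun _ : ZMod p => e) x := by
  rw [bE_coe]
  unfold wrF tensF
  rw [if_pos (by simp)]
  simp

/-- fixed by the conjugation by an element outside the base group -/
def FO (Q : Subgroup (ZMod p → G)) (χ : (ZMod p → G) → ℂ) : Prop :=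
  ∃ (n : ZMod p → G) (t : ZMod p), t ≠ 0 ∧ (∀ x, x ∈ Q ↔ sh n t x ∈ Q) ∧
    ∀ x, χ x = χ (sh n t x)

theorem fixedOut_iff {Q : Subgroup (Base p G)} {χ : Base p G → ℂ} :
    FO (cm (bE p G) Q) (fun x => χ (bE p G x)) ↔ FixedOut (Base p G) Q χ := by
  constructor
  · rintro ⟨n, t, ht, h1, h2⟩
    have key : ∀ x y : Base p G, (y : Wr p G) = ⟨n, Multiplicative.ofAdd t⟩ * x *
        (⟨n, Multiplicative.ofAdd t⟩ : Wr p G)⁻¹ → bE p G (sh n t ((bE p G).symm x)) = y := by
      intro x y hxy
      apply Subtype.ext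
      rw [hxy, bE_coe]
      have hx : (x : Wr p G) = SemidirectProduct.inl ((bE p G).symm x) := by
        rw [← bE_coe, (bE p G).apply_symm_apply]
      conv_rhs => rw [hx, conj_inl]
      rfl
    refine ⟨⟨n, Multiplicative.ofAdd t⟩, ?_, ?_, ?_⟩
    · rw [mem_Base]
      intro h
      exact ht (ofAdd_eq_one.1 h)
    · intro x y hxy
      have h3 := h1 ((bE p G).symm x)
      rw [mem_cm, mem_cm, key x y hxy, (bE p G).apply_symm_apply] at h3
      exact h3
    · intro x y hxy
      have h3 := h2 ((bE p G).symm x)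
      simp only [] at h3
      rw [key x y hxy, (bE p G).apply_symm_apply] at h3
      exact h3
  · rintro ⟨g, hg, h1, h2⟩
    have key : ∀ x : ZMod p → G, ((bE p G (sh g.left g.right.toAdd x) : Base p G) : Wr p G) =
        g * (bE p G x : Base p G) * g⁻¹ := by
      intro x
      rw [bE_coe, bE_coe, conj_inl]
    refine ⟨g.left, g.right.toAdd, ?_, ?_, ?_⟩
    · intro h
      apply hg
      rw [mem_Base]
      exact toAdd_eq_zero.1 h
    · intro x
      exact h1 _ _ (key x)
    · intro x
      exact h2 _ _ (key x)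

variable {F : Type} [Field F] {red : integralClosure ℤ ℂ →+* F} {e : G → F}

theorem FO_iff (h1 : S_WPI) (h2 : S_WPC) [Fact p.Prime] [Finite G] (he : IsClassFun e)
    (w : ZMod p → WT p red e) :
    FO (piMap h1 h2 he w).1.1 (piMap h1 h2 he w).1.2 ↔ ∀ i, orb he (w i) = orb he (w 0) := by
  change FO (piSub fun i => (w i).1.1) (tensF fun i => (w i).1.2) ↔ _
  constructor
  · rintro ⟨n, t, ht, h3, h4⟩
    -- the conjugate tuple
    set w' : ZMod p → WT p red e := fun j =>
      ⟨cj (n (j + t))⁻¹ (w (j + t)).1, cj_mem he _ (w (j + t)).2⟩ with hw'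
    have e1 : piSub (fun i => (w' i).1.1) = piSub fun i => (w i).1.1 := by
      ext x
      rw [h3 x, mem_piSub, mem_piSub]
      constructor
      · intro h i
        have h5 := h (i - t)
        simp only [hw', cj] at h5
        rw [sub_add_cancel, mem_cm, inv_inv, MulAut.conj_apply] at h5
        exact h5
      · intro h i
        have h5 := h (i + t)
        simp only [sh] at h5
        rw [add_sub_cancel_right] at h5
        simp only [hw', cj]
        rw [mem_cm, inv_inv, MulAut.conj_apply]
        exact h5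
    have e2 : tensF (fun i => (w' i).1.2) = tensF fun i => (w i).1.2 := by
      funext x
      rw [h4 x]
      unfold tensF
      refine Fintype.prod_equiv (Equiv.addRight t) _ _ fun i => ?_
      simp only [hw', cj, sh, Equiv.coe_addRight]
      rw [add_sub_cancel_right, inv_inv, MulAut.conj_apply]
    obtain ⟨e3, e4⟩ := (h1 p (ZMod p) G).2 _ _ _ _ (fun i => (w' i).2.1) (fun i => (w i).2.1) e1 e2
    have e5 : ∀ j, orb he (w j) = orb he (w (j + t)) := by
      intro j
      rw [orb_eq]
      refine ⟨(n (j + t))⁻¹, ?_⟩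
      exact Prod.ext (congrFun e3 j) (congrFun e4 j)
    have e6 : ∀ k : ℕ, orb he (w (k * t)) = orb he (w 0) := by
      intro k
      induction k with
      | zero => simp
      | succ k ih =>
        rw [← ih, e5 (k * t)]
        congr 2
        push_cast
        ring
    intro i
    have h5 := e6 (i * t⁻¹).val
    rw [ZMod.natCast_zmod_val, mul_assoc, inv_mul_cancel₀ ht, mul_one] at h5
    exact h5
  · intro h
    have h3 : ∀ i, ∃ g : G, cj g (w (i - 1)).1 = (w i).1 := fun i =>
      (orb_eq he).1 ((h i).trans (h (i - 1)).symm)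
    choose n hn using h3
    refine ⟨n, 1, one_ne_zero, ?_, ?_⟩
    · intro x
      rw [mem_piSub, mem_piSub]
      have key : ∀ i, x (i - 1) ∈ (w (i - 1)).1.1 ↔ sh n 1 x i ∈ (w i).1.1 := by
        intro i
        rw [← hn i]
        simp only [cj, sh]
        rw [mem_cm, MulAut.conj_apply]
        have : (n i)⁻¹ * (n i * x (i - 1) * (n i)⁻¹) * (n i)⁻¹⁻¹ = x (i - 1) := by group
        rw [this]
      constructor
      · intro h i
        exact (key i).1 (h (i - 1))
      · intro h i
        have := (key (i + 1)).2 (h (i + 1))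
        rwa [add_sub_cancel_right] at this
    · intro x
      unfold tensF
      symm
      refine Fintype.prod_equiv (Equiv.subRight 1) _ _ fun i => ?_
      simp only [Equiv.subRight_apply]
      rw [← hn i]
      simp only [cj, sh]
      rw [MulAut.conj_apply]
      group

end wreath

instance wr_finite (p : ℕ) [Fact p.Prime] (G : Type) [Group G] [Finite G] : Finite (Wr p G) :=
  Finite.of_equiv _ SemidirectProduct.equivProd.symm

theorem main (h1 : S_WPI) (h2 : S_WPC) (h3 : S_COV) : S_WW := by
  intro p _ F _ _ _ red G _ _ e w he hw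
  have : Finite (Orb p red he.cl) := by
    unfold Orb
    infer_instance
  have : Fintype (Orb p red he.cl) := Fintype.ofFinite _
  rw [wsum_tot] at hw
  have hG : (Nat.card G : ℤ) ≠ 0 := by
    exact_mod_cast Nat.card_pos.ne'
  have hO : (Fintype.card (Orb p red he.cl) : ℤ) = w := by
    have h4 := (tot_orb (p := p) (red := red) he.cl).symm.trans hw
    exact mul_left_cancel₀ hG h4
  have hcl : IsClassFun (fun x : Base p G => wrF p e x) := by
    intro g x
    exact (inZ (p := p) he.cl).conj (g : Wr p G) (x : Wr p G)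
  have hF : (fun x : ZMod p → G => wrF p e (bE p G x : Base p G)) = tensF fun _ => e :=
    funext wrF_bE
  have hwc : ∀ (Q : Subgroup (Base p G)) (χ : Base p G → ℂ), IsW p Q χ →
      wcv red (cm (bE p G) Q) (fun x => χ (bE p G x)) (tensF fun _ => e) =
        wcv red Q χ (fun x : Base p G => wrF p e x) := by
    intro Q χ h
    rw [← wcv_cm red (bE p G) h hcl, hF]
  have hP : ∀ (Q : Subgroup (Base p G)) (χ : Base p G → ℂ),
      PP p red (tensF fun _ : ZMod p => e) (cm (bE p G) Q) (fun x => χ (bE p G x)) ↔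
        (IsW p Q χ ∧ wcv red Q χ (fun x : Base p G => wrF p e x) = 1) := by
    intro Q χ
    unfold PP
    rw [isW_cm_iff]
    exact and_congr_right fun h => by rw [hwc Q χ h]
  constructor
  · rw [wsum_tot, ← tot_cm (bE p G) hP, tot_pi h1 h2 he, ZMod.card]
    change (tot fun Q χ => IsW p Q χ ∧ wcv red Q χ e = 1) ^ p = _
    rw [hw, mul_pow]
  · rw [h3 p F red (Wr p G) (Base p G) (wrF p e) 1 card_quot (inZ he.cl)]
    have h5 := tot_fix (ι := ZMod p) (red := red) h1 h2 he 0 FO (fun w => FO_iff h1 h2 he.cl w)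
    rw [ZMod.card, hO] at h5
    have h6 : tot (fun (Q : Subgroup (Base p G)) χ => IsW p Q χ ∧
        wcv red Q χ (fun x : Base p G => wrF p e x) = 1 ∧ FixedOut (Base p G) Q χ) =
        (Nat.card G : ℤ) ^ p * w := by
      rw [← h5]
      symm
      refine tot_cm (bE p G) fun Q χ => ?_
      rw [fixedOut_iff, hP, and_assoc]
    change (p : ℤ) * tot (fun (Q : Subgroup (Base p G)) χ => IsW p Q χ ∧
        wcv red Q χ (fun x : Base p G => wrF p e x) = 1 ∧ FixedOut (Base p G) Q χ) = _
    rw [h6]
    ring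

end Pool.Agent.N85.WM.Ww
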