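import Pool.Agent.N85.WM.Com

set_option autoImplicit false

open scoped Classical BigOperators

noncomputable section

namespace Pool.Agent.N85.WM

open Pool.Agent.Y63.NV
open Pool.Agent.Y63.NV.B48B (orbit_sum)
open Pool.Agent.Y63.AWC (IsIrreducibleCharacter pSubgroupSetoid)

section wt

variable {p : ℕ} [Fact p.Prime] {G : Type} [Group G] [Finite G]

theorem pel_mk {N : Type} [Group N] {Q : Subgroup N} [Q.Normal] (hQ : IsPGroup p Q) (c : N) :
    PEl p (c : N ⧸ Q) ↔ PEl p c := by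
  rw [pel_iff, pel_iff]
  constructor
  · rintro ⟨j, hj⟩
    rw [← QuotientGroup.mk_pow, QuotientGroup.eq_one_iff] at hj
    obtain ⟨i, hi⟩ := hQ ⟨_, hj⟩
    refine ⟨j + i, ?_⟩
    have h1 : (c ^ p ^ j) ^ p ^ i = 1 := congrArg Subtype.val hi
    rw [pow_add, pow_mul]
    exact h1
  · rintro ⟨j, hj⟩
    exact ⟨j, by rw [← QuotientGroup.mk_pow, hj]; rfl⟩

/-- lifting to the group -/
theorem card_lift {N : Type} [Group N] [Finite N] (Q : Subgroup N) [Q.Normal] {R : Type}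
    (P : N ⧸ Q → N ⧸ Q → R → Prop) :
    Nat.card {t : N × N × R // P (t.1 : N ⧸ Q) (t.2.1 : N ⧸ Q) t.2.2} =
      Nat.card Q * Nat.card Q * Nat.card {t : (N ⧸ Q) × (N ⧸ Q) × R // P t.1 t.2.1 t.2.2} := by
  let e : N ≃ (N ⧸ Q) × Q := Subgroup.groupEquivQuotientProdSubgroup
  have he : ∀ x : N, (e x).1 = (x : N ⧸ Q) := fun x => rfl
  have he' : ∀ s, ((e.symm s : N) : N ⧸ Q) = s.1 := fun s => by
    rw [← he, e.apply_symm_apply]
  rw [← Nat.card_prod, ← Nat.card_prod]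
  exact Nat.card_congr
    { toFun := fun t => (((e t.1.1).2, (e t.1.2.1).2), ⟨((e t.1.1).1, (e t.1.2.1).1, t.1.2.2), t.2⟩)
      invFun := fun s => ⟨(e.symm (s.2.1.1, s.1.1), e.symm (s.2.1.2.1, s.1.2), s.2.1.2.2), by
        rw [he', he']
        exact s.2.2⟩
      left_inv := fun t => by
        apply Subtype.ext
        refine Prod.ext ?_ (Prod.ext ?_ rfl)
        · exact e.symm_apply_apply _
        · exact e.symm_apply_apply _
      right_inv := fun s => by
        refine Prod.ext (Prod.ext ?_ ?_) (Subtype.ext (Prod.ext ?_ (Prod.ext ?_ rfl)))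
        · change (e (e.symm (s.2.1.1, s.1.1))).2 = _
          rw [e.apply_symm_apply]
        · change (e (e.symm (s.2.1.2.1, s.1.2))).2 = _
          rw [e.apply_symm_apply]
        · change (e (e.symm (s.2.1.1, s.1.1))).1 = _
          rw [e.apply_symm_apply]
        · change (e (e.symm (s.2.1.2.1, s.1.2))).1 = _
          rw [e.apply_symm_apply] }

/-- the side of the weights, for a section `N / Q` -/
theorem sec_trip (N : Subgroup G) (Q : Subgroup N) [Q.Normal] (hQ : IsPGroup p Q) (g : G) :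
    Nat.card Q * Nat.card N * secNum p N Q g =
      Nat.card {t : N × N × N // IsConj g t.2.2 ∧
        PEl p (t.2.2 * (t.1 * t.2.1 * t.1⁻¹ * t.2.1⁻¹))} := by
  have h1 := cc_count (H := N ⧸ Q) (R := (N ⧸ Q) × N) (fun y s => s.1 * (s.2 : N ⧸ Q) * y)
    (fun _ s => PEl p s.1 ∧ IsConj g s.2) (by
      intro a
      obtain ⟨b, rfl⟩ := QuotientGroup.mk_surjective a
      refine ⟨Equiv.prodCongr (MulAut.conj (b : N ⧸ Q)).toEquiv (MulAut.conj b).toEquiv,
        fun y s => ⟨?_, ?_⟩⟩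
      · have e2 : IsConj g ((b * s.2 * b⁻¹ : N) : G) ↔ IsConj g s.2 := by
          have h1 : IsConj (s.2 : G) ((b * s.2 * b⁻¹ : N) : G) := isConj_iff.mpr ⟨b, by simp⟩
          exact ⟨fun h2 => h2.trans h1.symm, fun h2 => h2.trans h1⟩
        change (PEl p ((b : N ⧸ Q) * s.1 * (b : N ⧸ Q)⁻¹) ∧
          IsConj g ((b * s.2 * b⁻¹ : N) : G)) ↔ _
        rw [e2, PEl.conj]
      · change (b : N ⧸ Q) * s.1 * (b : N ⧸ Q)⁻¹ * ((b * s.2 * b⁻¹ : N) : N ⧸ Q) *
          ((b : N ⧸ Q) * y * (b : N ⧸ Q)⁻¹) = _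
        rw [QuotientGroup.mk_mul, QuotientGroup.mk_mul, QuotientGroup.mk_inv]
        group)
  have e1 : secNum p N Q g = Nat.card {s : ConjClasses (N ⧸ Q) × ((N ⧸ Q) × N) //
      (PEl p s.2.1 ∧ IsConj g s.2.2) ∧ IsConj (s.2.1 * (s.2.2 : N ⧸ Q) * s.1.out) s.1.out} := by
    unfold secNum
    refine Nat.card_congr (Equiv.subtypeEquivRight fun s => ?_)
    unfold PEl
    tauto
  have e2 : Nat.card {t : (N ⧸ Q) × (N ⧸ Q) × ((N ⧸ Q) × N) //
      (PEl p t.2.2.1 ∧ IsConj g t.2.2.2) ∧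
        t.2.1 * t.1 * t.2.1⁻¹ = t.2.2.1 * (t.2.2.2 : N ⧸ Q) * t.1} =
      Nat.card {t : (N ⧸ Q) × (N ⧸ Q) × N // IsConj g t.2.2 ∧
        PEl p ((t.2.2 : N ⧸ Q) * (t.1 * t.2.1 * t.1⁻¹ * t.2.1⁻¹))} := by
    have hinv : ∀ (x y k : N ⧸ Q), (y * x * y⁻¹ * x⁻¹ * k⁻¹)⁻¹ = k * (x * y * x⁻¹ * y⁻¹) := by
      intro x y k
      group
    have hP : ∀ x : N ⧸ Q, PEl p x⁻¹ ↔ PEl p x := by
      intro x
      unfold PEl
      rw [orderOf_inv]
    refine Nat.card_congr
      { toFun := fun t => ⟨(t.1.1, t.1.2.1, t.1.2.2.2), t.2.1.2, ?_⟩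
        invFun := fun t => ⟨(t.1.1, t.1.2.1, (t.1.2.1 * t.1.1 * t.1.2.1⁻¹ * t.1.1⁻¹ *
          (t.1.2.2 : N ⧸ Q)⁻¹, t.1.2.2)), ⟨?_, t.2.1⟩, ?_⟩
        left_inv := fun t => ?_
        right_inv := fun t => rfl }
    · have h2 := t.2.2
      have h3 : t.1.2.2.1 = t.1.2.1 * t.1.1 * t.1.2.1⁻¹ * t.1.1⁻¹ * (t.1.2.2.2 : N ⧸ Q)⁻¹ := by
        rw [h2]
        group
      have h4 := t.2.1.1
      rw [h3, ← hP, hinv] at h4
      exact h4
    · change PEl p (t.1.2.1 * t.1.1 * t.1.2.1⁻¹ * t.1.1⁻¹ * (t.1.2.2 : N ⧸ Q)⁻¹)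
      rw [← hP, hinv]
      exact t.2.2
    · change t.1.2.1 * t.1.1 * t.1.2.1⁻¹ = t.1.2.1 * t.1.1 * t.1.2.1⁻¹ * t.1.1⁻¹ *
          (t.1.2.2 : N ⧸ Q)⁻¹ * (t.1.2.2 : N ⧸ Q) * t.1.1
      group
    · apply Subtype.ext
      refine Prod.ext rfl (Prod.ext rfl (Prod.ext ?_ rfl))
      change t.1.2.1 * t.1.1 * t.1.2.1⁻¹ * t.1.1⁻¹ * (t.1.2.2.2 : N ⧸ Q)⁻¹ = t.1.2.2.1
      rw [t.2.2]
      group
  have e3 := card_lift Q (R := N) (fun x y k => IsConj g (k : G) ∧
    PEl p ((k : N ⧸ Q) * (x * y * x⁻¹ * y⁻¹)))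
  have e4 : Nat.card {t : N × N × N // IsConj g (t.2.2 : G) ∧
      PEl p ((t.2.2 : N ⧸ Q) * ((t.1 : N ⧸ Q) * t.2.1 * (t.1 : N ⧸ Q)⁻¹ * (t.2.1 : N ⧸ Q)⁻¹))} =
      Nat.card {t : N × N × N // IsConj g (t.2.2 : G) ∧
        PEl p (t.2.2 * (t.1 * t.2.1 * t.1⁻¹ * t.2.1⁻¹))} := by
    refine Nat.card_congr (Equiv.subtypeEquivRight fun t => and_congr_right fun _ => ?_)
    rw [← pel_mk hQ (t.2.2 * (t.1 * t.2.1 * t.1⁻¹ * t.2.1⁻¹))]
    simp only [QuotientGroup.mk_mul, QuotientGroup.mk_inv]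
  have e5 : Nat.card N = Nat.card (N ⧸ Q) * Nat.card Q :=
    Subgroup.card_eq_card_quotient_mul_card_subgroup Q
  rw [← e4, e3, ← e2, ← h1, e1, e5]
  ring

/-- the side of the weights, for a `p`-subgroup `Q` of `G` -/
theorem norm_trip (Q : Subgroup G) (hQ : IsPGroup p Q) (g : G) :
    Nat.card Q * Nat.card (Subgroup.normalizer (Q : Set G)) *
      secNum p (Subgroup.normalizer (Q : Set G))
        (Q.subgroupOf (Subgroup.normalizer (Q : Set G))) g = tripNum p Q g := by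
  have h0 : IsPGroup p (Q.subgroupOf (Subgroup.normalizer (Q : Set G))) :=
    hQ.comap_subtype
  have h1 := sec_trip (p := p) (Subgroup.normalizer (Q : Set G))
    (Q.subgroupOf (Subgroup.normalizer (Q : Set G))) h0 g
  have h2 : Nat.card (Q.subgroupOf (Subgroup.normalizer (Q : Set G))) = Nat.card Q :=
    Nat.card_congr (Subgroup.subgroupOfEquivOfLe Subgroup.le_normalizer).toEquiv
  rw [h2] at h1
  rw [h1]
  unfold tripNum
  refine Nat.card_congr
    { toFun := fun t => ⟨((t.1.1 : G), (t.1.2.1 : G), (t.1.2.2 : G)),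
        ⟨t.1.1.2, t.1.2.1.2, t.1.2.2.2⟩, t.2.1, ?_⟩
      invFun := fun t => ⟨(⟨t.1.1, t.2.1.1⟩, ⟨t.1.2.1, t.2.1.2.1⟩, ⟨t.1.2.2, t.2.1.2.2⟩), t.2.2.1, ?_⟩
      left_inv := fun t => rfl
      right_inv := fun t => rfl }
  · obtain ⟨j, hj⟩ := t.2.2
    refine ⟨j, ?_⟩
    rw [← hj, ← Subgroup.orderOf_coe]
    rfl
  · obtain ⟨j, hj⟩ := t.2.2.2
    refine ⟨j, ?_⟩
    rw [← hj, ← Subgroup.orderOf_coe]
    rfl

/-- `tripNum` is invariant under conjugation -/
theorem tripNum_conj (Q : Subgroup G) (a g : G) :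
    tripNum p (Q.map (MulAut.conj a).toMonoidHom) g = tripNum p Q g := by
  have hmem : ∀ w : G, w ∈ Q.map (MulAut.conj a).toMonoidHom ↔ a⁻¹ * w * a ∈ Q := by
    intro w
    constructor
    · rintro ⟨y, hy, rfl⟩
      have : a⁻¹ * (MulAut.conj a).toMonoidHom y * a = y := by
        change a⁻¹ * (a * y * a⁻¹) * a = y
        group
      rw [this]
      exact hy
    · intro h
      refine ⟨_, h, ?_⟩
      change a * (a⁻¹ * w * a) * a⁻¹ = w
      group
  have hN : ∀ x : G, a * x * a⁻¹ ∈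
      Subgroup.normalizer ((Q.map (MulAut.conj a).toMonoidHom : Subgroup G) : Set G) ↔
      x ∈ Subgroup.normalizer (Q : Set G) := by
    intro x
    rw [Subgroup.mem_normalizer_iff, Subgroup.mem_normalizer_iff]
    constructor
    · intro h w
      have h1 := h (a * w * a⁻¹)
      rw [hmem, hmem] at h1
      have e1 : a⁻¹ * (a * w * a⁻¹) * a = w := by group
      have e2 : a⁻¹ * (a * x * a⁻¹ * (a * w * a⁻¹) * (a * x * a⁻¹)⁻¹) * a = x * w * x⁻¹ := by
        group
      rw [e1, e2] at h1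
      exact h1
    · intro h w
      rw [hmem, hmem]
      have e2 : a⁻¹ * (a * x * a⁻¹ * w * (a * x * a⁻¹)⁻¹) * a = x * (a⁻¹ * w * a) * x⁻¹ := by
        group
      rw [e2]
      exact h _
  unfold tripNum
  refine (Nat.card_congr (Equiv.subtypeEquiv (Equiv.prodCongr (MulAut.conj a).toEquiv
    (Equiv.prodCongr (MulAut.conj a).toEquiv (MulAut.conj a).toEquiv)) fun t => ?_)).symm
  have e3 : IsConj g (a * t.2.2 * a⁻¹) ↔ IsConj g t.2.2 := by
    have h1 : IsConj t.2.2 (a * t.2.2 * a⁻¹) := isConj_iff.mpr ⟨a, rfl⟩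
    exact ⟨fun h2 => h2.trans h1.symm, fun h2 => h2.trans h1⟩
  change _ ↔ (a * t.1 * a⁻¹ ∈ _ ∧ a * t.2.1 * a⁻¹ ∈ _ ∧ a * t.2.2 * a⁻¹ ∈ _) ∧
    IsConj g (a * t.2.2 * a⁻¹) ∧ PEl p (a * t.2.2 * a⁻¹ * (a * t.1 * a⁻¹ * (a * t.2.1 * a⁻¹) *
      (a * t.1 * a⁻¹)⁻¹ * (a * t.2.1 * a⁻¹)⁻¹))
  have e4 : a * t.2.2 * a⁻¹ * (a * t.1 * a⁻¹ * (a * t.2.1 * a⁻¹) *
      (a * t.1 * a⁻¹)⁻¹ * (a * t.2.1 * a⁻¹)⁻¹) =
      a * (t.2.2 * (t.1 * t.2.1 * t.1⁻¹ * t.2.1⁻¹)) * a⁻¹ := by group
  rw [hN, hN, hN, e3, e4, PEl.conj]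

/-- **The side of the weights.** -/
theorem wt_trip (g : G) : Nat.card G * wtNum p g =
    ∑ᶠ Q : {Q : Subgroup G // IsPGroup p Q}, tripNum p Q.1 g / Nat.card Q.1 := by
  let P : Type := {Q : Subgroup G // IsPGroup p Q}
  have hP : Finite P := inferInstanceAs (Finite {Q : Subgroup G // IsPGroup p Q})
  have : Fintype P := Fintype.ofFinite P
  let _act : MulAction G P :=
    { smul := fun g Q => ⟨Q.1.map (MulAut.conj g).toMonoidHom, Q.2.map _⟩
      one_smul := fun Q => by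
        apply Subtype.ext
        change Q.1.map (MulAut.conj (1 : G)).toMonoidHom = Q.1
        ext x
        simp [Subgroup.mem_map]
      mul_smul := fun g h Q => by
        apply Subtype.ext
        change Q.1.map (MulAut.conj (g * h)).toMonoidHom =
          (Q.1.map (MulAut.conj h).toMonoidHom).map (MulAut.conj g).toMonoidHom
        rw [Subgroup.map_map]
        congr 1
        ext x
        simp [mul_assoc] }
  have hsm : ∀ (g : G) (Q : P), (g • Q).1 = Q.1.map (MulAut.conj g).toMonoidHom := fun _ _ => rfl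
  have hcard : ∀ (a : G) (Q : Subgroup G),
      Nat.card (Q.map (MulAut.conj a).toMonoidHom : Subgroup G) = Nat.card Q := fun a Q =>
    (Nat.card_congr (Q.equivMapOfInjective _ (MulAut.conj a).injective).toEquiv).symm
  have hstab : ∀ Q : P, Nat.card (MulAction.stabilizer G Q) =
      Nat.card (Subgroup.normalizer (Q.1 : Set G)) := by
    intro Q
    refine Nat.card_congr (Equiv.subtypeEquivRight fun g => ?_)
    rw [MulAction.mem_stabilizer_iff, Subtype.ext_iff, hsm, Subgroup.mem_normalizer_iff]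
    constructor
    · intro h3 x
      constructor
      · intro hx
        have : g * x * g⁻¹ ∈ Q.1.map (MulAut.conj g).toMonoidHom := ⟨x, hx, rfl⟩
        rw [h3] at this
        exact this
      · intro hx
        have hx' : g * x * g⁻¹ ∈ Q.1 := hx
        rw [← h3] at hx'
        obtain ⟨y, hy, hyx⟩ := hx'
        have : g * y * g⁻¹ = g * x * g⁻¹ := hyx
        have : y = x := by simpa using this
        rwa [← this]
    · intro h3
      ext x
      constructor
      · rintro ⟨y, hy, rfl⟩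
        exact (h3 y).mp hy
      · intro hx
        refine ⟨g⁻¹ * x * g, (h3 _).mpr ?_, ?_⟩
        · have : g * (g⁻¹ * x * g) * g⁻¹ = x := by group
          rw [this]
          exact hx
        · change g * (g⁻¹ * x * g) * g⁻¹ = x
          group
  let s : P → ℕ := fun Q => secNum p (Subgroup.normalizer (Q.1 : Set G))
    (Q.1.subgroupOf (Subgroup.normalizer (Q.1 : Set G))) g
  have hs : ∀ Q : P, Nat.card Q.1 * Nat.card (Subgroup.normalizer (Q.1 : Set G)) * s Q =
      tripNum p Q.1 g := fun Q => norm_trip Q.1 Q.2 g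
  have hpos : ∀ Q : P, 0 < Nat.card Q.1 * Nat.card (Subgroup.normalizer (Q.1 : Set G)) :=
    fun Q => Nat.mul_pos Nat.card_pos Nat.card_pos
  have h6 := orbit_sum (G := G) (Ω := P) (pSubgroupSetoid p G) (by
    intro Q R
    change (∃ g : G, R.1 = Q.1.map (MulAut.conj g).toMonoidHom) ↔ _
    constructor
    · rintro ⟨g, hg⟩
      exact ⟨g, Subtype.ext (by rw [hsm, hg])⟩
    · rintro ⟨g, hg⟩
      exact ⟨g, by rw [← hg, hsm]⟩) s (by
      rintro Q R ⟨a, ha⟩
      have hR : a • Q = R := Subtype.ext (by rw [hsm, ha])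
      have h1 := hs Q
      have h2 := hs R
      have h3 : Nat.card R.1 = Nat.card Q.1 := by rw [ha, hcard]
      have h4 : Nat.card (Subgroup.normalizer (R.1 : Set G)) =
          Nat.card (Subgroup.normalizer (Q.1 : Set G)) := by
        rw [← hstab, ← hstab, ← hR]
        have : Fintype G := Fintype.ofFinite G
        have hne : Nonempty (MulAction.orbit G Q) := ⟨⟨Q, MulAction.mem_orbit_self Q⟩⟩
        have := MulAction.card_orbit_mul_card_stabilizer_eq_card_group G Q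
        have h5 := MulAction.card_orbit_mul_card_stabilizer_eq_card_group G (a • Q)
        have h6 : MulAction.orbit G (a • Q) = MulAction.orbit G Q := MulAction.orbit_smul a Q
        have h7 : Fintype.card (MulAction.orbit G (a • Q)) = Fintype.card (MulAction.orbit G Q) :=
          Fintype.card_congr (Equiv.setCongr h6)
        rw [h7] at h5
        have h8 : 0 < Fintype.card (MulAction.orbit G Q) := Fintype.card_pos
        rw [Nat.card_eq_fintype_card, Nat.card_eq_fintype_card]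
        exact Nat.eq_of_mul_eq_mul_left h8 (h5.trans this.symm)
      rw [h3, h4, ha, tripNum_conj, ← h1] at h2
      exact (Nat.eq_of_mul_eq_mul_left (hpos Q) h2).symm)
  change Nat.card G * ∑ᶠ q : Quotient (pSubgroupSetoid p G), s q.out = _
  rw [h6, finsum_eq_sum_of_fintype]
  refine Finset.sum_congr rfl fun Q _ => ?_
  rw [hstab Q, ← hs Q, mul_assoc, Nat.mul_div_cancel_left _ Nat.card_pos]

end wt

/-- **The conjecture modulo `p` in terms of commutators.** -/
theorem com_iff (p : ℕ) [Fact p.Prime] {G : Type} [Group G] [Finite G] (g : G) :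
    regNum p g ≡ wtNum p g [MOD p] ↔
      regTrip p g ≡ ∑ᶠ Q : {Q : Subgroup G // IsPGroup p Q}, tripNum p Q.1 g / Nat.card Q.1
        [MOD p ^ ((Nat.card G).factorization p + 1)] := by
  have hp : p.Prime := Fact.out
  rw [← reg_trip, ← wt_trip]
  have h1 : p ^ (Nat.card G).factorization p * (Nat.card G / p ^ (Nat.card G).factorization p) =
    Nat.card G := Nat.ordProj_mul_ordCompl_eq_self _ _
  have h2 : Nat.Coprime p (Nat.card G / p ^ (Nat.card G).factorization p) :=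
    Nat.coprime_ordCompl hp Nat.card_pos.ne'
  set a := (Nat.card G).factorization p
  set m := Nat.card G / p ^ a
  rw [← h1, pow_succ, mul_assoc, mul_assoc]
  constructor
  · intro h
    exact (h.mul_left m).mul_left' (p ^ a)
  · intro h
    have h3 := Nat.ModEq.mul_left_cancel' (pow_pos hp.pos a).ne' h
    exact Nat.ModEq.cancel_left_of_coprime h2 h3

end Pool.Agent.N85.WM
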