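import Pool.Agent.N85.WM.Stm
import Pool.Agent.Y487.NV.PewL

/-!
# Project WM: invariant weights of a normal subgroup of index `p`, preparations
-/

set_option autoImplicit false

open scoped Classical

noncomputable section

namespace Pool.Agent.N85.WM.Cov

open Pool.Agent.N85.WM
open Pool.Agent.Y63.NV
open Pool.Agent.Y63.AWC (IsIrreducibleCharacter)
open Pool.Agent.Y487.NV (fib comap_eq_range)
open Pool.Agent.Y210.NV3 (wt_iff wt_exists)

section gen

variable {F N Y A : Type} [Field F] [Group N] [Group Y] [Group A] [Finite N] [Finite A]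

/-- invariant characters of defect zero and inflation -/
theorem inv_gen (p : ℕ) (red : integralClosure ℤ ℂ →+* F) (π : N →* Y)
    (hπ : Function.Surjective π) (zN : N → F) (j : A →* N) (hj : Function.Injective j)
    (V : Subgroup Y) (hV : ∀ n, π n ∈ V ↔ n ∈ j.range) (S : Subgroup A)
    (hS1 : ∀ a : A, a ∈ S ↔ π (j a) = 1) (fA : A → F)
    (hfA : ∀ a, fA a = zN (j a)) (hcl : IsClassFun fA) (c : F) :
    numInvDzL p red V (fib π zN) c = Nat.card {ψ : A → ℂ // IsWt p S ψ ∧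
      centralValue red ψ fA = c ∧ ∀ (n : N) (a b : A), j b = n * j a * n⁻¹ → ψ b = ψ a} := by
  let φ : A →* V := (π.comp j).codRestrict V (fun a => (hV _).2 ⟨a, rfl⟩)
  have hφ : Function.Surjective φ := by
    rintro ⟨v, hv⟩
    obtain ⟨n, rfl⟩ := hπ v
    obtain ⟨a, rfl⟩ := (hV n).1 hv
    exact ⟨a, rfl⟩
  have hφv : ∀ a, ((φ a : V) : Y) = π (j a) := fun a => rfl
  have hS : S = (⊥ : Subgroup V).comap φ := by
    ext a
    rw [hS1, Subgroup.mem_comap, Subgroup.mem_bot, Subtype.ext_iff]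
    rfl
  have hfv : Finite V := Finite.of_surjective φ hφ
  have hfib : (fun y : V => ∑ᶠ x : A, if φ x = y then fA x else 0) =
      fun y : V => fib π zN y := by
    funext y
    unfold fib
    have e1 : ∀ n : N, (if π n = (y : Y) then zN n else 0) =
        ∑ᶠ (_ : n ∈ Set.range j), (if π n = (y : Y) then zN n else 0) := by
      intro n
      rw [finsum_eq_if]
      by_cases hn : n ∈ Set.range j
      · rw [if_pos hn]
      · rw [if_neg hn, if_neg]
        intro h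
        apply hn
        have h2 : π n ∈ V := by rw [h]; exact y.2
        exact (hV n).1 h2
    rw [finsum_congr e1, finsum_mem_range hj]
    refine finsum_congr fun a => ?_
    have h3 : φ a = y ↔ π (j a) = (y : Y) := Subtype.ext_iff
    rw [hfA]
    by_cases h4 : φ a = y
    · rw [if_pos h4, if_pos (h3.1 h4)]
    · rw [if_neg h4, if_neg fun h5 => h4 (h3.2 h5)]
  have hcv : ∀ χ : V → ℂ, IsIrreducibleCharacter χ →
      centralValue red (fun x => χ (φ x)) fA = centralValue red χ (fun y : V => fib π zN y) := by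
    intro χ hχ
    rw [Pool.Agent.Y930.NV.inf F red A V φ χ fA hφ hχ hcl, ← hfib]
    congr 1
    funext y
    refine finsum_congr fun a => ?_
    split_ifs <;> rfl
  unfold numInvDzL
  refine Nat.card_congr (Equiv.ofBijective
    (fun χ => ⟨fun x => χ.1 (φ x), ?_, ?_, ?_⟩) ⟨?_, ?_⟩)
  · rw [hS]
    refine (wt_iff φ hφ p ⊥ χ.1).2 ⟨χ.2.1.1, ?_, ?_⟩
    · intro q hq x
      rw [Subgroup.mem_bot.1 hq, one_mul]
    · obtain ⟨n, h1, h2⟩ := χ.2.1.2.1
      refine ⟨n, h1, ?_⟩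
      rw [Subgroup.card_bot, Nat.factorization_one, Finsupp.zero_apply, add_zero]
      exact h2
  · rw [hcv _ χ.2.1.1]
    exact χ.2.2
  · intro n a b hab
    refine χ.2.1.2.2 (π n) (φ a) (φ b) ?_
    rw [hφv, hφv, hab, map_mul, map_mul, map_inv]
  · intro χ χ' h
    apply Subtype.ext
    funext y
    obtain ⟨x, rfl⟩ := hφ y
    exact congrFun (congrArg Subtype.val h) x
  · rintro ⟨ψ, h1, h2, h3⟩
    rw [hS] at h1
    obtain ⟨χ, rfl⟩ := wt_exists φ hφ p ⊥ h1
    have h4 := (wt_iff φ hφ p ⊥ χ).1 h1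
    refine ⟨⟨χ, ⟨h4.irr, ?_, ?_⟩, ?_⟩, rfl⟩
    · obtain ⟨n, h5, h6⟩ := h4.defectZero
      refine ⟨n, h5, ?_⟩
      rw [Subgroup.card_bot, Nat.factorization_one, Finsupp.zero_apply, add_zero] at h6
      exact h6
    · intro y a b hab
      obtain ⟨n, rfl⟩ := hπ y
      obtain ⟨a', rfl⟩ := hφ a
      have h5 : π (n * j a' * n⁻¹) ∈ V := by
        rw [map_mul, map_mul, map_inv, ← hφv, ← hab]
        exact b.2
      obtain ⟨b', hb'⟩ := (hV _).1 h5
      have h6 : φ b' = b := by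
        apply Subtype.ext
        rw [hφv, hb', map_mul, map_mul, map_inv, ← hφv, ← hab]
      rw [← h6]
      exact h3 n a' b' hb'
    · rw [← hcv _ h4.irr]
      exact h2

end gen

section fixed

variable {Γ : Type} [Group Γ] [Finite Γ] {p : ℕ}

/-- conjugation and the subgroup -/
theorem mem_norm_of (G : Subgroup Γ) [G.Normal] (Q₁ : Subgroup G) (g : Γ)
    (h : ∀ x y : G, (y : Γ) = g * x * g⁻¹ → (x ∈ Q₁ ↔ y ∈ Q₁)) :
    g ∈ Subgroup.normalizer ((Q₁.map G.subtype : Subgroup Γ) : Set Γ) := by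
  rw [Subgroup.mem_normalizer_iff]
  intro x
  constructor
  · rintro ⟨x', hx', rfl⟩
    have h1 : g * (x' : Γ) * g⁻¹ ∈ G := (inferInstance : G.Normal).conj_mem _ x'.2 g
    exact ⟨⟨_, h1⟩, (h x' ⟨_, h1⟩ rfl).1 hx', rfl⟩
  · rintro ⟨y, hy, hxy⟩
    have h2 : (y : Γ) = g * x * g⁻¹ := hxy
    have h3 : x = g⁻¹ * (y : Γ) * g⁻¹⁻¹ := by
      rw [h2]
      group
    have h1 : x ∈ G := by
      rw [h3]
      exact (inferInstance : G.Normal).conj_mem _ y.2 g⁻¹
    exact ⟨⟨x, h1⟩, (h ⟨x, h1⟩ y h2).2 hy, rfl⟩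

/-- elements outside a subgroup of prime index -/
theorem decomp (hp : p.Prime) (G : Subgroup Γ) [G.Normal] (hG : Nat.card (Γ ⧸ G) = p) (g : Γ)
    (hg : g ∉ G) (n : Γ) : ∃ k : ℤ, n * (g ^ k)⁻¹ ∈ G := by
  have : Fact p.Prime := ⟨hp⟩
  have h1 : (g : Γ ⧸ G) ≠ 1 := fun h => hg ((QuotientGroup.eq_one_iff g).1 h)
  obtain ⟨k, hk⟩ := mem_zpowers_of_prime_card (g := (g : Γ ⧸ G)) (g' := (n : Γ ⧸ G)) hG h1
  refine ⟨k, ?_⟩
  rw [← QuotientGroup.eq_one_iff]
  have h2 : (g : Γ ⧸ G) ^ k = (n : Γ ⧸ G) := hk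
  rw [QuotientGroup.mk_mul, QuotientGroup.mk_inv, QuotientGroup.mk_zpow, h2, mul_inv_cancel]

theorem fixed_iff (hp : p.Prime) (G : Subgroup Γ) [G.Normal] (hG : Nat.card (Γ ⧸ G) = p)
    (Q₁ : Subgroup G) (N : Subgroup Γ)
    (hNdef : N = Subgroup.normalizer ((Q₁.map G.subtype : Subgroup Γ) : Set Γ))
    (hN : ¬ N ≤ G)
    (hA0 : ∀ x : G, x ∈ Subgroup.normalizer (Q₁ : Set G) ↔ (x : Γ) ∈ N)
    (χ : G → ℂ) (h0 : ∀ x : G, x ∉ Subgroup.normalizer (Q₁ : Set G) → χ x = 0)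
    (hcl : ∀ a x : Subgroup.normalizer (Q₁ : Set G), χ ((a * x * a⁻¹ : Subgroup.normalizer
      (Q₁ : Set G)) : G) = χ x) :
    FixedOut G Q₁ χ ↔ ∀ n ∈ N, ∀ a b : Subgroup.normalizer (Q₁ : Set G),
      ((b : G) : Γ) = n * ((a : G) : Γ) * n⁻¹ → χ b = χ a := by
  -- conjugation by elements of `N`
  have hconj : ∀ n ∈ N, ∀ x y : G, (y : Γ) = n * x * n⁻¹ →
      (x ∈ Subgroup.normalizer (Q₁ : Set G) ↔ y ∈ Subgroup.normalizer (Q₁ : Set G)) := by
    intro n hn x y hxy
    rw [hA0, hA0, hxy]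
    constructor
    · intro h
      exact N.mul_mem (N.mul_mem hn h) (N.inv_mem hn)
    · intro h
      have h1 := N.mul_mem (N.mul_mem (N.inv_mem hn) h) hn
      have h2 : n⁻¹ * (n * (x : Γ) * n⁻¹) * n = x := by group
      rwa [h2] at h1
  constructor
  · rintro ⟨g, hg, hgQ, hgχ⟩
    have hgN : g ∈ N := by
      rw [hNdef]
      exact mem_norm_of G Q₁ g hgQ
    -- the stabiliser
    let St : Subgroup Γ :=
      { carrier := {n | n ∈ N ∧ ∀ x y : G, (y : Γ) = n * x * n⁻¹ → χ x = χ y}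
        mul_mem' := by
          rintro m n ⟨hm, hm'⟩ ⟨hn, hn'⟩
          refine ⟨N.mul_mem hm hn, fun x y hxy => ?_⟩
          have h1 : n * (x : Γ) * n⁻¹ ∈ G := (inferInstance : G.Normal).conj_mem _ x.2 n
          rw [hn' x ⟨_, h1⟩ rfl]
          refine hm' _ y ?_
          rw [hxy]
          show m * n * (x : Γ) * (m * n)⁻¹ = m * (n * (x : Γ) * n⁻¹) * m⁻¹
          group
        one_mem' := by
          refine ⟨N.one_mem, fun x y hxy => ?_⟩
          have h1 : y = x := by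
            apply Subtype.ext
            rw [hxy]
            group
          rw [h1]
        inv_mem' := by
          rintro n ⟨hn, hn'⟩
          refine ⟨N.inv_mem hn, fun x y hxy => ?_⟩
          refine (hn' y x ?_).symm
          rw [hxy]
          group }
    have hStG : ∀ n ∈ N, n ∈ G → n ∈ St := by
      intro n hn hnG
      refine ⟨hn, fun x y hxy => ?_⟩
      by_cases hx : x ∈ Subgroup.normalizer (Q₁ : Set G)
      · have h1 := hcl ⟨⟨n, hnG⟩, (hA0 _).2 hn⟩ ⟨x, hx⟩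
        rw [← h1]
        congr 1
        apply Subtype.ext
        rw [hxy]
        rfl
      · rw [h0 x hx, h0 y fun h => hx ((hconj n hn x y hxy).2 h)]
    have hgSt : g ∈ St := ⟨hgN, hgχ⟩
    intro n hn a b hab
    have hnSt : n ∈ St := by
      obtain ⟨k, hk⟩ := decomp hp G hG g hg n
      have h1 : n * (g ^ k)⁻¹ ∈ St :=
        hStG _ (N.mul_mem hn (N.inv_mem (N.zpow_mem hgN k))) hk
      have h2 : n = n * (g ^ k)⁻¹ * g ^ k := by group
      rw [h2]
      exact St.mul_mem h1 (St.zpow_mem hgSt k)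
    exact (hnSt.2 a b hab).symm
  · intro h
    obtain ⟨g, hg, hgG⟩ := SetLike.not_le_iff_exists.1 hN
    refine ⟨g, hgG, ?_, ?_⟩
    · intro x y hxy
      have h1 : g ∈ Subgroup.normalizer ((Q₁.map G.subtype : Subgroup Γ) : Set Γ) := by
        rw [← hNdef]
        exact hg
      rw [Subgroup.mem_normalizer_iff] at h1
      have h2 := h1 x
      have h3 : ∀ u : G, (u : Γ) ∈ Q₁.map G.subtype ↔ u ∈ Q₁ := by
        intro u
        constructor
        · rintro ⟨v, hv, hvu⟩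
          have h4 : v = u := Subtype.ext hvu
          rwa [← h4]
        · intro hu
          exact ⟨u, hu, rfl⟩
      rw [← hxy] at h2
      rwa [h3, h3] at h2
    · intro x y hxy
      by_cases hx : x ∈ Subgroup.normalizer (Q₁ : Set G)
      · exact (h g hg ⟨x, hx⟩ ⟨y, (hconj g hg x y hxy).1 hx⟩ hxy).symm
      · rw [h0 x hx, h0 y fun h => hx ((hconj g hg x y hxy).2 h)]

end fixed

section ext

variable {G : Type} [Group G] {p : ℕ}

/-- extension by zero -/
theorem ext_card {F : Type} [Field F] (red : integralClosure ℤ ℂ →+* F) (Q : Subgroup G)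
    (hQ : IsPGroup p Q) (z : G → F) (c : F) (P : (G → ℂ) → Prop)
    (P' : (Subgroup.normalizer (Q : Set G) → ℂ) → Prop)
    (hP : ∀ χ : G → ℂ, IsW p Q χ →
      (P χ ↔ P' fun x : Subgroup.normalizer (Q : Set G) => χ x)) :
    Nat.card {ψ : Subgroup.normalizer (Q : Set G) → ℂ //
      IsWt p (Q.subgroupOf (Subgroup.normalizer (Q : Set G))) ψ ∧
      centralValue red ψ (fun x => z x) = c ∧ P' ψ} =
    Nat.card {χ : G → ℂ // IsW p Q χ ∧ wcv red Q χ z = c ∧ P χ} := by
  symm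
  refine Nat.card_congr (Equiv.ofBijective
    (fun χ => ⟨fun x : Subgroup.normalizer (Q : Set G) => χ.1 x, χ.2.1.wt, χ.2.2.1,
      (hP _ χ.2.1).1 χ.2.2.2⟩) ⟨?_, ?_⟩)
  · intro χ χ' h
    apply Subtype.ext
    funext x
    by_cases hx : x ∈ Subgroup.normalizer (Q : Set G)
    · exact congrFun (congrArg Subtype.val h) ⟨x, hx⟩
    · rw [χ.2.1.supp x hx, χ'.2.1.supp x hx]
  · rintro ⟨ψ, h1, h2, h3⟩
    obtain ⟨χ, hχ⟩ : ∃ χ : G → ℂ, χ = fun x =>
        if h : x ∈ Subgroup.normalizer (Q : Set G) then ψ ⟨x, h⟩ else 0 := ⟨_, rfl⟩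
    have h4 : (fun x : Subgroup.normalizer (Q : Set G) => χ x) = ψ := by
      funext x
      rw [hχ]
      exact dif_pos x.2
    have h5 : IsW p Q χ := by
      refine ⟨hQ, fun x hx => ?_, ?_⟩
      · rw [hχ]
        exact dif_neg hx
      · rw [h4]
        exact h1
    refine ⟨⟨χ, h5, ?_, ?_⟩, Subtype.ext h4⟩
    · unfold wcv
      rw [h4]
      exact h2
    · rw [hP χ h5, h4]
      exact h3

end ext

end Pool.Agent.N85.WM.Cov
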