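import Pool.Agent.N85.WM.Stm
import Pool.Agent.Y77.NV.Base
import Pool.Agent.Y914.NV.Irr
import Pool.Agent.Y705.NV.Ppt
import Pool.Agent.Y705.NV.Nil
import Pool.Agent.Y275.NV.Wed
import Pool.Agent.Y705.NV.Schur
import Pool.Agent.Y63.NV.Main

/-!
# WM-LT: trace formula for irreducible modular characters
-/

set_option autoImplicit false

open scoped Classical BigOperators

noncomputable section

namespace Pool.Agent.N85.WM.Lt

open Pool.Agent.Y63.NV
open Pool.Agent.Y77.NV (pp_coe pp_pp pp_reg reg_pp pp_conj)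

theorem span' : S_SPAN := span_of Pool.Agent.Y705.NV.nil Pool.Agent.Y275.NV.wed

theorem schur' : S_SCHUR := Pool.Agent.Y705.NV.schur Pool.Agent.Y914.NV.irr

theorem irr_class {F : Type} [Field F] {G : Type} [Group G] {φ : G → F} (h : IsIrrTrace φ) :
    IsClassFun φ := by
  obtain ⟨V, _, _, _, ρ, _, rfl⟩ := h
  intro g x
  exact ρ.char_conj x g

theorem class_conj {F : Type} [Field F] {G : Type} [Group G] {f : G → F} (h : IsClassFun f)
    {x y : G} (hxy : IsConj x y) : f x = f y := by
  obtain ⟨c, hc⟩ := isConj_iff.1 hxy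
  rw [← hc, h c x]

section

variable (p : ℕ) [Fact p.Prime] (F : Type) [Field F] (T : Type) [Group T] [Fintype T]

/-- the class functions on the `p`-regular elements -/
def VV : Submodule F (T → F) where
  carrier := {f | IsClassFun f ∧ ∀ x, f (pp p x) = f x}
  zero_mem' := ⟨fun _ _ => rfl, fun _ => rfl⟩
  add_mem' := by
    rintro a b ⟨h1, h2⟩ ⟨h3, h4⟩
    exact ⟨fun g x => by rw [Pi.add_apply, Pi.add_apply, h1, h3],
      fun x => by rw [Pi.add_apply, Pi.add_apply, h2, h4]⟩
  smul_mem' := by
    rintro c a ⟨h1, h2⟩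
    exact ⟨fun g x => by rw [Pi.smul_apply, Pi.smul_apply, h1],
      fun x => by rw [Pi.smul_apply, Pi.smul_apply, h2]⟩

variable {F T}

/-- the operator of `z` -/
def ZZ (z : T → F) : Module.End F (T → F) where
  toFun f := fun x => ∑ g : T, z g * f (g * x)
  map_add' a b := by
    funext x
    simp only [Pi.add_apply, mul_add, Finset.sum_add_distrib]
  map_smul' c a := by
    funext x
    simp only [Pi.smul_apply, smul_eq_mul, RingHom.id_apply, Finset.mul_sum]
    refine Finset.sum_congr rfl fun g _ => ?_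
    ring

variable {p}

theorem span_eq [IsAlgClosed F] [CharP F p] :
    Submodule.span F {φ : T → F | IsIrrTrace φ} = VV p F T := by
  apply le_antisymm
  · refine Submodule.span_le.2 fun φ hφ => ?_
    exact ⟨irr_class hφ, fun x => Pool.Agent.Y705.NV.ppt p F T φ hφ x⟩
  · rintro f ⟨h1, h2⟩
    exact span' p F T f h1 h2

variable [IsAlgClosed F] [CharP F p]

theorem ZZ_irr (z : T → F) (lam : {φ : T → F // IsIrrTrace φ} → F)
    (hl : ∀ φ : {φ : T → F // IsIrrTrace φ}, ∀ x : T, ∑ g : T, z g * φ.1 (g * x) = lam φ * φ.1 x)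
    (φ : {φ : T → F // IsIrrTrace φ}) : ZZ z φ.1 = lam φ • φ.1 := by
  funext x
  exact hl φ x

theorem ZZ_mem (z : T → F) (lam : {φ : T → F // IsIrrTrace φ} → F)
    (hl : ∀ φ : {φ : T → F // IsIrrTrace φ}, ∀ x : T, ∑ g : T, z g * φ.1 (g * x) = lam φ * φ.1 x) :
    ∀ f ∈ VV p F T, ZZ z f ∈ VV p F T := by
  intro f hf
  rw [← span_eq] at hf
  induction hf using Submodule.span_induction with
  | mem x hx =>
    rw [ZZ_irr z lam hl ⟨x, hx⟩]
    refine (VV p F T).smul_mem _ ?_
    rw [← span_eq]
    exact Submodule.subset_span hx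
  | zero => rw [map_zero]; exact zero_mem _
  | add x y _ _ hx hy => rw [map_add]; exact add_mem hx hy
  | smul a x _ hx => rw [map_smul]; exact Submodule.smul_mem _ _ hx

/-- the trace in the basis of the irreducible traces -/
theorem tr1 [Fintype {φ : T → F // IsIrrTrace φ}] (z : T → F)
    (lam : {φ : T → F // IsIrrTrace φ} → F)
    (hl : ∀ φ : {φ : T → F // IsIrrTrace φ}, ∀ x : T, ∑ g : T, z g * φ.1 (g * x) = lam φ * φ.1 x)
    (h : ∀ f ∈ VV p F T, ZZ z f ∈ VV p F T) :
    LinearMap.trace F (VV p F T) ((ZZ z).restrict h) = ∑ φ, lam φ := by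
  have hm : ∀ φ : {φ : T → F // IsIrrTrace φ}, φ.1 ∈ VV p F T := fun φ => by
    rw [← span_eq]
    exact Submodule.subset_span φ.2
  let v : {φ : T → F // IsIrrTrace φ} → VV p F T := fun φ => ⟨φ.1, hm φ⟩
  have li : LinearIndependent F v := by
    refine LinearIndependent.of_comp (VV p F T).subtype ?_
    exact (Pool.Agent.Y914.NV.irr F T).2
  have sp : ⊤ ≤ Submodule.span F (Set.range v) := by
    rintro ⟨f, hf⟩ _
    have h1 : f ∈ Submodule.map (VV p F T).subtype (Submodule.span F (Set.range v)) := by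
      rw [Submodule.map_span]
      have h2 : (VV p F T).subtype '' Set.range v = {φ : T → F | IsIrrTrace φ} := by
        ext φ
        constructor
        · rintro ⟨_, ⟨ψ, rfl⟩, rfl⟩
          exact ψ.2
        · intro hφ
          exact ⟨v ⟨φ, hφ⟩, ⟨⟨φ, hφ⟩, rfl⟩, rfl⟩
      rw [h2, span_eq]
      exact hf
    obtain ⟨y, hy, hyf⟩ := h1
    have : y = ⟨f, hf⟩ := Subtype.ext hyf
    rw [← this]
    exact hy
  let b := Module.Basis.mk li sp
  rw [LinearMap.trace_eq_matrix_trace F b, Matrix.trace]
  refine Finset.sum_congr rfl fun φ _ => ?_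
  rw [Matrix.diag_apply, LinearMap.toMatrix_apply]
  have h3 : ((ZZ z).restrict h) (b φ) = lam φ • b φ := by
    apply Subtype.ext
    rw [Module.Basis.mk_apply]
    exact ZZ_irr z lam hl φ
  rw [h3, map_smul, Finsupp.smul_apply, b.repr_self, Finsupp.single_eq_same, smul_eq_mul, mul_one]

omit [IsAlgClosed F] [CharP F p] in
/-- the trace in the basis of the class indicators -/
theorem tr2 {ι : Type} [Fintype ι] (r : ι → T) (cl : T → ι) (hc : ∀ x, IsConj (pp p x) (r (cl x)))
    (hi : ∀ i j, IsConj (r i) (r j) → i = j) (hr : ∀ i, ¬ p ∣ orderOf (r i)) (z : T → F)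
    (h : ∀ f ∈ VV p F T, ZZ z f ∈ VV p F T) :
    LinearMap.trace F (VV p F T) ((ZZ z).restrict h) =
      ∑ i : ι, ∑ g : T, if IsConj (pp p (g * r i)) (r i) then z g else 0 := by
  have hcl : ∀ x y : T, IsConj (pp p x) (pp p y) → cl x = cl y := fun x y hxy =>
    hi _ _ (((hc x).symm.trans hxy).trans (hc y))
  have hri : ∀ i, cl (r i) = i := fun i => by
    refine hi _ _ ((hc (r i)).symm.trans ?_)
    rw [pp_reg _ (hr i)]
  let e : VV p F T ≃ₗ[F] (ι → F) :=
    { toFun := fun f i => f.1 (r i)
      map_add' := fun a b => rfl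
      map_smul' := fun c a => rfl
      invFun := fun θ => ⟨fun x => θ (cl x), by
        refine ⟨fun g x => ?_, fun x => ?_⟩
        · have : cl (g * x * g⁻¹) = cl x := by
            apply hcl
            rw [pp_conj]
            exact (isConj_iff.2 ⟨g, rfl⟩ : IsConj (pp p x) (g * pp p x * g⁻¹)).symm
          simp only [this]
        · have : cl (pp p x) = cl x := by
            apply hcl
            rw [pp_pp]
          simp only [this]⟩
      left_inv := fun f => by
        apply Subtype.ext
        funext x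
        show f.1 (r (cl x)) = f.1 x
        rw [← f.2.2 x]
        exact (class_conj f.2.1 (hc x)).symm
      right_inv := fun θ => by
        funext i
        show θ (cl (r i)) = θ i
        rw [hri] }
  let b := Module.Basis.ofEquivFun e
  rw [LinearMap.trace_eq_matrix_trace F b, Matrix.trace]
  refine Finset.sum_congr rfl fun i _ => ?_
  rw [Matrix.diag_apply, LinearMap.toMatrix_apply]
  have h1 : b.repr (((ZZ z).restrict h) (b i)) i = (((ZZ z).restrict h) (b i)).1 (r i) := rfl
  rw [h1]
  show ∑ g : T, z g * (b i).1 (g * r i) = _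
  refine Finset.sum_congr rfl fun g _ => ?_
  have h2 : ∀ y, (b i).1 y = if cl y = i then 1 else 0 := by
    intro y
    have : b i = e.symm (Pi.single i 1) := by
      simp [b, Module.Basis.ofEquivFun]
    rw [this]
    show (Pi.single i 1 : ι → F) (cl y) = _
    rw [Pi.single_apply]
  rw [h2]
  have h3 : cl (g * r i) = i ↔ IsConj (pp p (g * r i)) (r i) := by
    constructor
    · intro h4
      have := hc (g * r i)
      rwa [h4] at this
    · intro h4
      rw [← hri i]
      apply hcl
      rw [hri i, pp_reg _ (hr i)]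
      exact h4
  by_cases h4 : cl (g * r i) = i
  · rw [if_pos h4, if_pos (h3.1 h4), mul_one]
  · rw [if_neg h4, if_neg (fun h5 => h4 (h3.2 h5)), mul_zero]

end

theorem main : S_LT := by
  intro p _ F _ _ _ G _ _ z hz
  let T := ↥(⊤ : Subgroup G)
  letI : Fintype T := Fintype.ofFinite T
  letI : Fintype G := Fintype.ofFinite G
  let z' : T → F := fun x => z x
  have hz' : IsClassFun z' := fun g x => hz g x
  letI : Finite {φ : T → F // IsIrrTrace φ} := (Pool.Agent.Y914.NV.irr F T).1
  letI : Fintype {φ : T → F // IsIrrTrace φ} := Fintype.ofFinite _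
  have hs : ∀ φ : {φ : T → F // IsIrrTrace φ}, ∃ l : F,
      ∀ x : T, ∑ g : T, z' g * φ.1 (g * x) = l * φ.1 x := by
    intro φ
    obtain ⟨_, B, _, hB⟩ := schur' F T φ.1 φ.2
    refine ⟨B z', fun x => ?_⟩
    rw [← hB z' hz' x, finsum_eq_sum_of_fintype]
  choose lam hlam using hs
  have hmem := ZZ_mem (p := p) z' lam hlam
  have t1 := tr1 (p := p) z' lam hlam hmem
  -- the left hand side
  have hL : ∀ c : F, (Lnum (⊤ : Subgroup G) ⊤ z c : ℕ) =
      (Finset.univ.filter fun φ : {φ : T → F // IsIrrTrace φ} => lam φ = c).card := by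
    intro c
    unfold Lnum
    rw [← Fintype.card_subtype, ← Nat.card_eq_fintype_card]
    refine Nat.card_congr
      { toFun := fun φ => ⟨⟨φ.1, φ.2.1⟩, ?_⟩
        invFun := fun φ => ⟨φ.1.1, φ.1.2, ?_, ?_⟩
        left_inv := fun φ => rfl
        right_inv := fun φ => rfl }
    · obtain ⟨⟨y, hy⟩, _⟩ := schur' F T φ.1 φ.2.1
      have h1 := hlam ⟨φ.1, φ.2.1⟩ y
      have h2 := φ.2.2.2 y
      rw [finsum_eq_sum_of_fintype] at h2
      exact mul_right_cancel₀ hy (h1.symm.trans h2)
    · intro h _ x y hxy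
      have hc := irr_class φ.1.2
      have : y = (⟨h, trivial⟩ : T) * x * (⟨h, trivial⟩ : T)⁻¹ := Subtype.ext hxy
      rw [this]
      exact hc _ _
    · intro x
      rw [finsum_eq_sum_of_fintype]
      have h1 := hlam φ.1 x
      rwa [φ.2] at h1
  have hLHS : ∑ᶠ c : F, c * (Lnum (⊤ : Subgroup G) ⊤ z c : F) = ∑ φ, lam φ := by
    have hsup : Function.support (fun c : F => c * (Lnum (⊤ : Subgroup G) ⊤ z c : F)) ⊆
        ↑(Finset.univ.image lam) := by
      intro c hc
      rw [Function.mem_support] at hc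
      rw [Finset.coe_image, Finset.coe_univ, Set.image_univ]
      by_contra hn
      apply hc
      rw [hL c, Finset.filter_false_of_mem (fun φ _ h => hn ⟨φ, h⟩)]
      simp
    rw [finsum_eq_sum_of_support_subset _ hsup,
      ← Finset.sum_fiberwise_of_maps_to (g := lam) (t := Finset.univ.image lam)
        (fun x _ => Finset.mem_image_of_mem lam (Finset.mem_univ x)) lam]
    refine Finset.sum_congr rfl fun c _ => ?_
    rw [hL c, Finset.sum_congr rfl (g := fun _ => c) (fun x hx => (Finset.mem_filter.1 hx).2),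
      Finset.sum_const, nsmul_eq_mul, mul_comm]
  rw [hLHS, ← t1]
  -- the right hand side
  letI : Fintype (ConjClasses G) := Fintype.ofFinite _
  let r : {C : ConjClasses G // ¬ p ∣ orderOf C.out} → T := fun C => ⟨C.1.out, trivial⟩
  have out_conj : ∀ x : G, IsConj x (ConjClasses.mk x).out := fun x => by
    rw [← ConjClasses.mk_eq_mk_iff_isConj]
    exact (Quotient.out_eq _).symm
  have ord_conj : ∀ x y : G, IsConj x y → orderOf x = orderOf y := fun x y hxy => by
    obtain ⟨c, hc⟩ := isConj_iff.1 hxy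
    rw [← hc]
    exact ((MulAut.conj c).orderOf_eq x).symm
  let cl : T → {C : ConjClasses G // ¬ p ∣ orderOf C.out} := fun x =>
    ⟨ConjClasses.mk (pp p (x : G)), by
      rw [← ord_conj _ _ (out_conj _)]
      exact reg_pp _⟩
  have conjT : ∀ x y : T, IsConj x y ↔ IsConj (x : G) (y : G) := by
    intro x y
    rw [isConj_iff, isConj_iff]
    constructor
    · rintro ⟨c, hc⟩
      exact ⟨c, congrArg Subtype.val hc⟩
    · rintro ⟨c, hc⟩
      exact ⟨⟨c, trivial⟩, Subtype.ext hc⟩
  have t2 := tr2 (p := p) r cl (fun x => by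
      rw [conjT, pp_coe]
      exact out_conj _) (fun i j hij => by
      rw [conjT] at hij
      have := (ConjClasses.mk_eq_mk_iff_isConj).2 hij
      apply Subtype.ext
      have e1 : ConjClasses.mk (i.1.out) = i.1 := Quotient.out_eq _
      have e2 : ConjClasses.mk (j.1.out) = j.1 := Quotient.out_eq _
      exact e1.symm.trans (this.trans e2)) (fun i => by
      have : orderOf (r i) = orderOf i.1.out := (Subgroup.orderOf_coe (r i)).symm
      rw [this]
      exact i.2) z' hmem
  rw [t2, finsum_eq_sum_of_fintype]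
  rw [← Finset.sum_filter, ← Finset.sum_subtype_eq_sum_filter]
  refine Finset.sum_bij (fun i _ => (i : {C : ConjClasses G // ¬ p ∣ orderOf C.out})) ?_ ?_ ?_ ?_
  · intro i _; simp
  · intro i _ j _ hij; exact hij
  · intro i _; exact ⟨i, Finset.mem_univ _, rfl⟩
  · intro i _
    rw [finsum_eq_sum_of_fintype]
    refine Finset.sum_bij (fun g _ => (g : G)) ?_ ?_ ?_ ?_
    · intro g _; exact Finset.mem_univ _
    · intro g _ g' _ hg; exact Subtype.ext hg
    · intro g _; exact ⟨⟨g, trivial⟩, Finset.mem_univ _, rfl⟩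
    · intro g _
      have : IsConj (pp p (g * r i)) (r i) ↔ IsConj (pp p ((g : G) * i.1.out)) i.1.out := by
        rw [conjT, pp_coe]
        rfl
      simp only [this]
      rfl

end Pool.Agent.N85.WM.Lt
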