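import Pool.Agent.N85.WM.Free

/-!
# The conjecture for the whole group algebra
-/

set_option autoImplicit false

open scoped Classical BigOperators

noncomputable section

namespace Pool.Agent.N85.WM

open Pool.Agent.Y63.NV
open Pool.Agent.Y63.AWC (IsIrreducibleCharacter pSubgroupSetoid)

/-- the number of irreducible traces over `F` -/
def numIrr (F : Type) [Field F] (G : Type) [Group G] : ℕ := Nat.card {φ : G → F // IsIrrTrace φ}

/-- the number of classes of weights -/
def numWt (p : ℕ) (G : Type) [Group G] : ℕ :=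
  ∑ᶠ q : Quotient (pSubgroupSetoid p G),
    Nat.card {χ : Subgroup.normalizer (q.out.1 : Set G) → ℂ //
      IsWt p (q.out.1.subgroupOf (Subgroup.normalizer (q.out.1 : Set G))) χ}

/-- the unit element of the group algebra -/
def uno (F : Type) [Field F] (G : Type) [Group G] : G → F := fun x => if x = 1 then 1 else 0

section

variable {p : ℕ} {F : Type} [Field F] {G : Type} [Group G] [Finite G]

omit [Finite G] in
theorem uno_class : IsClassFun (uno F G) := by
  intro g x
  unfold uno
  have : g * x * g⁻¹ = 1 ↔ x = 1 := by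
    rw [mul_inv_eq_one, mul_eq_left]
  simp only [this]

omit [Finite G] in
theorem block_uno {B : (G → F) → F} (hB : IsBlock B) : B (uno F G) = 1 := by
  rw [← hB.one]
  congr 1
  funext x
  unfold uno
  by_cases hx : x = 1
  · subst hx
    rw [if_pos rfl, Pi.single_eq_same]
  · rw [if_neg hx, Pi.single_eq_of_ne hx]

omit [Finite G] in
theorem uno_idem : IsIdem (uno F G) := ⟨uno_class, fun _ hB => Or.inr (block_uno hB)⟩

theorem wrF_uno [NeZero p] : wrF p (uno F G) = uno F (Wr p G) := by
  funext x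
  unfold wrF uno
  by_cases hx : x = 1
  · subst hx
    simp
  · rw [if_neg hx]
    by_cases hr : x.right = 1
    · rw [if_pos hr]
      have : ∃ i, x.left i ≠ 1 := by
        by_contra hne
        push Not at hne
        exact hx (SemidirectProduct.ext (funext hne) hr)
      obtain ⟨i, hi⟩ := this
      exact Finset.prod_eq_zero (Finset.mem_univ i) (if_neg hi)
    · rw [if_neg hr]

theorem lnum_uno [IsAlgClosed F] : Lnum (⊤ : Subgroup G) ⊤ (uno F G) 1 = numIrr F G := by
  rw [lnum_top uno_class]
  refine Nat.card_congr (Equiv.subtypeUnivEquiv fun φ => ?_)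
  exact block_uno (blkOf_block φ)

theorem card_YS : Nat.card (YS p G) = numWt p G := by
  have h := card_sig (fun q : Quotient (pSubgroupSetoid p G) => YW p q.out.1) (fun _ => True)
  have h1 : Nat.card {s : (Σ q : Quotient (pSubgroupSetoid p G), YW p q.out.1) // True} =
      Nat.card (YS p G) := Nat.card_congr (Equiv.subtypeUnivEquiv fun _ => trivial)
  rw [← h1, h]
  refine finsum_congr fun q => ?_
  exact Nat.card_congr (Equiv.subtypeUnivEquiv fun _ => trivial)

theorem cvS_uno [Fact p.Prime] [IsAlgClosed F] [CharP F p] (red : integralClosure ℤ ℂ →+* F) :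
    Nat.card {y : YS p G // cvS red y (uno F G) = 1} = numWt p G := by
  rw [← card_YS]
  exact Nat.card_congr (Equiv.subtypeUnivEquiv fun y => block_uno (cvS_block red y))

end

/-- the induction step for the whole group algebra -/
theorem step_tot (hLW : S_LW) (hWW : S_WW) {p : ℕ} [Fact p.Prime] (F : Type) [Field F]
    [IsAlgClosed F] [CharP F p] (red : integralClosure ℤ ℂ →+* F) {k : ℕ} (hk : 1 ≤ k)
    (G : Type) [Group G] [Finite G] (h1 : numIrr F G ≡ numWt p G [MOD p ^ k])
    (h2 : numIrr F (Wr p G) ≡ numWt p (Wr p G) [MOD p ^ k]) :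
    numIrr F G ≡ numWt p G [MOD p ^ (k + 1)] := by
  have hp : p.Prime := Fact.out
  have he : IsIdem (uno F G) := uno_idem
  have e1 : Lnum (⊤ : Subgroup G) ⊤ (uno F G) 1 = numIrr F G := lnum_uno
  have e2 := cvS_uno (p := p) (G := G) red
  set l : ℕ := numIrr F G
  set w : ℕ := numWt p G
  have hz := wrF_inZ p G he.cl
  have hzc : IsClassFun (wrF p (uno F G)) := hz.conj
  have g0 : (Nat.card G : ℤ) ≠ 0 := by exact_mod_cast (Nat.card_pos (α := G)).ne'
  have gp0 : (Nat.card G : ℤ) ^ p ≠ 0 := pow_ne_zero _ g0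
  have p0 : (p : ℤ) ≠ 0 := by exact_mod_cast hp.ne_zero
  have a1 := pell' p F (Wr p G) (Base p G) (wrF p (uno F G)) 1 (card_quot p G) hz
  obtain ⟨a2, a3⟩ := hLW p F G (uno F G) he
  rw [a2, a3, lsum_top, card_wr, e1, wrF_uno, lnum_uno] at a1
  set L : ℕ := numIrr F (Wr p G)
  have hL : (p : ℤ) * L = (l : ℤ) ^ p + (p - 1) * l := by
    refine mul_left_cancel₀ (mul_ne_zero p0 gp0) ?_
    push_cast at a1
    linear_combination a1
  have b1 := pewL' p F red (Wr p G) (Base p G) (wrF p (uno F G)) 1 (card_quot p G) hz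
  have b0 : Wsum p red (⊤ : Subgroup G) ⊤ (uno F G) 1 = (Nat.card G : ℤ) * w := by
    rw [wsum_top red he.cl, e2]
  obtain ⟨b2, b3⟩ := hWW p F red G (uno F G) w he b0
  rw [b2, b3, wsum_top red hzc, card_wr, wrF_uno, cvS_uno red] at b1
  set W : ℕ := numWt p (Wr p G)
  have hW : (p : ℤ) * W = (w : ℤ) ^ p + (p - 1) * w := by
    refine mul_left_cancel₀ (mul_ne_zero p0 gp0) ?_
    push_cast at b1
    linear_combination b1
  have d1 : ((p : ℤ) ^ k) ∣ (l : ℤ) - w := by
    have := (Nat.modEq_iff_dvd.mp h1.symm)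
    push_cast at this
    exact this
  have d2 : ((p : ℤ) ^ k) ∣ (L : ℤ) - W := by
    have := (Nat.modEq_iff_dvd.mp h2.symm)
    push_cast at this
    exact this
  have d3 := arith hp hk hL hW d1 d2
  refine (Nat.modEq_iff_dvd.mpr ?_).symm
  push_cast
  exact d3

/-- **Congruences modulo `p` imply the conjecture, for the whole group algebra.** -/
theorem tot_of_modp (hLW : S_LW) (hWW : S_WW) {p : ℕ} [Fact p.Prime] (F : Type) [Field F]
    [IsAlgClosed F] [CharP F p] (red : integralClosure ℤ ℂ →+* F)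
    (X : ∀ (H : Type) [Group H], Prop)
    (hX : ∀ (H : Type) [Group H] [Finite H], X H → X (Wr p H))
    (h : ∀ (H : Type) [Group H] [Finite H], X H → numIrr F H ≡ numWt p H [MOD p])
    (G : Type) [Group G] [Finite G] (hG : X G) : numIrr F G = numWt p G := by
  have hp : p.Prime := Fact.out
  have key : ∀ k : ℕ, 1 ≤ k → ∀ (H : Type) [Group H] [Finite H], X H →
      numIrr F H ≡ numWt p H [MOD p ^ k] := by
    intro k hk
    induction k, hk using Nat.le_induction with
    | base =>
      intro H _ _ hH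
      rw [pow_one]
      exact h H hH
    | succ k hk ih =>
      intro H _ _ hH
      exact step_tot hLW hWW F red hk H (ih H hH) (ih (Wr p H) (hX H hH))
  have h1 := key (max 1 (max (numIrr F G) (numWt p G))) (le_max_left _ _) G hG
  have h2 : ∀ n : ℕ, n ≤ max 1 (max (numIrr F G) (numWt p G)) →
      n < p ^ (max 1 (max (numIrr F G) (numWt p G))) := fun n hn =>
    lt_of_le_of_lt hn (Nat.lt_pow_self hp.one_lt)
  exact Nat.ModEq.eq_of_lt_of_lt h1
    (h2 _ (le_trans (le_max_left _ _) (le_max_right _ _)))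
    (h2 _ (le_trans (le_max_right _ _) (le_max_right _ _)))

/-! ### the trace formulas -/

/-- the pairs on the side of the irreducible traces -/
def RS (p : ℕ) (G : Type) [Group G] : Type := {s : ConjClasses G × G // ¬ p ∣ orderOf s.1.out ∧
    IsConj (pp p (s.2 * s.1.out)) s.1.out}

instance (p : ℕ) (G : Type) [Group G] [Finite G] : Finite (RS p G) :=
  inferInstanceAs (Finite {s : ConjClasses G × G // ¬ p ∣ orderOf s.1.out ∧
    IsConj (pp p (s.2 * s.1.out)) s.1.out})

/-- the triples on the side of the weights, for one subgroup -/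
def TS1 (p : ℕ) {G : Type} [Group G] (Q : Subgroup G) : Type :=
  {t : ConjClasses (Subgroup.normalizer (Q : Set G) ⧸
      Q.subgroupOf (Subgroup.normalizer (Q : Set G))) ×
    (Subgroup.normalizer (Q : Set G) ⧸ Q.subgroupOf (Subgroup.normalizer (Q : Set G))) ×
    Subgroup.normalizer (Q : Set G) // (∃ j : ℕ, orderOf t.2.1 = p ^ j) ∧
      IsConj (t.2.1 * (t.2.2 : Subgroup.normalizer (Q : Set G) ⧸
        Q.subgroupOf (Subgroup.normalizer (Q : Set G))) * t.1.out) t.1.out}

instance (p : ℕ) {G : Type} [Group G] [Finite G] (Q : Subgroup G) : Finite (TS1 p Q) := by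
  unfold TS1
  infer_instance

/-- the triples on the side of the weights -/
def TS (p : ℕ) (G : Type) [Group G] : Type :=
  Σ q : Quotient (pSubgroupSetoid p G), TS1 p q.out.1

instance (p : ℕ) (G : Type) [Group G] [Finite G] : Finite (TS p G) := by
  unfold TS
  infer_instance

theorem irr_tr (hLT : S_LT) {p : ℕ} [Fact p.Prime] {F : Type} [Field F] [IsAlgClosed F]
    [CharP F p] {G : Type} [Group G] [Finite G] {z : G → F} (hz : IsClassFun z) :
    ∑ᶠ φ : {φ : G → F // IsIrrTrace φ}, blkOf φ z = ∑ᶠ s : RS p G, z s.1.2 := by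
  rw [← sum_fib (fun φ : {φ : G → F // IsIrrTrace φ} => blkOf φ z)]
  have h0 : ∑ᶠ c : F, c * (Nat.card {φ : {φ : G → F // IsIrrTrace φ} // blkOf φ z = c} : F) =
      ∑ᶠ c : F, c * (Lnum (⊤ : Subgroup G) ⊤ z c : F) :=
    finsum_congr fun c => by rw [lnum_top hz c]
  rw [h0, hLT p F G z hz]
  refine Eq.trans ?_ (fs_if (fun (C : ConjClasses G) (k : G) => ¬ p ∣ orderOf C.out ∧
    IsConj (pp p (k * C.out)) C.out) z)
  refine finsum_congr fun C => ?_
  by_cases hC : ¬ p ∣ orderOf C.out
  · rw [if_pos hC]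
    refine finsum_congr fun k => ?_
    simp only [hC, not_false_eq_true, true_and]
  · rw [if_neg hC]
    simp only [hC, false_and, if_false, finsum_zero]

theorem wts_tr (hDZQ : S_DZQ) {p : ℕ} [Fact p.Prime] {F : Type} [Field F] [CharP F p]
    (red : integralClosure ℤ ℂ →+* F) {G : Type} [Group G] [Finite G] {z : G → F}
    (hz : IsClassFun z) :
    ∑ᶠ y : YS p G, cvS red y z = ∑ᶠ t : TS p G, z (t.2.1.2.2 : G) := by
  have i1 : Fintype (Quotient (pSubgroupSetoid p G)) := Fintype.ofFinite _
  have i2 : ∀ Q : Subgroup G, Fintype (YW p Q) := fun Q => Fintype.ofFinite _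
  have i4 : ∀ Q : Subgroup G, Fintype (TS1 p Q) := fun Q => Fintype.ofFinite _
  letI i3 : Fintype (YS p G) := inferInstanceAs (Fintype
    (Σ q : Quotient (pSubgroupSetoid p G), YW p q.out.1))
  letI i5 : Fintype (TS p G) := inferInstanceAs (Fintype
    (Σ q : Quotient (pSubgroupSetoid p G), TS1 p q.out.1))
  rw [finsum_eq_sum_of_fintype, finsum_eq_sum_of_fintype]
  refine Eq.trans (Fintype.sum_sigma (α := fun q : Quotient (pSubgroupSetoid p G) =>
    YW p q.out.1) (fun y => cvS red y z)) ?_
  refine Eq.trans ?_ (Fintype.sum_sigma (α := fun q : Quotient (pSubgroupSetoid p G) =>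
    TS1 p q.out.1) (fun t => z (t.2.1.2.2 : G))).symm
  refine Finset.sum_congr rfl fun q _ => ?_
  let N : Subgroup G := Subgroup.normalizer (q.out.1 : Set G)
  let Q : Subgroup N := q.out.1.subgroupOf N
  have hn : Q.Normal := inferInstanceAs
    ((q.out.1.subgroupOf (Subgroup.normalizer (q.out.1 : Set G))).Normal)
  have h1 := hDZQ p F red N Q (fun x => z x) (fun g x => hz g x)
  refine Eq.trans (@finsum_eq_sum_of_fintype _ _ _ (i2 q.out.1) _).symm ?_
  refine h1.trans ?_
  refine Eq.trans ?_ (Eq.trans (fs_if (fun (C : ConjClasses (N ⧸ Q))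
    (b : (N ⧸ Q) × N) => (∃ j : ℕ, orderOf b.1 = p ^ j) ∧
    IsConj (b.1 * (b.2 : N ⧸ Q) * C.out) C.out) (fun b => z b.2))
    (@finsum_eq_sum_of_fintype _ _ _ (i4 q.out.1) _))
  refine finsum_congr fun C => ?_
  have : Fintype (N ⧸ Q) := Fintype.ofFinite _
  have : Fintype N := Fintype.ofFinite _
  rw [finsum_eq_sum_of_fintype, finsum_eq_sum_of_fintype, Fintype.sum_prod_type]
  refine Finset.sum_congr rfl fun u _ => ?_
  rw [finsum_eq_sum_of_fintype]
  refine Finset.sum_congr rfl fun y _ => ?_
  by_cases h : (∃ j : ℕ, orderOf u = p ^ j) ∧ IsConj (u * (y : N ⧸ Q) * C.out) C.out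
  · exact (if_pos h).trans (if_pos h).symm
  · exact (if_neg h).trans (if_neg h).symm

theorem isConj_one_iff' {G : Type} [Group G] (k : G) : IsConj 1 k ↔ k = 1 := by
  rw [isConj_iff]
  constructor
  · rintro ⟨c, hc⟩
    rw [← hc]
    group
  · rintro rfl
    exact ⟨1, by group⟩

/-- sums of the unit element -/
theorem sum_uno {F : Type} [Field F] {G : Type} [Group G] {S : Type} [Finite S] (κ : S → G) :
    ∑ᶠ s, uno F G (κ s) = (Nat.card {s // IsConj 1 (κ s)} : F) := by
  have : Fintype S := Fintype.ofFinite S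
  rw [finsum_eq_sum_of_fintype, Nat.card_eq_fintype_card, Fintype.card_subtype,
    Finset.natCast_card_filter]
  refine Finset.sum_congr rfl fun s _ => ?_
  unfold uno
  simp only [isConj_one_iff']

/-- **The conjecture modulo `p` for the whole group algebra, without characters.** -/
theorem tot_iff (hLT : S_LT) (hDZQ : S_DZQ) (p : ℕ) [Fact p.Prime] (F : Type) [Field F]
    [IsAlgClosed F] [CharP F p] (red : integralClosure ℤ ℂ →+* F) (G : Type) [Group G] [Finite G] :
    numIrr F G ≡ numWt p G [MOD p] ↔ regNum p (1 : G) ≡ wtNum p (1 : G) [MOD p] := by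
  have h1 := irr_tr hLT (p := p) (F := F) (G := G) uno_class
  have h2 := wts_tr hDZQ (p := p) red (G := G) (F := F) uno_class
  rw [sum_uno (fun s : RS p G => s.1.2)] at h1
  rw [sum_uno (fun t : TS p G => (t.2.1.2.2 : G))] at h2
  have h3 : ∑ᶠ φ : {φ : G → F // IsIrrTrace φ}, blkOf φ (uno F G) = (numIrr F G : F) := by
    have : Fintype {φ : G → F // IsIrrTrace φ} := Fintype.ofFinite _
    rw [finsum_eq_sum_of_fintype, Finset.sum_congr rfl fun φ _ => block_uno (blkOf_block φ),
      Finset.sum_const, nsmul_eq_mul, mul_one]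
    unfold numIrr
    rw [Nat.card_eq_fintype_card]
    rfl
  have h4 : ∑ᶠ y : YS p G, cvS red y (uno F G) = (numWt p G : F) := by
    have : Fintype (YS p G) := Fintype.ofFinite _
    rw [finsum_eq_sum_of_fintype, Finset.sum_congr rfl fun y _ => block_uno (cvS_block red y),
      Finset.sum_const, nsmul_eq_mul, mul_one, ← card_YS, Nat.card_eq_fintype_card]
    rfl
  have e4 : Nat.card {s : RS p G // IsConj 1 s.1.2} = regNum p (1 : G) := by
    unfold regNum
    exact Nat.card_congr
      { toFun := fun s => ⟨s.1.1, s.1.2, s.2⟩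
        invFun := fun s => ⟨⟨s.1, s.2.1⟩, s.2.2⟩
        left_inv := fun s => rfl
        right_inv := fun s => rfl }
  have e5 : Nat.card {t : TS p G // IsConj 1 (t.2.1.2.2 : G)} = wtNum p (1 : G) := by
    unfold wtNum secNum
    refine (card_sig (fun q : Quotient (pSubgroupSetoid p G) => TS1 p q.out.1)
      (fun t => IsConj 1 (t.2.1.2.2 : G))).trans (finsum_congr fun q => ?_)
    exact Nat.card_congr
      { toFun := fun s => ⟨s.1.1, s.1.2, s.2⟩
        invFun := fun s => ⟨⟨s.1, s.2.1⟩, s.2.2⟩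
        left_inv := fun s => rfl
        right_inv := fun s => rfl }
  rw [h3, e4] at h1
  rw [h4, e5] at h2
  rw [← CharP.natCast_eq_natCast F p, ← CharP.natCast_eq_natCast F p, h1, h2]

end Pool.Agent.N85.WM
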