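import Pool.Agent.N85.WM.Cmt
import Pool.Agent.N85.WM.Tot
import Pool.Agent.N85.WM.Van
import Pool.Agent.N85.WM.Dzt
import Pool.Agent.N85.WM.Lt
import Pool.Agent.N85.WM.Pir
import Pool.Agent.N85.WM.Lw
import Pool.Agent.N85.WM.Wpi
import Pool.Agent.N85.WM.Cov
import Pool.Agent.N85.WM.Ww

/-!
# Alperin's weight conjecture and a congruence modulo `p`
-/

set_option autoImplicit false

open scoped Classical BigOperators

noncomputable section

namespace Pool.Agent.N85.WM

open Pool.Agent.Y63.NV

theorem lt' : S_LT := Pool.Agent.N85.WM.Lt.main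

theorem dzq' : S_DZQ := Pool.Agent.N85.WM.Dzt.dzq
  (Pool.Agent.N85.WM.Dzt.main Pool.Agent.N85.WM.Van.main)

theorem lw' : S_LW := Pool.Agent.N85.WM.Lw.main Pool.Agent.N85.WM.Pir.main

theorem ww' : S_WW := Pool.Agent.N85.WM.Ww.main Pool.Agent.N85.WM.Wpi.main
  Pool.Agent.N85.WM.Wpi.wpc Pool.Agent.N85.WM.Cov.main

/-- the blockwise conjecture and the congruence -/
theorem bawc_cong (p : ℕ) [Fact p.Prime] (F : Type) [Field F] [IsAlgClosed F] [CharP F p]
    (red : integralClosure ℤ ℂ →+* F) (X : ∀ (H : Type) [Group H], Prop)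
    (hX : ∀ (H : Type) [Group H] [Finite H], X H → X (Wr p H)) :
    ((∀ (G : Type) [Group G] [Finite G], X G → BAWC p red G) ↔
      ∀ (G : Type) [Group G] [Finite G], X G → ∀ B : (G → F) → F, IsBlock B →
        numIrrBlock B ≡ numWts p red B [MOD p]) ∧
    ((∀ (G : Type) [Group G] [Finite G], X G → BAWC p red G) ↔
      ∀ (G : Type) [Group G] [Finite G], X G → ∀ g : G,
        regTrip p g ≡ ∑ᶠ Q : {Q : Subgroup G // IsPGroup p Q}, tripNum p Q.1 g / Nat.card Q.1
          [MOD p ^ ((Nat.card G).factorization p + 1)]) ∧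
    ((∀ (G : Type) [Group G] [Finite G], X G → numIrr F G = numWt p G) ↔
      ∀ (G : Type) [Group G] [Finite G], X G →
        regTrip p (1 : G) ≡ ∑ᶠ Q : {Q : Subgroup G // IsPGroup p Q},
          tripNum p Q.1 (1 : G) / Nat.card Q.1
          [MOD p ^ ((Nat.card G).factorization p + 1)]) := by
  have h1 : (∀ (G : Type) [Group G] [Finite G], X G → BAWC p red G) ↔
      ∀ (G : Type) [Group G] [Finite G], X G → ∀ B : (G → F) → F, IsBlock B →
        numIrrBlock B ≡ numWts p red B [MOD p] := by
    constructor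
    · intro h G _ _ hG B hB
      have h2 : numIrrBlock B = numWts p red B := h G hG B hB
      rw [h2]
    · intro h G _ _ hG
      exact bawc_of_modp lw' ww' red X hX h G hG
  refine ⟨h1, ?_, ?_⟩
  · rw [h1]
    constructor
    · intro h G _ _ hG g
      exact (com_iff p g).mp ((free_iff lt' dzq' p F red G).mp (h G hG) g)
    · intro h G _ _ hG
      exact (free_iff lt' dzq' p F red G).mpr fun g => (com_iff p g).mpr (h G hG g)
  · constructor
    · intro h G _ _ hG
      refine (com_iff p (1 : G)).mp ((tot_iff lt' dzq' p F red G).mp ?_)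
      rw [h G hG]
    · intro h G _ _ hG
      refine tot_of_modp lw' ww' F red X hX (fun H _ _ hH => ?_) G hG
      exact (tot_iff lt' dzq' p F red H).mpr ((com_iff p (1 : H)).mpr (h H hH))

end Pool.Agent.N85.WM
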