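import Pool.Agent.N85.WM.Val

/-!
# The conjecture modulo `p` without characters
-/

set_option autoImplicit false

open scoped Classical BigOperators

noncomputable section

namespace Pool.Agent.N85.WM

open Pool.Agent.Y63.NV
open Pool.Agent.Y63.AWC (IsIrreducibleCharacter pSubgroupSetoid)

/-- The number of pairs `(x, k)`: `x` in a fixed system of representatives of the `p`-regular classes
of `G`, `k` in the class of `g`, and the `p'`-part of `kx` is conjugate to `x`. -/
def regNum (p : ℕ) {G : Type} [Group G] (g : G) : ℕ :=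
  Nat.card {s : ConjClasses G × G // (¬ p ∣ orderOf s.1.out ∧
    IsConj (pp p (s.2 * s.1.out)) s.1.out) ∧ IsConj g s.2}

/-- For a normal subgroup `Q` of a subgroup `N` of `G`: the number of triples `(y, u, k)`, where `y` is
in a fixed system of representatives of the classes of `N/Q`, `u ∈ N/Q` has order a power of `p`, `k ∈ N`
is conjugate to `g` in `G` and `u k̄ y` is conjugate to `y` in `N/Q`. -/
def secNum (p : ℕ) {G : Type} [Group G] (N : Subgroup G) (Q : Subgroup N) [Q.Normal] (g : G) : ℕ :=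
  Nat.card {t : ConjClasses (N ⧸ Q) × (N ⧸ Q) × N // ((∃ j : ℕ, orderOf t.2.1 = p ^ j) ∧
    IsConj (t.2.1 * (t.2.2 : N ⧸ Q) * t.1.out) t.1.out) ∧ IsConj g t.2.2}

/-- the sum of the numbers `secNum` for `N_G(Q)/Q`, over the classes of `p`-subgroups `Q` -/
def wtNum (p : ℕ) {G : Type} [Group G] (g : G) : ℕ :=
  ∑ᶠ q : Quotient (pSubgroupSetoid p G),
    secNum p (Subgroup.normalizer (q.out.1 : Set G))
      (q.out.1.subgroupOf (Subgroup.normalizer (q.out.1 : Set G))) g

section gen

variable {F : Type} [Field F] {G : Type} [Group G] [Finite G]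

theorem fs_if {A B : Type} [Finite A] [Finite B] (P : A → B → Prop) (v : B → F) :
    ∑ᶠ a, ∑ᶠ b, (if P a b then v b else 0) = ∑ᶠ s : {s : A × B // P s.1 s.2}, v s.1.2 := by
  have : Fintype A := Fintype.ofFinite A
  have : Fintype B := Fintype.ofFinite B
  rw [finsum_eq_sum_of_fintype, finsum_eq_sum_of_fintype]
  have h1 : ∑ a, ∑ᶠ b, (if P a b then v b else 0) =
      ∑ s : A × B, (if P s.1 s.2 then v s.2 else 0) := by
    rw [Fintype.sum_prod_type]
    exact Finset.sum_congr rfl fun a _ => finsum_eq_sum_of_fintype _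
  rw [h1, ← Finset.sum_filter]
  exact Finset.sum_subtype (p := fun s : A × B => P s.1 s.2)
    (Finset.univ.filter fun s : A × B => P s.1 s.2) (by simp) (fun s => v s.2)

/-- sums of class functions and numbers of elements in classes -/
theorem cls_iff (p : ℕ) [CharP F p] {S T : Type} [Finite S] [Finite T] (κ : S → G) (μ : T → G) :
    (∀ z : G → F, IsClassFun z → ∑ᶠ s, z (κ s) = ∑ᶠ t, z (μ t)) ↔
      ∀ g : G, Nat.card {s // IsConj g (κ s)} ≡ Nat.card {t // IsConj g (μ t)} [MOD p] := by
  have : Fintype S := Fintype.ofFinite S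
  have : Fintype T := Fintype.ofFinite T
  have : Fintype G := Fintype.ofFinite G
  have : Fintype (ConjClasses G) := Fintype.ofFinite _
  have key : ∀ {R : Type} [Fintype R] (ν : R → G) (z : G → F), IsClassFun z →
      ∑ᶠ r, z (ν r) = ∑ C : ConjClasses G, z C.out * (Nat.card {r // IsConj C.out (ν r)} : F) := by
    intro R _ ν z hz
    rw [finsum_eq_sum_of_fintype, ← Finset.sum_fiberwise (s := Finset.univ)
      (g := fun r => (ConjClasses.mk (ν r)))]
    refine Finset.sum_congr rfl fun C _ => ?_
    have hC : ConjClasses.mk C.out = C := Quotient.out_eq C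
    have h1 : ∀ r ∈ Finset.univ.filter (fun r => ConjClasses.mk (ν r) = C), z (ν r) = z C.out := by
      intro r hr
      have h2 : ConjClasses.mk (ν r) = ConjClasses.mk C.out :=
        ((Finset.mem_filter.mp hr).2).trans hC.symm
      obtain ⟨g, hg⟩ := isConj_iff.mp (ConjClasses.mk_eq_mk_iff_isConj.mp h2)
      rw [← hg, hz]
    rw [Finset.sum_congr rfl h1, Finset.sum_const, nsmul_eq_mul, mul_comm,
      Nat.card_eq_fintype_card, Fintype.card_subtype]
    congr 3
    ext r
    simp only [Finset.mem_filter, Finset.mem_univ, true_and]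
    rw [← ConjClasses.mk_eq_mk_iff_isConj, hC, eq_comm]
  constructor
  · intro h g
    have hz : IsClassFun (fun x : G => if IsConj g x then (1 : F) else 0) := by
      intro a x
      have e : IsConj g (a * x * a⁻¹) ↔ IsConj g x := by
        have h1 : IsConj x (a * x * a⁻¹) := isConj_iff.mpr ⟨a, rfl⟩
        exact ⟨fun h2 => h2.trans h1.symm, fun h2 => h2.trans h1⟩
      simp only [e]
    have h1 := h _ hz
    rw [finsum_eq_sum_of_fintype, finsum_eq_sum_of_fintype, ← Finset.natCast_card_filter,
      ← Finset.natCast_card_filter, CharP.natCast_eq_natCast F p] at h1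
    rw [Nat.card_eq_fintype_card, Nat.card_eq_fintype_card, Fintype.card_subtype,
      Fintype.card_subtype]
    exact h1
  · intro h z hz
    rw [key κ z hz, key μ z hz]
    refine Finset.sum_congr rfl fun C _ => ?_
    rw [(CharP.natCast_eq_natCast F p).mpr (h C.out)]

end gen

/-- **The conjecture modulo `p` without characters.** -/
theorem free_iff (hLT : S_LT) (hDZQ : S_DZQ) (p : ℕ) [Fact p.Prime] (F : Type) [Field F]
    [IsAlgClosed F] [CharP F p] (red : integralClosure ℤ ℂ →+* F) (G : Type) [Group G] [Finite G] :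
    (∀ B : (G → F) → F, IsBlock B → numIrrBlock B ≡ numWts p red B [MOD p]) ↔
    ∀ g : G, regNum p g ≡ wtNum p g [MOD p] := by
  have : Fintype (Quotient (pSubgroupSetoid p G)) := Fintype.ofFinite _
  rw [modp_iff p F red G]
  let S : Type := {s : ConjClasses G × G // ¬ p ∣ orderOf s.1.out ∧
    IsConj (pp p (s.2 * s.1.out)) s.1.out}
  let N : Quotient (pSubgroupSetoid p G) → Subgroup G := fun q =>
    Subgroup.normalizer (q.out.1 : Set G)
  let Q : ∀ q : Quotient (pSubgroupSetoid p G), Subgroup (N q) := fun q =>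
    q.out.1.subgroupOf (N q)
  let T' : Quotient (pSubgroupSetoid p G) → Type := fun q =>
    {t : ConjClasses (N q ⧸ Q q) × (N q ⧸ Q q) × N q // (∃ j : ℕ, orderOf t.2.1 = p ^ j) ∧
      IsConj (t.2.1 * (t.2.2 : N q ⧸ Q q) * t.1.out) t.1.out}
  let T : Type := Σ q, T' q
  have hT' : ∀ q, Finite (T' q) := fun q => inferInstanceAs (Finite {t : ConjClasses (N q ⧸ Q q) ×
    (N q ⧸ Q q) × N q // (∃ j : ℕ, orderOf t.2.1 = p ^ j) ∧
      IsConj (t.2.1 * (t.2.2 : N q ⧸ Q q) * t.1.out) t.1.out})
  have hT : Finite T := inferInstanceAs (Finite (Σ q, T' q))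
  let κ : S → G := fun s => s.1.2
  let μ : T → G := fun t => (t.2.1.2.2 : G)
  have e1 : ∀ z : G → F, IsClassFun z →
      ∑ᶠ c : F, c * (Lnum (⊤ : Subgroup G) ⊤ z c : F) = ∑ᶠ s, z (κ s) := by
    intro z hz
    rw [hLT p F G z hz]
    refine Eq.trans ?_ (fs_if (fun (C : ConjClasses G) (k : G) => ¬ p ∣ orderOf C.out ∧
      IsConj (pp p (k * C.out)) C.out) z)
    refine finsum_congr fun C => ?_
    by_cases hC : ¬ p ∣ orderOf C.out
    · rw [if_pos hC]
      refine finsum_congr fun k => ?_
      simp only [hC, not_false_eq_true, true_and]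
    · rw [if_neg hC]
      simp only [hC, false_and, if_false, finsum_zero]
  have e2 : ∀ z : G → F, IsClassFun z →
      ∑ᶠ q : Quotient (pSubgroupSetoid p G),
          ∑ᶠ χ : {χ : Subgroup.normalizer (q.out.1 : Set G) → ℂ //
            IsWt p (q.out.1.subgroupOf (Subgroup.normalizer (q.out.1 : Set G))) χ},
            centralValue red χ.1 (fun x => z x) = ∑ᶠ t, z (μ t) := by
    intro z hz
    have fT' : ∀ q, Fintype (T' q) := fun q => Fintype.ofFinite (T' q)
    have e3 : ∑ᶠ t, z (μ t) = ∑ q, ∑ t : T' q, z (μ ⟨q, t⟩) := by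
      rw [finsum_eq_sum_of_fintype]
      exact Fintype.sum_sigma _
    rw [e3, finsum_eq_sum_of_fintype]
    refine Finset.sum_congr rfl fun q _ => ?_
    have hn : (Q q).Normal := inferInstanceAs
      ((q.out.1.subgroupOf (Subgroup.normalizer (q.out.1 : Set G))).Normal)
    refine (hDZQ p F red (N q) (Q q) (fun x => z x) (fun g x => hz g x)).trans ?_
    refine Eq.trans ?_ (Eq.trans (fs_if (fun (C : ConjClasses (N q ⧸ Q q))
      (b : (N q ⧸ Q q) × N q) => (∃ j : ℕ, orderOf b.1 = p ^ j) ∧
      IsConj (b.1 * (b.2 : N q ⧸ Q q) * C.out) C.out) (fun b => z b.2))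
      (finsum_eq_sum_of_fintype _))
    refine finsum_congr fun C => ?_
    have : Fintype (N q ⧸ Q q) := Fintype.ofFinite _
    have : Fintype (N q) := Fintype.ofFinite _
    rw [finsum_eq_sum_of_fintype, finsum_eq_sum_of_fintype, Fintype.sum_prod_type]
    refine Finset.sum_congr rfl fun u _ => ?_
    rw [finsum_eq_sum_of_fintype]
    refine Finset.sum_congr rfl fun y _ => ?_
    by_cases h : (∃ j : ℕ, orderOf u = p ^ j) ∧ IsConj (u * (y : N q ⧸ Q q) * C.out) C.out
    · exact (if_pos h).trans (if_pos h).symm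
    · exact (if_neg h).trans (if_neg h).symm
  have h1 := cls_iff (F := F) p κ μ
  have h2 : (∀ z : G → F, IsClassFun z →
      ∑ᶠ c : F, c * (Lnum (⊤ : Subgroup G) ⊤ z c : F) =
        ∑ᶠ q : Quotient (pSubgroupSetoid p G),
          ∑ᶠ χ : {χ : Subgroup.normalizer (q.out.1 : Set G) → ℂ //
            IsWt p (q.out.1.subgroupOf (Subgroup.normalizer (q.out.1 : Set G))) χ},
            centralValue red χ.1 (fun x => z x)) ↔
      ∀ z : G → F, IsClassFun z → ∑ᶠ s, z (κ s) = ∑ᶠ t, z (μ t) := by
    refine forall_congr' fun z => imp_congr_right fun hz => ?_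
    rw [e1 z hz, e2 z hz]
  rw [h2, h1]
  refine forall_congr' fun g => ?_
  have e4 : Nat.card {s // IsConj g (κ s)} = regNum p g := by
    unfold regNum
    exact Nat.card_congr
      { toFun := fun s => ⟨s.1.1, s.1.2, s.2⟩
        invFun := fun s => ⟨⟨s.1, s.2.1⟩, s.2.2⟩
        left_inv := fun s => rfl
        right_inv := fun s => rfl }
  have e5 : Nat.card {t // IsConj g (μ t)} = wtNum p g := by
    unfold wtNum secNum
    refine (card_sig T' (fun t => IsConj g (μ t))).trans (finsum_congr fun q => ?_)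
    exact Nat.card_congr
      { toFun := fun s => ⟨s.1.1, s.1.2, s.2⟩
        invFun := fun s => ⟨⟨s.1, s.2.1⟩, s.2.2⟩
        left_inv := fun s => rfl
        right_inv := fun s => rfl }
  rw [e4, e5]

end Pool.Agent.N85.WM
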