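import Pool.Agent.Y63.NV.Kalt
import Pool.Agent.N19.RB.Pi

/-!
# Alperin's weight conjecture modulo `p`: definitions and statements of the parts

Notation of `Pool/Agent/Y63/NV/Defs.lean`: `IsIrrTrace φ` (irreducible traces over `F`),
`IsClassFun`, `IsBlock B`, `InZ G z`, `IsWt p Q χ`, `centralValue red χ f`, `Lnum`, `Lsum`, `Wsum`,
`Nw`, `pp p x` (the `p'`-part of `x`).
-/

set_option autoImplicit false

open scoped Classical

noncomputable section

namespace Pool.Agent.N85.WM

open Pool.Agent.Y63.NV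
open Pool.Agent.Y63.AWC (IsIrreducibleCharacter pSubgroupSetoid)

/-! ### the trace formulas -/

/-- VAN: characters of defect zero vanish at the elements of order divisible by `p` -/
def S_VAN : Prop := ∀ (p : ℕ) [Fact p.Prime] (K : Type) [Group K] [Finite K] (χ : K → ℂ),
  IsWt p (⊥ : Subgroup K) χ → ∀ x : K, p ∣ orderOf x → χ x = 0

/-- DZT: the sum of the central characters of defect zero is a trace in characteristic `p` -/
def S_DZT : Prop := ∀ (p : ℕ) [Fact p.Prime] (F : Type) [Field F] [CharP F p]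
  (red : integralClosure ℤ ℂ →+* F) (K : Type) [Group K] [Finite K] (f : K → F), IsClassFun f →
    ∑ᶠ χ : {χ : K → ℂ // IsWt p (⊥ : Subgroup K) χ}, centralValue red χ.1 f =
      ∑ᶠ C : ConjClasses K, ∑ᶠ u : K, ∑ᶠ g : K,
        if (∃ k : ℕ, orderOf u = p ^ k) ∧ IsConj (u * g * C.out) C.out then f g else 0

/-- DZQ: the same for inflated characters -/
def S_DZQ : Prop := ∀ (p : ℕ) [Fact p.Prime] (F : Type) [Field F] [CharP F p]
  (red : integralClosure ℤ ℂ →+* F) (J : Type) [Group J] [Finite J] (Q : Subgroup J) [Q.Normal]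
  (f : J → F), IsClassFun f →
    ∑ᶠ χ : {χ : J → ℂ // IsWt p Q χ}, centralValue red χ.1 f =
      ∑ᶠ C : ConjClasses (J ⧸ Q), ∑ᶠ u : J ⧸ Q, ∑ᶠ g : J,
        if (∃ k : ℕ, orderOf u = p ^ k) ∧ IsConj (u * (g : J ⧸ Q) * C.out) C.out then f g else 0

/-- LT: the sum of the central characters of the irreducible representations over `F` is a trace -/
def S_LT : Prop := ∀ (p : ℕ) [Fact p.Prime] (F : Type) [Field F] [IsAlgClosed F] [CharP F p]
  (G : Type) [Group G] [Finite G] (z : G → F), IsClassFun z →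
    ∑ᶠ c : F, c * (Lnum (⊤ : Subgroup G) ⊤ z c : F) =
      ∑ᶠ C : ConjClasses G, if ¬ p ∣ orderOf C.out then
        ∑ᶠ g : G, (if IsConj (pp p (g * C.out)) C.out then z g else 0) else 0

/-! ### direct powers -/

/-- the product of functions on the factors, with values in `F` -/
def tensF {F ι G : Type} [Field F] [Fintype ι] (θ : ι → G → F) : (ι → G) → F :=
  fun x => ∏ i, θ i (x i)

/-- PIR: the irreducible traces of a direct power -/
def S_PIR : Prop := ∀ (p : ℕ) [Fact p.Prime] (F : Type) [Field F] [IsAlgClosed F] [CharP F p]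
  (ι : Type) [Fintype ι] (G : Type) [Group G] [Finite G],
    (∀ φ : (ι → G) → F, IsIrrTrace φ ↔
      ∃ θ : ι → G → F, (∀ i, IsIrrTrace (θ i)) ∧ φ = tensF θ) ∧
    ∀ θ θ' : ι → G → F, (∀ i, IsIrrTrace (θ i)) → (∀ i, IsIrrTrace (θ' i)) →
      tensF θ = tensF θ' → θ = θ'

/-- `(Q, χ)` is a weight of `G`: `Q` is a `p`-subgroup, `χ : G → ℂ` vanishes outside `N_G(Q)` and its
restriction to `N_G(Q)` is the inflation of a character of `N_G(Q)/Q` of `p`-defect zero -/
structure IsW (p : ℕ) {G : Type} [Group G] (Q : Subgroup G) (χ : G → ℂ) : Prop where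
  pg : IsPGroup p Q
  supp : ∀ x : G, x ∉ Subgroup.normalizer (Q : Set G) → χ x = 0
  wt : IsWt p (Q.subgroupOf (Subgroup.normalizer (Q : Set G)))
    (fun x : Subgroup.normalizer (Q : Set G) => χ x)

/-- the value of the central character of the weight at the class function `z` -/
def wcv {F : Type} [Field F] (red : integralClosure ℤ ℂ →+* F) {G : Type} [Group G]
    (Q : Subgroup G) (χ : G → ℂ) (z : G → F) : F :=
  centralValue red (fun x : Subgroup.normalizer (Q : Set G) => χ x) (fun x => z x)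

/-- the product of the subgroups -/
def piSub {ι G : Type} [Group G] (R : ι → Subgroup G) : Subgroup (ι → G) :=
  Subgroup.pi Set.univ R

/-- WPI: the weights of a direct power -/
def S_WPI : Prop := ∀ (p : ℕ) [Fact p.Prime] (ι : Type) [Fintype ι] (G : Type) [Group G]
  [Finite G],
    (∀ (Q : Subgroup (ι → G)) (χ : (ι → G) → ℂ), IsW p Q χ ↔
      ∃ (R : ι → Subgroup G) (ψ : ι → G → ℂ), (∀ i, IsW p (R i) (ψ i)) ∧ Q = piSub R ∧
        χ = tensF ψ) ∧
    ∀ (R R' : ι → Subgroup G) (ψ ψ' : ι → G → ℂ), (∀ i, IsW p (R i) (ψ i)) →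
      (∀ i, IsW p (R' i) (ψ' i)) → piSub R = piSub R' → tensF ψ = tensF ψ' → R = R' ∧ ψ = ψ'

/-- WPC: the central characters of the weights of a direct power -/
def S_WPC : Prop := ∀ (p : ℕ) [Fact p.Prime] (F : Type) [Field F]
  (red : integralClosure ℤ ℂ →+* F) (ι : Type) [Fintype ι] (G : Type) [Group G] [Finite G]
  (R : ι → Subgroup G) (ψ : ι → G → ℂ) (f : ι → G → F), (∀ i, IsW p (R i) (ψ i)) →
    (∀ i, IsClassFun (f i)) →
      wcv red (piSub R) (tensF ψ) (tensF f) = ∏ i, wcv red (R i) (ψ i) (f i)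

/-! ### normal subgroups of index `p` -/

/-- `(Q, χ)` is fixed by the conjugation by an element of `Γ` outside the normal subgroup `N` -/
def FixedOut {Γ : Type} [Group Γ] (N : Subgroup Γ) (Q : Subgroup N) (χ : N → ℂ) : Prop :=
  ∃ g : Γ, g ∉ N ∧ (∀ x y : N, (y : Γ) = g * x * g⁻¹ → (x ∈ Q ↔ y ∈ Q)) ∧
    ∀ x y : N, (y : Γ) = g * x * g⁻¹ → χ x = χ y

/-- COV: the weights `Q` of `Γ` with `NQ = Γ` and the invariant weights of `N` -/
def S_COV : Prop := ∀ (p : ℕ) [Fact p.Prime] (F : Type) [Field F] [CharP F p]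
  (red : integralClosure ℤ ℂ →+* F) (Γ : Type) [Group Γ] [Finite Γ] (N : Subgroup Γ)
  [N.Normal] (z : Γ → F) (c : F), Nat.card (Γ ⧸ N) = p → InZ N z →
    Wsum p red N ⊤ z c = (p : ℤ) * ∑ᶠ Q : Subgroup N,
      (Nat.card (Subgroup.normalizer (Q : Set N)) : ℤ) *
        Nat.card {χ : N → ℂ // IsW p Q χ ∧ wcv red Q χ (fun x : N => z x) = c ∧ FixedOut N Q χ}

/-! ### wreath products -/

/-- the cyclic group of order `p` acts on `G^p` by shifts -/
def shiftHom (p : ℕ) (G : Type) [Group G] : Multiplicative (ZMod p) →* MulAut (ZMod p → G) where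
  toFun t :=
    { toFun := fun x i => x (i - t.toAdd)
      invFun := fun x i => x (i + t.toAdd)
      left_inv := fun x => by funext i; simp
      right_inv := fun x => by funext i; simp
      map_mul' := fun x y => rfl }
  map_one' := by ext x i; simp
  map_mul' s t := by
    ext x i
    simp only [MulAut.mul_apply, MulEquiv.coe_mk, Equiv.coe_fn_mk, toAdd_mul]
    congr 1
    ring

/-- the wreath product `G ≀ C_p` -/
abbrev Wr (p : ℕ) (G : Type) [Group G] : Type :=
  (ZMod p → G) ⋊[shiftHom p G] Multiplicative (ZMod p)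

/-- the base group `G^p` of the wreath product -/
def Base (p : ℕ) (G : Type) [Group G] : Subgroup (Wr p G) :=
  (SemidirectProduct.inl : (ZMod p → G) →* Wr p G).range

/-- the element `e ⊗ ⋯ ⊗ e` of the group algebra of the base group -/
def wrF {F : Type} [Field F] (p : ℕ) [NeZero p] {G : Type} [Group G] (e : G → F) (x : Wr p G) : F :=
  if x.right = 1 then ∏ i, e (x.left i) else 0

/-- `e` is a class function, and all blocks take the values `0` and `1` at `e` -/
structure IsIdem {F : Type} [Field F] {G : Type} [Group G] (e : G → F) : Prop where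
  cl : IsClassFun e
  val : ∀ B : (G → F) → F, IsBlock B → B e = 0 ∨ B e = 1

/-- LW: irreducible traces and wreath products -/
def S_LW : Prop := ∀ (p : ℕ) [Fact p.Prime] (F : Type) [Field F] [IsAlgClosed F] [CharP F p]
  (G : Type) [Group G] [Finite G] (e : G → F), IsIdem e →
    Lsum (⊤ : Subgroup (Base p G)) ⊤ (fun x => wrF p e x) 1 =
      (Nat.card G : ℤ) ^ p * (Lnum (⊤ : Subgroup G) ⊤ e 1 : ℤ) ^ p ∧
    Lsum (Base p G) ⊤ (wrF p e) 1 =
      (p : ℤ) * (Nat.card G : ℤ) ^ p * (Lnum (⊤ : Subgroup G) ⊤ e 1 : ℤ)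

/-- WW: weights and wreath products -/
def S_WW : Prop := ∀ (p : ℕ) [Fact p.Prime] (F : Type) [Field F] [IsAlgClosed F] [CharP F p]
  (red : integralClosure ℤ ℂ →+* F) (G : Type) [Group G] [Finite G] (e : G → F) (w : ℕ),
    IsIdem e → Wsum p red (⊤ : Subgroup G) ⊤ e 1 = (Nat.card G : ℤ) * w →
    Wsum p red (⊤ : Subgroup (Base p G)) ⊤ (fun x => wrF p e x) 1 =
      (Nat.card G : ℤ) ^ p * (w : ℤ) ^ p ∧
    Wsum p red (Base p G) ⊤ (wrF p e) 1 = (p : ℤ) * (Nat.card G : ℤ) ^ p * (w : ℤ)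

end Pool.Agent.N85.WM
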